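import Pool.Agent.Lib.MFG.SpecC

set_option autoImplicit false

/-! MP_98850d_an, module Bal: small balls lie in a given neighbourhood of the identity. -/

open Set Filter Topology

namespace Pool.Agent.MFG

universe u

theorem balP : S_Bal := by
  intro G _ _ N O hN hO
  have h1 : (1 : G) ∈ interior O := mem_interior_iff_mem_nhds.2 hO
  have hK : IsCompact ({u | N u ≤ 1} \ interior O) := (hN.cpt 1).diff isOpen_interior
  rcases ({u | N u ≤ 1} \ interior O).eq_empty_or_nonempty with he | hne
  · refine ⟨1, one_pos, fun u hu => ?_⟩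
    by_contra hc
    have h2 : u ∈ ({u | N u ≤ 1} \ interior O) := ⟨hu, fun h => hc (interior_subset h)⟩
    rw [he] at h2
    exact h2
  · obtain ⟨u0, hu0, hmin⟩ := hK.exists_isMinOn hne hN.cont.continuousOn
    have hpos : 0 < N u0 := by
      refine lt_of_le_of_ne (hN.nonneg u0) fun h => ?_
      have h3 := (hN.zero u0).1 h.symm
      rw [h3] at hu0
      exact hu0.2 h1
    refine ⟨min (N u0 / 2) 1, lt_min (half_pos hpos) one_pos, fun u hu => ?_⟩
    by_contra hc
    have h2 : u ∈ ({u | N u ≤ 1} \ interior O) :=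
      ⟨hu.trans (min_le_right _ _), fun h => hc (interior_subset h)⟩
    have h4 : N u0 ≤ N u := hmin h2
    have h5 : N u ≤ N u0 / 2 := hu.trans (min_le_left _ _)
    linarith

end Pool.Agent.MFG
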