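import Pool.Agent.Lib.MFG.SpecB

/-!
# MP_98850d_an, theorem (C), part B: the functions `bet`, `hei`, `zet`
-/

set_option autoImplicit false

open Set Filter Topology

namespace Pool.Agent.MFG

universe u

namespace BtM

theorem att {Y : Type*} [TopologicalSpace Y] {K : Set Y} (hK : IsCompact K) (hne : K.Nonempty)
    {f : Y → ℝ} (hf : Continuous f) :
    (∀ y ∈ K, f y ≤ sSup (f '' K)) ∧ ∃ y ∈ K, f y = sSup (f '' K) := by
  have hbdd : BddAbove (f '' K) := (hK.image hf).bddAbove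
  refine ⟨fun y hy => le_csSup hbdd (mem_image_of_mem f hy), ?_⟩
  obtain ⟨y, hy, h⟩ := (hK.image hf).sSup_mem (hne.image f)
  exact ⟨y, hy, h⟩

end BtM

theorem btP : S_Bt.{u} := by
  intro G _ _ _ N φ l A X _ _ _ b hφ hl hA hb hb01
  have hKN : IsCompact {u : G | N u ≤ l} := hφ.len.cpt l
  have hneN : ({u : G | N u ≤ l}).Nonempty := ⟨1, by
    show N 1 ≤ l
    rw [hφ.len.one]; exact hl⟩
  have hKI : IsCompact (Icc (-(2 * A)) (2 * A)) := isCompact_Icc
  have hneI : (Icc (-(2 * A)) (2 * A)).Nonempty := nonempty_Icc.2 (by linarith)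
  -- bet
  have cbet : Continuous (bet N l b) := by
    refine hKN.continuous_sSup (f := fun (x : X) (u : G) => b (u • x)) ?_
    exact hb.comp (continuous_snd.smul continuous_fst)
  have abet : ∀ x : X, (∀ u : G, N u ≤ l → b (u • x) ≤ bet N l b x) ∧
      ∃ u : G, N u ≤ l ∧ b (u • x) = bet N l b x := fun x =>
    BtM.att hKN hneN (f := fun u : G => b (u • x)) (hb.comp (continuous_id.smul continuous_const))
  have bbet : ∀ x, 0 ≤ bet N l b x ∧ bet N l b x ≤ 1 := by
    intro x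
    obtain ⟨u, hu, he⟩ := (abet x).2
    rw [← he]
    exact hb01 _
  have pbet : ∀ x, 0 < bet N l b x → ∃ u : G, N u ≤ l ∧ 0 < b (u • x) := by
    intro x hx
    obtain ⟨u, hu, he⟩ := (abet x).2
    exact ⟨u, hu, by rw [he]; exact hx⟩
  -- the line
  have cline : Continuous fun p : X × ℝ => bet N l b (φ p.2 • p.1) :=
    cbet.comp ((hφ.cont.comp continuous_snd).smul continuous_fst)
  have cline' : ∀ x : X, Continuous fun s : ℝ => bet N l b (φ s • x) := fun x =>
    cbet.comp (hφ.cont.smul continuous_const)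
  have hmem : ∀ s : ℝ, s ∈ Icc (-(2 * A)) (2 * A) ↔ |s| ≤ 2 * A := fun s => by
    rw [mem_Icc, abs_le]
  -- hei
  have chei : Continuous (hei N φ l A b) :=
    hKI.continuous_sSup (f := fun (x : X) (s : ℝ) => bet N l b (φ s • x)) cline
  have ahei : ∀ x : X, (∀ s : ℝ, |s| ≤ 2 * A → bet N l b (φ s • x) ≤ hei N φ l A b x) ∧
      ∃ s : ℝ, |s| ≤ 2 * A ∧ bet N l b (φ s • x) = hei N φ l A b x := by
    intro x
    obtain ⟨h1, s, hs, h2⟩ := BtM.att hKI hneI (f := fun s : ℝ => bet N l b (φ s • x)) (cline' x)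
    exact ⟨fun s hs => h1 s ((hmem s).2 hs), s, (hmem s).1 hs, h2⟩
  have bhei : ∀ x, 0 ≤ hei N φ l A b x ∧ hei N φ l A b x ≤ 1 := by
    intro x
    obtain ⟨s, hs, he⟩ := (ahei x).2
    rw [← he]
    exact bbet _
  -- zet
  have czet0 : Continuous fun x : X =>
      sSup ((fun s : ℝ => s + 16 * A * bet N l b (φ s • x)) '' Icc (-(2 * A)) (2 * A)) := by
    refine hKI.continuous_sSup (f := fun (x : X) (s : ℝ) => s + 16 * A * bet N l b (φ s • x)) ?_
    exact continuous_snd.add (continuous_const.mul cline)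
  have czet : Continuous (zet N φ l A b) := czet0.sub (continuous_const.mul chei)
  have azet : ∀ x : X, (∀ s : ℝ, |s| ≤ 2 * A →
      s + 16 * A * bet N l b (φ s • x) - 16 * A * hei N φ l A b x ≤ zet N φ l A b x) ∧
      ∃ s : ℝ, |s| ≤ 2 * A ∧
        s + 16 * A * bet N l b (φ s • x) - 16 * A * hei N φ l A b x = zet N φ l A b x := by
    intro x
    obtain ⟨h1, s, hs, h2⟩ := BtM.att hKI hneI
      (f := fun s : ℝ => s + 16 * A * bet N l b (φ s • x))
      (continuous_id.add (continuous_const.mul (cline' x)))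
    refine ⟨fun s hs => sub_le_sub_right (h1 s ((hmem s).2 hs)) _, s, (hmem s).1 hs, ?_⟩
    exact congrArg (fun t => t - 16 * A * hei N φ l A b x) h2
  refine ⟨cbet, chei, czet, bbet, bhei, fun x => (abet x).1, pbet, fun x => (ahei x).1,
    fun x => (ahei x).2, fun x => (azet x).1, fun x => (azet x).2, ?_⟩
  intro x hx
  obtain ⟨s₀, hs₀, h0⟩ := (ahei x).2
  obtain ⟨s₁, hs₁, h1⟩ := (azet x).2
  have h2 := (azet x).1 s₀ hs₀
  have h3 := (ahei x).1 s₁ hs₁
  have hb0 := (bbet (φ s₁ • x)).1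
  have h4 : 16 * A * bet N l b (φ s₁ • x) ≤ 16 * A * hei N φ l A b x :=
    mul_le_mul_of_nonneg_left h3 (by linarith)
  have h5 : 8 * A < 16 * A * hei N φ l A b x := by nlinarith
  have h6 := abs_le.1 hs₀
  have h7 := abs_le.1 hs₁
  refine ⟨s₀, s₁, hs₀, hs₁, ?_, ?_, ?_, ?_⟩
  · rw [h0] at h2; linarith
  · linarith
  · rw [h0]; linarith
  · rw [h0] at h2
    have h8 : 0 < 16 * A * bet N l b (φ s₁ • x) := by linarith
    by_contra hcon
    have h9 : bet N l b (φ s₁ • x) = 0 := le_antisymm (not_lt.1 hcon) hb0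
    rw [h9] at h8
    simp at h8

end Pool.Agent.MFG
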