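import Pool.Agent.Lib.MFG.A.LocP
import Pool.Agent.Lib.MFG.A.CovD
import Pool.Agent.Lib.MFG.A.LC
import Pool.Agent.Lib.MFG.A.Pk
import Pool.Agent.Lib.MFG.A.Grd
import Pool.Agent.Lib.MFG.A.NetV
import Pool.Agent.Lib.MFG.A.GO
import Pool.Agent.Lib.MFG.A.HI
import Pool.Agent.Lib.MFG.A.Typ
import Pool.Agent.Lib.MFG.A.Sel
import Pool.Agent.Lib.MFG.A.NF
import Pool.Agent.Lib.MFG.A.Lip
import Pool.Agent.Lib.MFG.A.ValL
import Pool.Agent.Lib.MFG.A.Bk
import Pool.Agent.Lib.MFG.A.StE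
import Pool.Agent.Lib.MFG.A.Tie
import Pool.Agent.Lib.MFG.A.Nbd
import Pool.Agent.Lib.MFG.A.CovO
import Pool.Agent.Lib.MFG.A.CI
import Pool.Agent.Lib.MFG.A.Opn
import Pool.Agent.Lib.MFG.A.AsmA
import Pool.Agent.Lib.MFG.A.Net
import Pool.Agent.Lib.MP_98850d_an.Cube
import Pool.Agent.Lib.MP_98850d_an.Bmp
import Pool.Agent.Lib.MP_98850d_an.UB

/-! MP_98850d_an, theorem (C), part A: boxes of bounded multiplicity for free actions of a group. -/

set_option autoImplicit false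

namespace Pool.Agent.MFG

universe u

/-- **Part A.** -/
theorem bxGP : S_BxG.{u} := by
  have hHI : S_HI.{u} := tHI
  have hCI : S_CI.{u} := tCI hHI
  have hPk : S_Pk.{u} := tPk hHI hCI
  have hNF : S_NF.{u} :=
    tNF (tLocP tNbd) (tCovD Pool.Agent.MP98850d.tCube tLip tTie) tCovO
  have hTyp : S_Typ.{u} := tTyp tNbd hNF Pool.Agent.MP98850d.tBmp
  have hSel : S_Sel.{u} := tSel tValL tNetV Pool.Agent.MP98850d.tUB tNet
  have hGrd : S_Grd.{u} := tGrd tStE hCI hPk (tLC hHI hCI hPk) tGO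
  exact tAsmA (tOpn hTyp hSel hGrd) tBk

end Pool.Agent.MFG
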