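import Pool.Agent.Lib.MFG.SpecB

/-!
# MP_98850d_an, theorem (C), part B: the clean window
-/

set_option autoImplicit false

open Set Filter Topology

namespace Pool.Agent.MFG

universe u

namespace ClnM

theorem sp_true {G : Type} [Group G] {X : Type u} [MulAction G X] {N : G → ℝ} {φ : ℝ → G}
    {l A : ℝ} {b b' : X → ℝ} {Q : Prop} (h : Sp N φ l A b b' Q) : Sp N φ l A b b' True :=
  fun x v h1 h2 h3 => ⟨(h x v h1 h2 h3).1, trivial⟩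

end ClnM

open ClnM in
theorem clnP (hNbr : S_Nbr.{u}) : S_Cln.{u} := by
  intro G _ _ _ _ N φ l A c R S w δ X _ _ _ K q p r t b val g hc x k Z
  have hnum := hc.num
  have hA := hnum.Apos
  have hc0 := hnum.c0
  -- the range of the times of active pulses
  have hrange : ∀ (k' : Fin K) (i'' : Fin K) (i2 : Fin p) (ζ : ℝ), |-ζ - t k' i'' i2| < w →
      -(A / 8) ≤ ζ ∧ ζ ≤ 0 := by
    intro k' i'' i2 ζ h
    obtain ⟨h1, h2⟩ := hc.trange k' i'' i2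
    obtain ⟨h3, h4⟩ := abs_lt.1 h
    constructor <;> linarith
  have key : ∀ k' : Fin K, ∃ d : ℝ,
      (∃ (i' : Fin K) (i : Fin p) (w₁ : G) (j₁ : Fin q), N w₁ ≤ R ∧
        1 / 2 < hei N φ (7 / 4 * l) A (b k' j₁) (w₁ • φ (t k i' i + Z) • x) ∧ ∃ i'' i2,
        |-(zet N φ (7 / 4 * l) A (b k' j₁) (w₁ • φ (t k i' i + Z) • x)) - t k' i'' i2| < w) →
      ∃ (i' : Fin K) (i : Fin p) (w₁ : G) (j₁ : Fin q), N w₁ ≤ R ∧
        1 / 2 < hei N φ (7 / 4 * l) A (b k' j₁) (w₁ • φ (t k i' i + Z) • x) ∧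
        -(A / 8) ≤ zet N φ (7 / 4 * l) A (b k' j₁) (w₁ • φ (t k i' i + Z) • x) ∧
        zet N φ (7 / 4 * l) A (b k' j₁) (w₁ • φ (t k i' i + Z) • x) ≤ 0 ∧
        d = zet N φ (7 / 4 * l) A (b k' j₁) (w₁ • φ (t k i' i + Z) • x) + t k i' i := by
    intro k'
    by_cases h : ∃ (i' : Fin K) (i : Fin p) (w₁ : G) (j₁ : Fin q), N w₁ ≤ R ∧
        1 / 2 < hei N φ (7 / 4 * l) A (b k' j₁) (w₁ • φ (t k i' i + Z) • x) ∧ ∃ i'' i2,
        |-(zet N φ (7 / 4 * l) A (b k' j₁) (w₁ • φ (t k i' i + Z) • x)) - t k' i'' i2| < w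
    · obtain ⟨i', i, w₁, j₁, h1, h2, i'', i2, h3⟩ := h
      obtain ⟨h4, h5⟩ := hrange k' i'' i2 _ h3
      exact ⟨_, fun _ => ⟨i', i, w₁, j₁, h1, h2, h4, h5, rfl⟩⟩
    · exact ⟨0, fun h' => absurd h' h⟩
  choose d hd using key
  obtain ⟨i', hi'⟩ := hc.tclean k d
  refine ⟨i', ?_⟩
  intro i k' hk' j₂ w₂ hw₂ hhei i'' i2
  by_contra hcon
  rw [not_le] at hcon
  obtain ⟨h4, h5⟩ := hrange k' i'' i2 _ hcon
  obtain ⟨i₁', i₁, w₁, j₁, h1, h2, h6, h7, h8⟩ := hd k' ⟨i', i, w₂, j₂, hw₂, hhei, i'', i2, hcon⟩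
  have hs1 := hc.trange k i' i
  have hs2 := hc.trange k i₁' i₁
  have hw0 : 0 ≤ w := hc0.trans hc.cw.le
  have hb : |(zet N φ (7 / 4 * l) A (b k' j₂) (w₂ • φ (t k i' i + Z) • x) + (t k i' i + Z)) -
      (zet N φ (7 / 4 * l) A (b k' j₁) (w₁ • φ (t k i₁' i₁ + Z) • x) + (t k i₁' i₁ + Z))| ≤ 3 * A := by
    rw [abs_le]
    constructor <;> linarith [hs1.1, hs1.2, hs2.1, hs2.2]
  have hN := (hNbr G N φ l A c R X (b k' j₁) (b k' j₂) (j₁ = j₂) hnum (hc.bcont k' j₁)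
    (hc.b01 k' j₁) (hc.bcont k' j₂) (hc.b01 k' j₂) (sp_true (hc.sep k' j₁ j₁))
    (sp_true (hc.sep k' j₂ j₂)) (hc.sep k' j₁ j₂) x w₁ w₂ (t k i₁' i₁ + Z) (t k i' i + Z)
    h1 hw₂ h2 hhei hb).1
  have hfin := hi' k' hk' i i'' i2
  rw [h8] at hfin
  obtain ⟨h9, h10⟩ := abs_le.1 hN
  obtain ⟨h11, h12⟩ := abs_lt.1 hcon
  have hlt : |t k i' i - t k' i'' i2 -
      (zet N φ (7 / 4 * l) A (b k' j₁) (w₁ • φ (t k i₁' i₁ + Z) • x) + t k i₁' i₁)| < w + 2 * c := by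
    rw [abs_lt]
    constructor <;> linarith
  exact lt_irrefl _ (hfin.trans hlt)

end Pool.Agent.MFG
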