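import Pool.Agent.Lib.MFG.SpecB

/-!
# MP_98850d_an, theorem (C): a composition of slow displacements nearly commutes with the line
-/

set_option autoImplicit false

namespace Pool.Agent.MFG

open Set Filter Topology

universe u

namespace CmpM

variable {G : Type} [Group G] [TopologicalSpace G]

/-- the balls of small radius are small neighbourhoods of `1` -/
theorem small [T2Space G] {N : G → ℝ} (h : Len N) (O : Set G) (hO : O ∈ 𝓝 (1 : G)) :
    ∃ r : ℝ, 0 < r ∧ ∀ e : G, N e ≤ r → e ∈ O := by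
  obtain ⟨V, hVO, hV, h1V⟩ := mem_nhds_iff.1 hO
  have hc : IsCompact ({u : G | N u ≤ 1} \ V) := (h.cpt 1).diff hV
  rcases ({u : G | N u ≤ 1} \ V).eq_empty_or_nonempty with he | hne
  · refine ⟨1, one_pos, fun e hN => ?_⟩
    by_contra hcon
    have h2 : e ∈ ({u : G | N u ≤ 1} \ V) := ⟨hN, fun h3 => hcon (hVO h3)⟩
    rw [he] at h2
    exact h2
  · obtain ⟨u0, hu0, hmin⟩ := hc.exists_isMinOn hne h.cont.continuousOn
    have hpos : 0 < N u0 := by
      rcases lt_or_eq_of_le (h.nonneg u0) with h3 | h3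
      · exact h3
      · exfalso
        have h4 : u0 = 1 := (h.zero u0).1 h3.symm
        apply hu0.2
        rw [h4]
        exact h1V
    refine ⟨min 1 (N u0 / 2), lt_min one_pos (by linarith), fun e hN => ?_⟩
    by_contra hcon
    have h2 : e ∈ ({u : G | N u ≤ 1} \ V) :=
      ⟨hN.trans (min_le_left _ _), fun h3 => hcon (hVO h3)⟩
    have h3 : N u0 ≤ N e := hmin h2
    have h4 : N e ≤ N u0 / 2 := hN.trans (min_le_right _ _)
    linarith

/-- conjugation by bounded elements keeps small elements small -/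
theorem conj [IsTopologicalGroup G] [T2Space G] {N : G → ℝ} (h : Len N) (S ε : ℝ) (hε : 0 < ε) :
    ∃ r : ℝ, 0 < r ∧ ∀ g e : G, N g ≤ S → N e ≤ r → N (g * e * g⁻¹) ≤ ε := by
  have hf : Continuous fun z : G × G => N (z.2 * z.1 * z.2⁻¹) := by
    apply h.cont.comp
    fun_prop
  have hO : ∀ᶠ e : G in 𝓝 (1 : G), ∀ g ∈ {u : G | N u ≤ S}, N (g * e * g⁻¹) < ε := by
    apply (h.cpt S).eventually_forall_of_forall_eventually
    intro g _
    have h1 : Tendsto (fun z : G × G => N (z.2 * z.1 * z.2⁻¹)) (𝓝 ((1 : G), g))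
        (𝓝 (N (g * 1 * g⁻¹))) := hf.tendsto ((1 : G), g)
    have h2 : N (g * 1 * g⁻¹) < ε := by
      rw [mul_one, mul_inv_cancel, h.one]
      exact hε
    exact h1.eventually (Iio_mem_nhds h2)
  obtain ⟨r, hr, hrO⟩ := small h _ hO
  exact ⟨r, hr, fun g e hg he => (hrO e he g hg).le⟩

/-- the composition step -/
theorem step {X : Type u} [MulAction G X] {N : G → ℝ} {φ : ℝ → G} (h : Cen N φ) {S T ε ε' δ : ℝ}
    (hε : 0 < ε) (hε4 : ε' ≤ ε / 4) (hδ : δ * (|T| + 1) ≤ ε / 4) (hδ0 : 0 ≤ δ)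
    (hconj : ∀ g e : G, N g ≤ S → N e ≤ ε' → N (g * e * g⁻¹) ≤ ε / 4)
    (ψ : ℝ → G) (σ : X → ℝ) (hψ : OneP N ψ) (hσ : ∀ x, 0 ≤ σ x ∧ σ x ≤ S)
    (hs : ∀ x (u : G), |σ (u • x) - σ x| ≤ N u / 2) (hl : ∀ x t, |σ (φ t • x) - σ x| ≤ δ * |t|)
    (t : ℝ) (ht : |t| ≤ T) (y : X) (e' : G) (he' : N e' ≤ ε') :
    ∃ e : G, N e ≤ ε ∧ ψ (σ (e' • φ t • y)) • e' • φ t • y = e • φ t • ψ (σ y) • y := by
  have hN := h.len
  obtain ⟨s₁, hs₁⟩ : ∃ s, s = σ (e' • φ t • y) := ⟨_, rfl⟩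
  obtain ⟨s₂, hs₂⟩ : ∃ s, s = σ y := ⟨_, rfl⟩
  rw [← hs₁, ← hs₂]
  refine ⟨ψ s₁ * e' * (ψ s₂)⁻¹, ?_, ?_⟩
  · have h1 : ψ s₁ * e' * (ψ s₂)⁻¹ = ψ (s₁ - s₂) * (ψ s₂ * e' * (ψ s₂)⁻¹) := by
      have h2 : ψ s₁ = ψ (s₁ - s₂) * ψ s₂ := by
        rw [← hψ.add, sub_add_cancel]
      rw [h2]
      group
    have h3 : |s₁ - s₂| ≤ ε' / 2 + ε / 4 := by
      have h4 : s₁ - s₂ = (σ (e' • φ t • y) - σ (φ t • y)) + (σ (φ t • y) - σ y) := by
        rw [hs₁, hs₂]
        ring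
      have h5 := hs (φ t • y) e'
      have h6 := hl y t
      have h7 : δ * |t| ≤ ε / 4 := by
        refine le_trans (mul_le_mul_of_nonneg_left ?_ hδ0) hδ
        have := le_abs_self T
        linarith
      rw [h4]
      have h8 := abs_add_le (σ (e' • φ t • y) - σ (φ t • y)) (σ (φ t • y) - σ y)
      linarith
    have h4 : N (ψ s₂) ≤ S := by
      refine (hψ.speed s₂).trans ?_
      rw [hs₂, abs_of_nonneg (hσ y).1]
      exact (hσ y).2
    have h5 := hconj (ψ s₂) e' h4 he'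
    have h6 := hN.mul (ψ (s₁ - s₂)) (ψ s₂ * e' * (ψ s₂)⁻¹)
    have h7 := hψ.speed (s₁ - s₂)
    rw [h1]
    linarith
  · rw [← mul_smul, ← mul_smul, ← mul_smul, ← mul_smul]
    congr 1
    have h1 := h.cen t (ψ s₂)
    have h2 : (ψ s₂)⁻¹ * (φ t * ψ s₂) = φ t := by
      rw [h1, inv_mul_cancel_left]
    calc ψ s₁ * e' * φ t = ψ s₁ * e' * ((ψ s₂)⁻¹ * (φ t * ψ s₂)) := by rw [h2]
      _ = ψ s₁ * e' * (ψ s₂)⁻¹ * φ t * ψ s₂ := by group

end CmpM

theorem cmpP : S_Cmp.{u} := by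
  intro G _ _ _ _ N φ h S T ε n
  induction n generalizing ε with
  | zero =>
    intro hε
    refine ⟨1, one_pos, fun X _ L hL _ x t _ => ⟨1, ?_, ?_⟩⟩
    · rw [h.len.one]
      exact hε.le
    · have hL0 : L = [] := List.eq_nil_of_length_eq_zero (Nat.le_zero.1 hL)
      subst hL0
      simp [cmp]
  | succ n ih =>
    intro hε
    obtain ⟨r, hr, hconj⟩ := CmpM.conj h.len S (ε / 4) (by linarith)
    obtain ⟨δ', hδ', hI⟩ := ih (min r (ε / 4)) (lt_min hr (by linarith))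
    have hT : 0 < |T| + 1 := by positivity
    have hq : 0 < ε / (4 * (|T| + 1)) := by positivity
    refine ⟨min δ' (ε / (4 * (|T| + 1))), lt_min hδ' hq, fun X _ L hL hp x t ht => ?_⟩
    cases L with
    | nil =>
      refine ⟨1, ?_, ?_⟩
      · rw [h.len.one]
        exact hε.le
      · simp [cmp]
    | cons p L =>
      have hL' : L.length ≤ n := by
        simpa using hL
      obtain ⟨e', he', hee⟩ := hI X L hL' (fun p' hp' => by
        obtain ⟨h1, h2, h3, h4⟩ := hp p' (List.mem_cons_of_mem _ hp')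
        exact ⟨h1, h2, h3, fun x t => (h4 x t).trans
          (mul_le_mul_of_nonneg_right (min_le_left _ _) (abs_nonneg t))⟩) x t ht
      obtain ⟨h1, h2, h3, h4⟩ := hp p List.mem_cons_self
      have hδ : min δ' (ε / (4 * (|T| + 1))) * (|T| + 1) ≤ ε / 4 := by
        refine (mul_le_mul_of_nonneg_right (min_le_right _ _) hT.le).trans (le_of_eq ?_)
        field_simp
      obtain ⟨e, he, hst⟩ := CmpM.step h hε (min_le_right r (ε / 4)) hδ (lt_min hδ' hq).le
        (fun g e hg he => hconj g e hg (he.trans (min_le_left _ _))) p.1 p.2 h1 h2 h3 h4 t ht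
        (cmp L x) e' he'
      refine ⟨e, he, ?_⟩
      simp only [cmp]
      rw [hee]
      exact hst

end Pool.Agent.MFG
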