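import Pool.Agent.Lib.MFG.SpecB

/-! # MP_98850d_an, theorem (C), part B: the displacement function of one colour -/

set_option autoImplicit false

namespace Pool.Agent.MFG

open Set Filter Topology

universe u

namespace ColM

theorem step {f : ℝ → ℝ} {A δ : ℝ} (hA : 0 < A)
    (h : ∀ s t, |t| ≤ A → |f (s + t) - f s| ≤ δ * |t|) (n : ℕ) :
    ∀ t, |t| ≤ n * A → |f t - f 0| ≤ δ * |t| := by
  induction n with
  | zero =>
    intro t ht
    have h1 : |t| ≤ 0 := by simpa using ht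
    have ht0 : t = 0 := abs_nonpos_iff.mp h1
    subst ht0
    simp
  | succ n ih =>
    intro t ht
    have hn : (0 : ℝ) < n + 1 := by positivity
    push_cast at ht
    have a1 : |t * (n / (n + 1))| = |t| * (n / (n + 1)) := by
      rw [abs_mul, abs_of_nonneg (by positivity : (0 : ℝ) ≤ n / (n + 1))]
    have a2 : |t * (1 / (n + 1))| = |t| * (1 / (n + 1)) := by
      rw [abs_mul, abs_of_nonneg (by positivity : (0 : ℝ) ≤ 1 / (n + 1))]
    have e : t * (n / (n + 1)) + t * (1 / (n + 1)) = t := by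
      field_simp
    have b1 : |t * (n / (n + 1))| ≤ n * A := by
      rw [a1]
      calc |t| * (n / (n + 1)) ≤ ((n + 1) * A) * (n / (n + 1)) :=
            mul_le_mul_of_nonneg_right ht (by positivity)
        _ = n * A := by field_simp
    have b2 : |t * (1 / (n + 1))| ≤ A := by
      rw [a2]
      calc |t| * (1 / (n + 1)) ≤ ((n + 1) * A) * (1 / (n + 1)) :=
            mul_le_mul_of_nonneg_right ht (by positivity)
        _ = A := by field_simp
    have c1 := ih _ b1
    have c2 := h (t * (n / (n + 1))) _ b2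
    rw [e] at c2
    have e3 : |t * (n / (n + 1))| + |t * (1 / (n + 1))| = |t| := by
      rw [a1, a2]
      field_simp
    calc |f t - f 0| ≤ |f t - f (t * (n / (n + 1)))| + |f (t * (n / (n + 1))) - f 0| :=
          abs_sub_le _ _ _
      _ ≤ δ * |t * (1 / (n + 1))| + δ * |t * (n / (n + 1))| := add_le_add c2 c1
      _ = δ * |t| := by rw [← mul_add, add_comm |t * (1 / (n + 1))|, e3]

/-- functions on the orbits of a line, at most one of which is not zero nearby -/
theorem slope {G : Type} {X : Type u} [Group G] [MulAction G X] {φ : ℝ → G} {q : ℕ} {A δ : ℝ}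
    {p : Fin q → X → ℝ} {P : Fin q → X → Prop} (hA : 0 < A) (hφ0 : φ 0 = 1)
    (hadd : ∀ s t, φ (s + t) = φ s * φ t) (hδ : 0 ≤ δ)
    (hs : ∀ j x t, |p j (φ t • x) - p j x| ≤ δ * |t|) (hP : ∀ j x, p j x ≠ 0 → P j x)
    (hu : ∀ j j' x t, |t| ≤ A → P j x → P j' (φ t • x) → j = j') :
    (∀ x j, P j x → ∑ j', p j' x = p j x) ∧
    ∀ x t, |(∑ j, p j (φ t • x)) - ∑ j, p j x| ≤ δ * |t| := by
  have h1 : ∀ x j, P j x → ∀ t, |t| ≤ A → ∑ j', p j' (φ t • x) = p j (φ t • x) := by
    intro x j hj t ht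
    refine Finset.sum_eq_single j (fun j' _ hj' => ?_) (fun h => absurd (Finset.mem_univ j) h)
    by_contra h
    exact hj' (hu j j' x t ht hj (hP j' _ h)).symm
  have h2 : ∀ x j, P j x → ∑ j', p j' x = p j x := by
    intro x j hj
    have h3 := h1 x j hj 0 (by rw [abs_zero]; exact hA.le)
    rwa [hφ0, one_smul] at h3
  have h4 : ∀ x t, |t| ≤ A → |(∑ j, p j (φ t • x)) - ∑ j, p j x| ≤ δ * |t| := by
    intro x t ht
    by_cases hx : ∃ j, P j x
    · obtain ⟨j, hj⟩ := hx
      rw [h1 x j hj t ht, h2 x j hj]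
      exact hs j x t
    · push Not at hx
      have h5 : ∀ j, p j x = 0 := by
        intro j
        by_contra h
        exact hx j (hP j x h)
      by_cases hy : ∃ j, P j (φ t • x)
      · obtain ⟨j, hj⟩ := hy
        rw [h2 _ j hj, Finset.sum_eq_zero (fun j _ => h5 j), ← h5 j]
        exact hs j x t
      · push Not at hy
        have h6 : ∀ j, p j (φ t • x) = 0 := by
          intro j
          by_contra h
          exact hy j (hP j _ h)
        rw [Finset.sum_eq_zero (fun j _ => h6 j), Finset.sum_eq_zero (fun j _ => h5 j)]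
        simp only [sub_zero, abs_zero]
        positivity
  refine ⟨h2, fun x t => ?_⟩
  obtain ⟨n, hn⟩ := exists_nat_ge (|t| / A)
  have h7 := step (f := fun s => ∑ j, p j (φ s • x)) hA (fun s t ht => by
    have h8 := h4 (φ s • x) t ht
    rw [← mul_smul, ← hadd, add_comm t s] at h8
    exact h8) n t (by rwa [div_le_iff₀ hA] at hn)
  simp only [hφ0, one_smul] at h7
  exact h7

end ColM

open ColM

theorem colP (hNbr : S_Nbr.{u}) (hPrg : S_Prg.{u}) : S_Col.{u} := by
  intro G _ _ _ _ N φ l A c R S w δ X _ _ _ K q p r t b val g hC k a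
  have hL := hC.num.cen.len
  have hA := hC.num.Apos
  have hφ0 : φ 0 = 1 := by
    have h1 := hC.num.cen.add 0 0
    rw [add_zero] at h1
    exact left_eq_mul.mp h1
  have hsp : ∀ j, Sp N φ l A (b k j) (b k j) True := fun j x u h1 h2 h3 =>
    ⟨(hC.sep k j j x u h1 h2 h3).1, trivial⟩
  have hg2 : ∀ j τ, g k j a τ ≠ 0 → 0 ≤ τ ∧ τ ≤ A / 2 := by
    intro j τ h
    obtain ⟨i', i, hi⟩ := hC.gsup k j a τ h
    obtain ⟨h1, h2⟩ := hC.trange k i' i
    rw [abs_lt] at hi
    constructor <;> linarith [hi.1, hi.2]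
  have hp := fun j => hPrg G N φ l A c R X (b k j) (g k j a) S δ hC.num (hC.bcont k j)
    (hC.b01 k j) (hsp j) hC.d0 (hC.g01 k j a) (hC.glip k j a) (hg2 j)
  have hP : ∀ j x, prg N φ (7 / 4 * l) A (b k j) (g k j a) x ≠ 0 →
      1 / 2 < hei N φ (7 / 4 * l) A (b k j) x ∧ |zet N φ (7 / 4 * l) A (b k j) x| ≤ A / 2 := by
    intro j x h
    obtain ⟨h1, h2⟩ := (hp j).2.2.2 x h
    obtain ⟨h3, h4⟩ := hg2 j _ h2
    exact ⟨h1, abs_le.2 ⟨by linarith, by linarith⟩⟩
  have huq : ∀ j j' x s, |s| ≤ A →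
      (1 / 2 < hei N φ (7 / 4 * l) A (b k j) x ∧ |zet N φ (7 / 4 * l) A (b k j) x| ≤ A / 2) →
      (1 / 2 < hei N φ (7 / 4 * l) A (b k j') (φ s • x) ∧
        |zet N φ (7 / 4 * l) A (b k j') (φ s • x)| ≤ A / 2) → j = j' := by
    intro j j' x s hs h1 h2
    have h0 : N 1 ≤ R := by rw [hL.one]; exact hC.num.R0
    refine (hNbr G N φ l A c R X (b k j) (b k j') (j = j') hC.num (hC.bcont k j)
      (hC.b01 k j) (hC.bcont k j') (hC.b01 k j') (hsp j) (hsp j') (hC.sep k j j') x 1 1 0 s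
      h0 h0 ?_ ?_ ?_).2
    · rw [one_smul, hφ0, one_smul]
      exact h1.1
    · rw [one_smul]
      exact h2.1
    · simp only [one_smul, hφ0, add_zero]
      have a1 := abs_le.1 h1.2
      have a2 := abs_le.1 h2.2
      have a3 := abs_le.1 hs
      rw [abs_le]
      constructor <;> linarith [a1.1, a1.2, a2.1, a2.2, a3.1, a3.2]
  obtain ⟨h1, h2⟩ := slope (φ := φ) (p := fun j x => prg N φ (7 / 4 * l) A (b k j) (g k j a) x)
    (P := fun j x => 1 / 2 < hei N φ (7 / 4 * l) A (b k j) x ∧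
      |zet N φ (7 / 4 * l) A (b k j) x| ≤ A / 2) hA hφ0 hC.num.cen.add hC.d0
    (fun j x t => (hp j).2.2.1 x t) hP huq
  refine ⟨?_, ?_, fun x s => h2 x s, ?_, ?_⟩
  · exact continuous_finsetSum _ (fun j _ => (hp j).1)
  · intro x
    refine ⟨Finset.sum_nonneg fun j _ => ((hp j).2.1 x).1, ?_⟩
    by_cases hx : ∃ j, prg N φ (7 / 4 * l) A (b k j) (g k j a) x ≠ 0
    · obtain ⟨j, hj⟩ := hx
      have h3 := h1 x j (hP j x hj)
      unfold sig
      exact h3.le.trans ((hp j).2.1 x).2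
    · push Not at hx
      unfold sig
      rw [Finset.sum_eq_zero (fun j _ => hx j)]
      exact hC.S0
  · intro x hx
    unfold sig at hx
    obtain ⟨j, -, hj⟩ := Finset.exists_ne_zero_of_sum_ne_zero hx
    obtain ⟨h3, h4⟩ := (hp j).2.2.2 x hj
    obtain ⟨i', i, hi⟩ := hC.gsup k j a _ h4
    exact ⟨j, i', i, h3, hi⟩
  · intro x j h3 h4
    exact h1 x j ⟨h3, h4⟩

end Pool.Agent.MFG
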