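import Pool.Agent.Lib.MFG.SpecB

/-!
# MP_98850d_an, theorem (C), part B, module Cor: near a cluster point of value one
-/

set_option autoImplicit false

open Set Filter Topology

namespace Pool.Agent.MFG

universe u

namespace CorM

theorem phi_zero {G : Type} [Group G] [TopologicalSpace G] {N : G → ℝ} {φ : ℝ → G} (h : Cen N φ) : φ 0 = 1 := by
  have h1 := h.add 0 0
  rw [add_zero] at h1
  exact (mul_eq_left.1 h1.symm)

end CorM

theorem corP (hDA : S_DA) (hBt : S_Bt.{u}) (hUq : S_Uq.{u}) : S_Cor.{u} := by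
  intro G _ _ _ _ N φ l A c R X _ _ _ b hNum hbc hb hSp x u₀ hu₀ hbu₀
  have hcen := hNum.cen
  have hl := hNum.lpos
  have hA := hNum.Apos
  obtain ⟨s₀, u₁, hu, hs⟩ := (hDA G N φ l A hcen hl hA).2.2.2 u₀
  rw [← hs] at hu₀
  have h1 : 0 ≤ N u₁ / l := div_nonneg (hcen.len.nonneg u₁) hl.le
  have h2 : 0 ≤ |s₀| / A := div_nonneg (abs_nonneg s₀) hA.le
  have hN1 : N u₁ ≤ 13 / 8 * l := by
    have h3 : N u₁ / l ≤ 13 / 8 := by linarith
    rwa [div_le_iff₀ hl] at h3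
  have hs0 : |s₀| ≤ 13 / 8 * A := by
    have h3 : |s₀| / A ≤ 13 / 8 := by linarith
    rwa [div_le_iff₀ hA] at h3
  refine ⟨s₀, u₁, hu, hN1, hs0, ?_⟩
  intro w hw
  obtain ⟨-, -, -, hb1, hh1, hbet, -, hheile, -, -, -, hlast⟩ :=
    hBt G N φ (7 / 4 * l) A X b hcen (by linarith) hA hbc hb
  have e1 : (u₁ * w⁻¹) • φ s₀ • w • x = u₀ • x := by
    rw [smul_smul, smul_smul, hu]
    congr 1
    have e2 := hcen.cen s₀ w
    have e3 := hcen.cen s₀ u₁
    calc u₁ * w⁻¹ * φ s₀ * w = u₁ * w⁻¹ * (w * φ s₀) := by rw [mul_assoc, e2]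
      _ = u₁ * φ s₀ := by group
      _ = φ s₀ * u₁ := e3.symm
  have hNw : N (u₁ * w⁻¹) ≤ 7 / 4 * l := by
    have h3 := hcen.len.mul u₁ w⁻¹
    rw [hcen.len.inv] at h3
    have h4 := hNum.Rl
    linarith
  have hge : 1 ≤ bet N (7 / 4 * l) b (φ s₀ • w • x) := by
    have h3 := hbet (φ s₀ • w • x) (u₁ * w⁻¹) hNw
    rw [e1, hbu₀] at h3
    exact h3
  have hhei : hei N φ (7 / 4 * l) A b (w • x) = 1 := by
    have h3 := hheile (w • x) s₀ (by linarith)
    have h4 := (hh1 (w • x)).2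
    linarith
  refine ⟨hhei, ?_⟩
  obtain ⟨t₀, t₁, ht0, ht1, hz0, hz1, hp0, hp1⟩ := hlast (w • x) (by rw [hhei]; norm_num)
  have key : ∀ t, |t| ≤ 2 * A → 0 < bet N (7 / 4 * l) b (φ t • w • x) → |t - s₀| ≤ c := by
    intro t ht hp
    have h3 := (hUq G N φ l A c R X b b True hNum hbc hb hbc hb hSp x w w 0 0 s₀ t hw hw
      (by
        rw [CorM.phi_zero hcen, one_smul]
        linarith)
      (by
        rw [CorM.phi_zero hcen, one_smul]
        exact hp)
      (by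
        rw [add_zero, add_zero]
        have h5 := abs_sub t s₀
        linarith)).1
    rwa [add_zero, add_zero] at h3
  have k0 := abs_le.1 (key t₀ ht0 hp0)
  have k1 := abs_le.1 (key t₁ ht1 hp1)
  rw [abs_le]
  constructor
  · linarith [k0.1]
  · linarith [k1.2]

end Pool.Agent.MFG
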