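import Pool.Agent.Lib.MFG.SpecB

set_option autoImplicit false

open Set Filter Topology

namespace Pool.Agent.MFG

universe u

namespace DAM

section

variable {G : Type} [Group G] [TopologicalSpace G] {N : G → ℝ} {φ : ℝ → G} {l A : ℝ}

theorem phi0 (h : Cen N φ) : φ 0 = 1 := by
  have h1 := h.add 0 0
  rw [add_zero] at h1
  exact (mul_eq_left.1 h1.symm)

theorem phi_neg (h : Cen N φ) (t : ℝ) : φ (-t) = (φ t)⁻¹ := by
  have h1 := h.add (-t) t
  rw [neg_add_cancel, phi0 h] at h1
  exact eq_inv_of_mul_eq_one_left h1.symm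

theorem fnonneg (h : Cen N φ) (hl : 0 < l) (hA : 0 < A) (u : G) (t : ℝ) :
    0 ≤ N (φ t * u) / l + |t| / A :=
  add_nonneg (div_nonneg (h.len.nonneg _) hl.le) (div_nonneg (abs_nonneg _) hA.le)

theorem bdd (h : Cen N φ) (hl : 0 < l) (hA : 0 < A) (u : G) :
    BddBelow (range fun t : ℝ => N (φ t * u) / l + |t| / A) := by
  refine ⟨0, ?_⟩
  rintro _ ⟨t, rfl⟩
  exact fnonneg h hl hA u t

theorem da_le (h : Cen N φ) (hl : 0 < l) (hA : 0 < A) (u : G) (t : ℝ) :
    DA N φ l A u ≤ N (φ t * u) / l + |t| / A :=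
  ciInf_le (bdd h hl hA u) t

theorem da_nonneg (h : Cen N φ) (hl : 0 < l) (hA : 0 < A) (u : G) : 0 ≤ DA N φ l A u :=
  le_ciInf fun t => fnonneg h hl hA u t

theorem da_att [IsTopologicalGroup G] (h : Cen N φ) (hl : 0 < l) (hA : 0 < A) (u : G) :
    ∃ t : ℝ, DA N φ l A u = N (φ t * u) / l + |t| / A := by
  have hc : Continuous fun t : ℝ => N (φ t * u) / l + |t| / A := by
    have h1 : Continuous fun t : ℝ => N (φ t * u) :=
      h.len.cont.comp (h.cont.mul continuous_const)
    exact (h1.div_const l).add (continuous_abs.div_const A)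
  have ht : Tendsto (fun t : ℝ => N (φ t * u) / l + |t| / A) (cocompact ℝ) atTop := by
    have h1 : Tendsto (fun t : ℝ => |t| / A) (cocompact ℝ) atTop := by
      have h2 : Tendsto (fun t : ℝ => ‖t‖) (cocompact ℝ) atTop := tendsto_norm_cocompact_atTop
      exact h2.atTop_div_const hA
    refine tendsto_atTop_mono (fun t => ?_) h1
    have := div_nonneg (h.len.nonneg (φ t * u)) hl.le
    linarith
  obtain ⟨t, ht0⟩ := hc.exists_forall_le ht
  exact ⟨t, le_antisymm (da_le h hl hA u t) (le_ciInf ht0)⟩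

theorem da_lip [IsTopologicalGroup G] (h : Cen N φ) (hl : 0 < l) (hA : 0 < A) (u v : G) :
    DA N φ l A u ≤ N (u * v⁻¹) / l + DA N φ l A v := by
  obtain ⟨t, ht⟩ := da_att h hl hA v
  have h1 := da_le h hl hA u t
  have h2 := h.len.le_add (φ t * u) (φ t * v)
  have h3 : φ t * u * (φ t * v)⁻¹ = u * v⁻¹ := by
    rw [mul_inv_rev, ← mul_assoc, mul_assoc (φ t) u v⁻¹, h.cen t (u * v⁻¹), mul_inv_cancel_right]
  rw [h3] at h2
  have h4 : N (φ t * u) / l ≤ (N (u * v⁻¹) + N (φ t * v)) / l :=
    div_le_div_of_nonneg_right h2 hl.le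
  rw [add_div] at h4
  linarith

theorem da_cont [IsTopologicalGroup G] (h : Cen N φ) (hl : 0 < l) (hA : 0 < A) :
    Continuous (DA N φ l A) := by
  rw [continuous_iff_continuousAt]
  intro v
  rw [ContinuousAt, tendsto_iff_dist_tendsto_zero]
  have h1 : Tendsto (fun u : G => N (u * v⁻¹) / l) (𝓝 v) (𝓝 0) := by
    have h2 : Continuous fun u : G => N (u * v⁻¹) / l :=
      (h.len.cont.comp (continuous_id.mul continuous_const)).div_const l
    have h3 := h2.tendsto v
    simp only [mul_inv_cancel, h.len.one, zero_div] at h3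
    exact h3
  refine squeeze_zero (fun _ => dist_nonneg) (fun u => ?_) h1
  rw [Real.dist_eq, abs_le]
  have h4 := da_lip h hl hA u v
  have h5 := da_lip h hl hA v u
  rw [h.len.symm v u] at h5
  constructor <;> linarith

theorem da_inv_le [IsTopologicalGroup G] (h : Cen N φ) (hl : 0 < l) (hA : 0 < A) (u : G) :
    DA N φ l A u⁻¹ ≤ DA N φ l A u := by
  obtain ⟨t, ht⟩ := da_att h hl hA u
  have h1 := da_le h hl hA u⁻¹ (-t)
  have h2 : φ (-t) * u⁻¹ = (φ t * u)⁻¹ := by
    rw [phi_neg h, h.cen t u, mul_inv_rev]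
  rw [h2, h.len.inv, abs_neg] at h1
  rw [ht]
  exact h1

end

end DAM

open DAM

theorem dAP : S_DA := by
  intro G _ _ _ _ N φ l A h hl hA
  have hlast : ∀ u, ∃ (t : ℝ) (v : G), u = φ t * v ∧ N v / l + |t| / A = DA N φ l A u := by
    intro u
    obtain ⟨t, ht⟩ := da_att h hl hA u
    refine ⟨-t, φ t * u, ?_, ?_⟩
    · rw [phi_neg h, inv_mul_cancel_left]
    · rw [abs_neg, ht]
  have hle : ∀ u, DA N φ l A u ≤ N u / l := by
    intro u
    have h1 := da_le h hl hA u 0
    rwa [phi0 h, one_mul, abs_zero, zero_div, add_zero] at h1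
  refine ⟨⟨da_cont h hl hA, ?_, ?_, ?_, ?_⟩, hle, ?_, hlast⟩
  · intro u
    constructor
    · intro hu
      obtain ⟨t, ht⟩ := da_att h hl hA u
      rw [hu] at ht
      have h1 := div_nonneg (h.len.nonneg (φ t * u)) hl.le
      have h2 := div_nonneg (abs_nonneg t) hA.le
      have h3 : |t| / A = 0 := by linarith
      have h4 : N (φ t * u) / l = 0 := by linarith
      have h5 : t = 0 := by
        rcases div_eq_zero_iff.1 h3 with h6 | h6
        · exact abs_eq_zero.1 h6
        · exact absurd h6 hA.ne'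
      rcases div_eq_zero_iff.1 h4 with h6 | h6
      · rw [h5, phi0 h, one_mul] at h6
        exact (h.len.zero u).1 h6
      · exact absurd h6 hl.ne'
    · rintro rfl
      have h1 := hle 1
      rw [h.len.one, zero_div] at h1
      exact le_antisymm h1 (da_nonneg h hl hA 1)
  · intro u
    refine le_antisymm (da_inv_le h hl hA u) ?_
    have h1 := da_inv_le h hl hA u⁻¹
    rwa [inv_inv] at h1
  · intro u v
    obtain ⟨t, ht⟩ := da_att h hl hA u
    obtain ⟨s, hs⟩ := da_att h hl hA v
    have h1 := da_le h hl hA (u * v) (t + s)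
    have h2 : φ (t + s) * (u * v) = (φ t * u) * (φ s * v) := by
      rw [h.add, mul_assoc, mul_assoc, ← mul_assoc (φ s) u v, h.cen s u, mul_assoc]
    rw [h2] at h1
    have h3 : N (φ t * u * (φ s * v)) / l ≤ (N (φ t * u) + N (φ s * v)) / l :=
      div_le_div_of_nonneg_right (h.len.mul _ _) hl.le
    have h4 : |t + s| / A ≤ (|t| + |s|) / A :=
      div_le_div_of_nonneg_right (abs_add_le t s) hA.le
    rw [add_div] at h3 h4
    linarith
  · intro c
    have hK : IsCompact ((fun p : ℝ × G => φ p.1 * p.2) ''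
        (Icc (-(c * A)) (c * A) ×ˢ {v | N v ≤ c * l})) := by
      refine IsCompact.image (isCompact_Icc.prod (h.len.cpt (c * l))) ?_
      exact (h.cont.comp continuous_fst).mul continuous_snd
    refine hK.of_isClosed_subset (isClosed_le (da_cont h hl hA) continuous_const) ?_
    intro u hu
    obtain ⟨t, v, huv, htv⟩ := hlast u
    have hu' : DA N φ l A u ≤ c := hu
    have h1 := div_nonneg (h.len.nonneg v) hl.le
    have h2 := div_nonneg (abs_nonneg t) hA.le
    have h3 : N v / l ≤ c := by linarith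
    have h4 : |t| / A ≤ c := by linarith
    rw [div_le_iff₀ hl] at h3
    rw [div_le_iff₀ hA] at h4
    refine ⟨(t, v), ⟨?_, h3⟩, huv.symm⟩
    exact abs_le.1 h4
  · intro t
    have h1 := da_le h hl hA (φ t) (-t)
    rwa [phi_neg h, inv_mul_cancel, h.len.one, zero_div, zero_add, abs_neg] at h1

end Pool.Agent.MFG
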