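import Mathlib

/-!
# MP_98850d_an, theorem (C): free minimal actions of groups with a central line; definitions

`G` is a topological group with a proper length function `N`, acting continuously (`u • x`) on the compact metric space `X`.
-/

set_option autoImplicit false

namespace Pool.Agent.MFG

open Set Filter Topology

universe u

/-- the space `ℝ^m` with the sup norm -/
abbrev E (m : ℕ) : Type := Fin m → ℝ

section group

variable {G : Type} [Group G] [TopologicalSpace G]

/-- a continuous proper length function on the group `G` -/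
structure Len (D : G → ℝ) : Prop where
  cont : Continuous D
  zero : ∀ u, D u = 0 ↔ u = 1
  inv : ∀ u, D u⁻¹ = D u
  mul : ∀ u v, D (u * v) ≤ D u + D v
  cpt : ∀ c : ℝ, IsCompact {u | D u ≤ c}

/-- covering numbers: the ball of radius `M` is covered by at most `(C / ε) ^ n` sets of size `ε` -/
def Pol (N : G → ℝ) (n : ℕ) : Prop := ∀ M : ℝ, ∃ C : ℝ, 0 < C ∧ ∀ ε : ℝ, 0 < ε → ε ≤ 1 →
  ∃ (κ : Type) (_ : Fintype κ) (B : κ → Set G), (Fintype.card κ : ℝ) ≤ (C / ε) ^ n ∧
    {u | N u ≤ M} ⊆ ⋃ i, B i ∧ ∀ i, ∀ g ∈ B i, ∀ g' ∈ B i, N (g * g'⁻¹) ≤ ε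

/-- packing number: at most `P` points of the ball of radius `9` have pairwise distances more than `1` -/
def Pck (D : G → ℝ) (P : ℕ) : Prop := ∀ Z : Finset G, (∀ z ∈ Z, D z ≤ 9) →
  (∀ z ∈ Z, ∀ z' ∈ Z, z ≠ z' → 1 < D (z' * z⁻¹)) → Z.card ≤ P

theorem Len.one {D : G → ℝ} (h : Len D) : D 1 = 0 := (h.zero 1).2 rfl

theorem Len.nonneg {D : G → ℝ} (h : Len D) (u : G) : 0 ≤ D u := by
  have h1 := h.mul u u⁻¹
  rw [mul_inv_cancel, h.one, h.inv] at h1
  linarith

theorem Len.symm {D : G → ℝ} (h : Len D) (u v : G) : D (u * v⁻¹) = D (v * u⁻¹) := by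
  rw [← h.inv (u * v⁻¹), mul_inv_rev, inv_inv]

/-- triangle inequality for the right invariant distance `D (u * v⁻¹)` -/
theorem Len.tri {D : G → ℝ} (h : Len D) (u v w : G) : D (u * w⁻¹) ≤ D (u * v⁻¹) + D (v * w⁻¹) := by
  have h1 := h.mul (u * v⁻¹) (v * w⁻¹)
  have h2 : u * v⁻¹ * (v * w⁻¹) = u * w⁻¹ := by group
  rwa [h2] at h1

theorem Len.le_add {D : G → ℝ} (h : Len D) (u v : G) : D u ≤ D (u * v⁻¹) + D v := by
  have h1 := h.mul (u * v⁻¹) v
  rwa [inv_mul_cancel_right] at h1

end group

/-- a free action -/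
def FreeG (G : Type) (X : Type u) [Group G] [MulAction G X] : Prop :=
  ∀ (u : G) (x : X), u • x = x → u = 1

/-- a minimal action: every orbit is dense -/
def MinG (G : Type) (X : Type u) [Group G] [TopologicalSpace X] [MulAction G X] : Prop :=
  ∀ x : X, Dense (range fun u : G => u • x)

/-- the action has local sections: near every point there is a continuous map `p` to `G` with `p (u x) = p x u⁻¹` -/
def LSec (G : Type) (X : Type u) [Group G] [TopologicalSpace G] [TopologicalSpace X] [MulAction G X] : Prop :=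
  ∀ x0 : X, ∃ V ∈ 𝓝 x0, ∃ O ∈ 𝓝 (1 : G), ∃ p : X → G, ContinuousOn p V ∧
    ∀ x ∈ V, ∀ u ∈ O, u • x ∈ V → p (u • x) = p x * u⁻¹

/-- `b k j` (colour `k`, type `j`) is a system of clusters for the length function `D`: points of one colour at distance at
most `8` along an orbit have the same type and distance less than `1/8`; every point has a point of value `1` within `13/8` -/
structure Clu {G : Type} {X : Type u} [Group G] [TopologicalSpace X] [MulAction G X] (D : G → ℝ) (O : X → Set X) (K q : ℕ)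
    (z : Fin q → X) (b : Fin K → Fin q → X → ℝ) : Prop where
  cont : ∀ k j, Continuous (b k j)
  nonneg : ∀ k j x, 0 ≤ b k j x
  le_one : ∀ k j x, b k j x ≤ 1
  small : ∀ k j x, 0 < b k j x → x ∈ O (z j)
  sep : ∀ k j j' x (u : G), 0 < b k j x → 0 < b k j' (u • x) → D u ≤ 8 → j = j' ∧ D u < 1 / 8
  cover : ∀ x, ∃ k j, ∃ u : G, D u ≤ 13 / 8 ∧ b k j (u • x) = 1

/-- **BxG**, the result of part A: boxes of bounded multiplicity for free actions of `G`. -/
def S_BxG : Prop :=
  ∀ (G : Type) [Group G] [TopologicalSpace G] [IsTopologicalGroup G] [T2Space G] (N : G → ℝ) (n m P : ℕ),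
    Len N → Pol N n → ∀ (D : G → ℝ), Len D → Pck D P →
    ∀ (X : Type u) [MetricSpace X] [CompactSpace X] [MulAction G X] [ContinuousSMul G X] (ι : X → E m)
      (O : X → Set X), FreeG G X → LSec G X → Continuous ι → Function.Injective ι → (∀ z, O z ∈ 𝓝 z) →
      ∃ (q : ℕ) (z : Fin q → X) (b : Fin ((n + m + 1) * (P + 1)) → Fin q → X → ℝ),
        Clu D O ((n + m + 1) * (P + 1)) q z b

end Pool.Agent.MFG
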