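import Pool.Agent.Lib.MFG.Defs
import Pool.Agent.Lib.MP_98850d_an.SpecA

/-!
# MP_98850d_an, theorem (C), part A: definitions and basic lemmas for the boxes

The group version of `MP_98850d_an/Defs.lean`.  The point `u • x` has the position `u` in the orbit of `x`; the distance of the positions
`u` and `v` is `D (v * u⁻¹)` (invariant under multiplication from the right).
-/

set_option autoImplicit false
set_option linter.unusedSectionVars false

namespace Pool.Agent.MFG

open Set Filter Topology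

universe u

section defs

variable {G : Type} {X : Type u} [Group G] [MulAction G X]

/-- points of `V` at distance at most `w` along an orbit are at distance less than `r` along the orbit -/
def Cls (D : G → ℝ) (r w : ℝ) (V : Set X) : Prop :=
  ∀ (x : X) (u : G), x ∈ V → u • x ∈ V → D u ≤ w → D u < r

/-- all `b j` are continuous with values in `[0, 1]`, and `{b j > 0}` has property `Cls` with window `20` -/
def Bas [TopologicalSpace X] {q : ℕ} (D : G → ℝ) (r : ℝ) (b : Fin q → X → ℝ) : Prop :=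
  (∀ j, Continuous (b j)) ∧ (∀ j x, 0 ≤ b j x ∧ b j x ≤ 1) ∧ ∀ j, Cls D r 20 {x | 0 < b j x}

/-- a finite cover of `S` by sets `B i` such that all functions `b j (u • ·)`, `D u ≤ Q`, oscillate by at most
`ε i` on `B i`, with `∑ ε i ^ N < η` -/
def Cov {q : ℕ} (D : G → ℝ) (Q : ℝ) (b : Fin q → X → ℝ) (S : Set X) (N : ℕ) (η : ℝ) : Prop :=
  ∃ (κ : Type) (_ : Fintype κ) (B : κ → Set X) (ε : κ → ℝ), (∀ i, 0 < ε i) ∧ S ⊆ ⋃ i, B i ∧
    ∑ i, ε i ^ N < η ∧
    ∀ i, ∀ x ∈ B i, ∀ x' ∈ B i, ∀ j, ∀ u : G, D u ≤ Q → |b j (u • x) - b j (u • x')| ≤ ε i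

/-- the height near `y`: the supremum of `b` over the ball of radius `r` in the orbit -/
noncomputable def hgt (D : G → ℝ) (r : ℝ) (b : X → ℝ) (y : X) : ℝ :=
  sSup ((fun u : G => b (u • y)) '' {u | D u ≤ r})

/-- a cut-off: `1` or more for `D v ≤ W`, `0` for `W + 1/4 ≤ D v` -/
noncomputable def kap (D : G → ℝ) (W : ℝ) (v : G) : ℝ := max 0 (1 + 4 * (W - D v))

/-- the interaction of `b` near `y` and `b'` near `w • y` -/
noncomputable def om (D : G → ℝ) (r W : ℝ) (b b' : X → ℝ) (y : X) (w : G) : ℝ :=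
  sSup ((fun p : G × G => min (b (p.1 • y)) (min (b' ((p.2 * w) • y)) (kap D W (p.2 * w * p.1⁻¹)))) ''
    ({u | D u ≤ r} ×ˢ {u | D u ≤ r}))

/-- no coincidence in the window of radius `Q` around `x` for the parameter `s` -/
def Good {q : ℕ} (D : G → ℝ) (r Q s : ℝ) (b : Fin q → X → ℝ) (x : X) : Prop :=
  (∀ j, ∀ u : G, D u ≤ Q → 1 / 4 ≤ b j (u • x) → hgt D r (b j) (u • x) ≠ 1 / 2 + s / 4) ∧
  ∀ W : ℝ, (W = 1 ∨ W = 8) → ∀ j i, ∀ u v : G, D u ≤ Q → D v ≤ Q → 1 / 4 ≤ b j (u • x) →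
    1 / 4 ≤ b i (v • x) → om D r W (b j) (b i) (u • x) (v * u⁻¹) ≠ 1 / 4 + s / 4

/-- the labels `l ≥ 1` used by the points of type `i < j` which interact with `y` in the window `W` -/
def Used {q : ℕ} (D : G → ℝ) (r s : ℝ) (b : Fin q → X → ℝ) (st : Fin q → X → ℕ) (W : ℝ) (j : Fin q)
    (y : X) : Set ℕ :=
  {l | 1 ≤ l ∧ ∃ i, i < j ∧ ∃ w : G, 1 / 4 ≤ b i (w • y) ∧ st i (w • y) = l ∧
    1 / 4 + s / 4 < om D r W (b j) (b i) y w}

open Classical in
/-- `st` is the greedy labelling: `st j y = 0` if `y` is too low or near a labelled point of smaller type,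
otherwise the least label `l ≥ 1` which is not used in the window `8` -/
def IsSt {q : ℕ} (D : G → ℝ) (r s : ℝ) (b : Fin q → X → ℝ) (st : Fin q → X → ℕ) : Prop :=
  ∀ j y, st j y = if 1 / 2 + s / 4 < hgt D r (b j) y ∧ Used D r s b st 1 j y = ∅ then
    sInf {l | 1 ≤ l ∧ l ∉ Used D r s b st 8 j y} else 0

/-- the supremum of `b` over the ball of radius `3 r` around the position `c` -/
noncomputable def val1 (D : G → ℝ) (r : ℝ) (b : X → ℝ) (c : G) (x : X) : ℝ :=
  sSup ((fun u : G => b (u • x)) '' {u | D (u * c⁻¹) ≤ 3 * r})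

/-- the interaction of `b` near the position `c` and `b'` near the position `c'` -/
noncomputable def val2 (D : G → ℝ) (r W : ℝ) (b b' : X → ℝ) (c c' : G) (x : X) : ℝ :=
  sSup ((fun p : G × G => min (b (p.1 • x)) (min (b' (p.2 • x)) (kap D W (p.2 * p.1⁻¹)))) ''
    ({u | D (u * c⁻¹) ≤ 3 * r} ×ˢ {u | D (u * c'⁻¹) ≤ 3 * r}))

end defs

section basic

variable {G : Type} [Group G] [TopologicalSpace G] [IsTopologicalGroup G]
variable {X : Type u} [TopologicalSpace X] [MulAction G X] [ContinuousSMul G X]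
variable {D : G → ℝ}

omit [TopologicalSpace G] [IsTopologicalGroup G] [TopologicalSpace X] [ContinuousSMul G X] in
/-- `v • x = (v * u⁻¹) • (u • x)` -/
theorem act_sub (u v : G) (x : X) : (v * u⁻¹) • (u • x) = v • x := by
  rw [smul_smul, inv_mul_cancel_right]

/-- the ball around the position `c` is compact -/
theorem Len.cptc (h : Len D) (c : G) (r : ℝ) : IsCompact {u : G | D (u * c⁻¹) ≤ r} := by
  have h1 : {u : G | D (u * c⁻¹) ≤ r} = (fun v => v * c) '' {v | D v ≤ r} := by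
    ext u
    constructor
    · intro hu
      exact ⟨u * c⁻¹, hu, inv_mul_cancel_right u c⟩
    · rintro ⟨v, hv, rfl⟩
      show D (v * c * c⁻¹) ≤ r
      rw [mul_inv_cancel_right]
      exact hv
  rw [h1]
  exact (h.cpt r).image (continuous_mul_const c)

/-- the closed shell `{r ≤ D u ≤ w}` is compact -/
theorem Len.cpt_shell (h : Len D) (r w : ℝ) : IsCompact {u : G | r ≤ D u ∧ D u ≤ w} := by
  have h1 : {u : G | r ≤ D u ∧ D u ≤ w} = {u | D u ≤ w} ∩ {u | r ≤ D u} := by
    ext u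
    exact ⟨fun hu => ⟨hu.2, hu.1⟩, fun hu => ⟨hu.2, hu.1⟩⟩
  rw [h1]
  exact (h.cpt w).inter_right (isClosed_le continuous_const h.cont)

/-- the ball is a neighbourhood of `1` -/
theorem Len.nhds (h : Len D) {r : ℝ} (hr : 0 < r) : {u : G | D u < r} ∈ 𝓝 (1 : G) := by
  refine (isOpen_lt h.cont continuous_const).mem_nhds ?_
  show D 1 < r
  rw [h.one]
  exact hr

theorem hgt_cont (h : Len D) (r : ℝ) {b : X → ℝ} (hb : Continuous b) : Continuous (hgt D r b) := by
  unfold hgt
  apply IsCompact.continuous_sSup (h.cpt r) (f := fun (y : X) (u : G) => b (u • y))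
  exact hb.comp (continuous_snd.smul continuous_fst)

omit [IsTopologicalGroup G] in
theorem kap_cont (h : Len D) (W : ℝ) : Continuous (kap D W) := by
  unfold kap
  exact continuous_const.max (continuous_const.add (continuous_const.mul
    (continuous_const.sub h.cont)))

omit [Group G] [TopologicalSpace G] [IsTopologicalGroup G] in
theorem kap_nonneg (D : G → ℝ) (W : ℝ) (v : G) : 0 ≤ kap D W v := le_max_left _ _

omit [Group G] [TopologicalSpace G] [IsTopologicalGroup G] in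
theorem one_le_kap {D : G → ℝ} {W : ℝ} {v : G} (h : D v ≤ W) : 1 ≤ kap D W v := by
  unfold kap
  exact le_max_of_le_right (by linarith)

omit [Group G] [TopologicalSpace G] [IsTopologicalGroup G] in
theorem kap_pos {D : G → ℝ} {W : ℝ} {v : G} (h : 0 < kap D W v) : D v < W + 1 / 4 := by
  unfold kap at h
  rcases lt_max_iff.1 h with h | h
  · exact absurd h (lt_irrefl _)
  · linarith

theorem om_cont (h : Len D) (r W : ℝ) {b b' : X → ℝ} (hb : Continuous b) (hb' : Continuous b') :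
    Continuous (fun p : X × G => om D r W b b' p.1 p.2) := by
  unfold om
  apply IsCompact.continuous_sSup ((h.cpt r).prod (h.cpt r))
    (f := fun (p : X × G) (q : G × G) => min (b (q.1 • p.1)) (min (b' ((q.2 * p.2) • p.1))
      (kap D W (q.2 * p.2 * q.1⁻¹))))
  have h1 : Continuous (fun z : (X × G) × (G × G) => b (z.2.1 • z.1.1)) :=
    hb.comp ((by fun_prop : Continuous (fun z : (X × G) × (G × G) => z.2.1)).smul (by fun_prop))
  have h2 : Continuous (fun z : (X × G) × (G × G) => b' ((z.2.2 * z.1.2) • z.1.1)) :=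
    hb'.comp ((by fun_prop : Continuous (fun z : (X × G) × (G × G) => z.2.2 * z.1.2)).smul
      (by fun_prop))
  have h3 : Continuous (fun z : (X × G) × (G × G) => kap D W (z.2.2 * z.1.2 * z.2.1⁻¹)) :=
    (kap_cont h W).comp (by fun_prop)
  exact h1.min (h2.min h3)

/-- `t < hgt` iff `t < b (u • y)` for some `D u ≤ r` -/
theorem lt_hgt (h : Len D) {r t : ℝ} {b : X → ℝ} (hr : 0 ≤ r) (hb : Continuous b) (y : X) :
    t < hgt D r b y ↔ ∃ u : G, D u ≤ r ∧ t < b (u • y) := by
  unfold hgt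
  have hc : IsCompact ((fun u : G => b (u • y)) '' {u | D u ≤ r}) :=
    (h.cpt r).image (hb.comp (continuous_id.smul continuous_const))
  have hne : ((fun u : G => b (u • y)) '' {u | D u ≤ r}).Nonempty :=
    ⟨_, 1, by show D 1 ≤ r; rw [h.one]; exact hr, rfl⟩
  rw [lt_csSup_iff hc.bddAbove hne]
  constructor
  · rintro ⟨c, ⟨u, hu, rfl⟩, h'⟩
    exact ⟨u, hu, h'⟩
  · rintro ⟨u, hu, h'⟩
    exact ⟨_, ⟨u, hu, rfl⟩, h'⟩

theorem le_hgt (h : Len D) {r : ℝ} {b : X → ℝ} (hb : Continuous b) (y : X) {u : G} (hu : D u ≤ r) :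
    b (u • y) ≤ hgt D r b y := by
  have hr : 0 ≤ r := (h.nonneg u).trans hu
  by_contra h'
  push Not at h'
  exact lt_irrefl _ ((lt_hgt h hr hb y).2 ⟨u, hu, h'⟩)

/-- the supremum in `hgt` is attained -/
theorem hgt_att (h : Len D) {r : ℝ} {b : X → ℝ} (hr : 0 ≤ r) (hb : Continuous b) (y : X) :
    ∃ u : G, D u ≤ r ∧ b (u • y) = hgt D r b y := by
  have hc : IsCompact {u : G | D u ≤ r} := h.cpt r
  have hne : ({u : G | D u ≤ r}).Nonempty := ⟨1, by show D 1 ≤ r; rw [h.one]; exact hr⟩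
  obtain ⟨u, hu, h1⟩ := hc.exists_isMaxOn hne
    (hb.comp (continuous_id.smul continuous_const) : Continuous (fun u : G => b (u • y))).continuousOn
  refine ⟨u, hu, le_antisymm (le_hgt h hb y hu) ?_⟩
  by_contra h'
  push Not at h'
  obtain ⟨v, hv, hv'⟩ := (lt_hgt h hr hb y).1 h'
  exact absurd hv' (not_lt.2 (h1 hv))

/-- `t < om` iff there are witnesses `u` near `1` and `v` near `w` -/
theorem lt_om (h : Len D) {r W t : ℝ} {b b' : X → ℝ} (hr : 0 ≤ r) (hb : Continuous b)
    (hb' : Continuous b') (y : X) (w : G) :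
    t < om D r W b b' y w ↔ ∃ u v : G, D u ≤ r ∧ D (v * w⁻¹) ≤ r ∧
      t < b (u • y) ∧ t < b' (v • y) ∧ t < kap D W (v * u⁻¹) := by
  unfold om
  have hcont : Continuous (fun p : G × G => min (b (p.1 • y)) (min (b' ((p.2 * w) • y))
      (kap D W (p.2 * w * p.1⁻¹)))) := by
    have h1 : Continuous (fun z : G × G => b (z.1 • y)) :=
      hb.comp (continuous_fst.smul continuous_const)
    have h2 : Continuous (fun z : G × G => b' ((z.2 * w) • y)) :=
      hb'.comp ((by fun_prop : Continuous (fun z : G × G => z.2 * w)).smul continuous_const)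
    have h3 : Continuous (fun z : G × G => kap D W (z.2 * w * z.1⁻¹)) :=
      (kap_cont h W).comp (by fun_prop)
    exact h1.min (h2.min h3)
  have hc := ((h.cpt r).prod (h.cpt r)).image hcont
  have h1r : D (1 : G) ≤ r := by rw [h.one]; exact hr
  have hne : ((fun p : G × G => min (b (p.1 • y)) (min (b' ((p.2 * w) • y))
      (kap D W (p.2 * w * p.1⁻¹)))) '' ({u | D u ≤ r} ×ˢ {u | D u ≤ r})).Nonempty :=
    ⟨_, (1, 1), ⟨h1r, h1r⟩, rfl⟩
  rw [lt_csSup_iff hc.bddAbove hne]
  constructor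
  · rintro ⟨c, ⟨⟨u, v⟩, ⟨hu, hv⟩, rfl⟩, h'⟩
    simp only [lt_min_iff] at h'
    refine ⟨u, v * w, hu, ?_, h'.1, h'.2.1, h'.2.2⟩
    rw [mul_inv_cancel_right]
    exact hv
  · rintro ⟨u, v, hu, hv, h1, h2, h3⟩
    refine ⟨_, ⟨(u, v * w⁻¹), ⟨hu, hv⟩, rfl⟩, ?_⟩
    simp only [lt_min_iff, inv_mul_cancel_right]
    exact ⟨h1, h2, h3⟩

theorem om_nonneg (h : Len D) {r W : ℝ} {b b' : X → ℝ} (hr : 0 ≤ r) (hb : Continuous b)
    (hb' : Continuous b') (h0 : ∀ x, 0 ≤ b x) (h0' : ∀ x, 0 ≤ b' x) (y : X) (w : G) :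
    0 ≤ om D r W b b' y w := by
  by_contra h'
  push Not at h'
  have hneg : ¬ ((om D r W b b' y w) < om D r W b b' y w) := lt_irrefl _
  apply hneg
  rw [lt_om h hr hb hb']
  refine ⟨1, w, by rw [h.one]; exact hr, by rw [mul_inv_cancel, h.one]; exact hr,
    lt_of_lt_of_le h' (h0 _), lt_of_lt_of_le h' (h0' _), lt_of_lt_of_le h' (kap_nonneg _ _ _)⟩

end basic

end Pool.Agent.MFG
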