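import Pool.Agent.Lib.MFG.Defs

/-!
# MP_98850d_an, theorem (C), part B: definitions
-/

set_option autoImplicit false

namespace Pool.Agent.MFG

open Set Filter Topology

universe u

section group

variable {G : Type} [Group G] [TopologicalSpace G]

/-- `N` is a length function and `φ` a closed central line -/
structure Cen (N : G → ℝ) (φ : ℝ → G) : Prop where
  len : Len N
  cont : Continuous φ
  add : ∀ s t, φ (s + t) = φ s * φ t
  cen : ∀ t u, φ t * u = u * φ t
  cls : ∀ M : ℝ, ∃ c : ℝ, ∀ t, N (φ t) ≤ M → |t| ≤ c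

/-- a one-parameter subgroup of speed at most one -/
structure OneP (N : G → ℝ) (ψ : ℝ → G) : Prop where
  cont : Continuous ψ
  add : ∀ s t, ψ (s + t) = ψ s * ψ t
  speed : ∀ t, N (ψ t) ≤ |t|

/-- the group is generated by one-parameter subgroups of speed at most one -/
def GenP (N : G → ℝ) : Prop := ∀ H : Subgroup G, (∀ ψ : ℝ → G, OneP N ψ → ∀ t, ψ t ∈ H) → H = ⊤

/-- the length function whose balls are large boxes: size `A` along the line `φ`, size `l` in the other directions -/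
noncomputable def DA (N : G → ℝ) (φ : ℝ → G) (l A : ℝ) (u : G) : ℝ := ⨅ t : ℝ, (N (φ t * u) / l + |t| / A)

variable {X : Type u} [MulAction G X]

/-- composition of the maps `x ↦ ψ (σ x) • x`; the last one in the list is applied first -/
def cmp : List ((ℝ → G) × (X → ℝ)) → X → X
  | [], x => x
  | p :: L, x => p.1 (p.2 (cmp L x)) • cmp L x

/-- the supremum convolution of `σ` along the orbits: slow in all directions -/
noncomputable def slow (N : G → ℝ) (S : ℝ) (σ : X → ℝ) (x : X) : ℝ :=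
  sSup ((fun u : G => σ (u • x) - N u / 2) '' {u | N u ≤ 2 * S})

/-- `b` spread out over the balls of radius `l` -/
noncomputable def bet (N : G → ℝ) (l : ℝ) (b : X → ℝ) (x : X) : ℝ :=
  sSup ((fun u : G => b (u • x)) '' {u | N u ≤ l})

/-- the height of the pulse of `bet` along the line -/
noncomputable def hei (N : G → ℝ) (φ : ℝ → G) (l A : ℝ) (b : X → ℝ) (x : X) : ℝ :=
  sSup ((fun s : ℝ => bet N l b (φ s • x)) '' Icc (-(2 * A)) (2 * A))

/-- the time of the pulse of `bet` along the line -/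
noncomputable def zet (N : G → ℝ) (φ : ℝ → G) (l A : ℝ) (b : X → ℝ) (x : X) : ℝ :=
  sSup ((fun s : ℝ => s + 16 * A * bet N l b (φ s • x)) '' Icc (-(2 * A)) (2 * A)) - 16 * A * hei N φ l A b x

/-- the programme: the value `g τ` at the time `τ` after the pulse -/
noncomputable def prg (N : G → ℝ) (φ : ℝ → G) (l A : ℝ) (b : X → ℝ) (g : ℝ → ℝ) (x : X) : ℝ :=
  max 0 (2 * hei N φ l A b x - 1) * g (-(zet N φ l A b x))

/-- the displacement function of the colour `k` and the letter `a` -/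
noncomputable def sig (N : G → ℝ) (φ : ℝ → G) (l A : ℝ) {K q r : ℕ} (b : Fin K → Fin q → X → ℝ)
    (g : Fin K → Fin q → Fin r → ℝ → ℝ) (k : Fin K) (a : Fin r) (x : X) : ℝ :=
  ∑ j, prg N φ l A (b k j) (g k j a) x

/-- the product `ψ 0 (s 0) * ψ 1 (s 1) * ...` -/
def wd {r : ℕ} (ψ : Fin r → ℝ → G) (s : Fin r → ℝ) : G := (List.ofFn fun a => ψ a (s a)).prod

/-- the list of all factors -/
def lst {K r : ℕ} (ψ : Fin r → ℝ → G) (σ : Fin K → Fin r → X → ℝ) : List ((ℝ → G) × (X → ℝ)) :=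
  (List.finRange K).flatMap fun k => List.ofFn fun a => (ψ a, σ k a)

/-- numerical conditions: `l` the lateral size, `A` the size along the line, `R` the bound of the displacements, `c` the
length of the pulses -/
structure Num (N : G → ℝ) (φ : ℝ → G) (l A c R : ℝ) : Prop where
  cen : Cen N φ
  lpos : 0 < l
  Apos : 0 < A
  c0 : 0 ≤ c
  cA : c ≤ A / 8
  R0 : 0 ≤ R
  Rl : R ≤ l / 8
  cls : ∀ t, N (φ t) ≤ 2 * (7 / 4 * l) + 1 + 2 * R → |t| ≤ c

/-- points of the support of `b` and of `b'` at `DA`-distance at most `8` are at distance at most `1`, and `Q` holds -/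
def Sp (N : G → ℝ) (φ : ℝ → G) (l A : ℝ) (b b' : X → ℝ) (Q : Prop) : Prop :=
  ∀ (x : X) (u : G), 0 < b x → 0 < b' (u • x) → DA N φ l A u ≤ 8 → N u ≤ 1 ∧ Q

/-- the configuration: clusters `b`, node times `t`, programmes `g` with the values `val` at the nodes; `w` is the width
of the bumps, `S` bounds the values, `δ` the slope -/
structure Cfg [TopologicalSpace X] (N : G → ℝ) (φ : ℝ → G) (l A c R S w δ : ℝ) {K q p r : ℕ}
    (t : Fin K → Fin K → Fin p → ℝ) (b : Fin K → Fin q → X → ℝ)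
    (val : Fin K → Fin q → Fin K → Fin p → Fin r → ℝ) (g : Fin K → Fin q → Fin r → ℝ → ℝ) : Prop where
  num : Num N φ l A c R
  S0 : 0 ≤ S
  SR : (r + 2) * S ≤ R
  cw : c < w
  d0 : 0 ≤ δ
  bcont : ∀ k j, Continuous (b k j)
  b01 : ∀ k j x, 0 ≤ b k j x ∧ b k j x ≤ 1
  sep : ∀ k j j', Sp N φ l A (b k j) (b k j') (j = j')
  trange : ∀ k i' i, w ≤ t k i' i ∧ t k i' i + w ≤ A / 8
  tclean : ∀ (k : Fin K) (d : Fin K → ℝ), ∃ i', ∀ k', k' ≠ k → ∀ i i'' i2,
    w + 2 * c < |t k i' i - t k' i'' i2 - d k'|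
  g01 : ∀ k j a τ, 0 ≤ g k j a τ ∧ g k j a τ ≤ S
  glip : ∀ k j a τ τ', |g k j a τ - g k j a τ'| ≤ δ * |τ - τ'|
  gval : ∀ k j a i' i τ, |τ - t k i' i| ≤ c → g k j a τ = val k j i' i a
  gsup : ∀ k j a τ, g k j a τ ≠ 0 → ∃ i' i, |τ - t k i' i| < w

end group

end Pool.Agent.MFG
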