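import Pool.Agent.Lib.MFG.SpecB

/-!
# MP_98850d_an, theorem (C), part B: the time of the pulse is equivariant
-/

set_option autoImplicit false

open Set Filter Topology

namespace Pool.Agent.MFG

universe u

namespace EqvM

theorem phi_zero {G : Type} [Group G] [TopologicalSpace G] {N : G → ℝ} {φ : ℝ → G} (h : Cen N φ) :
    φ 0 = 1 := by
  have h1 := h.add 0 0
  rw [add_zero] at h1
  exact left_eq_mul.1 h1

/-- the abstract argument: `β` is the profile of the pulse -/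
theorem core {A c Z t h h' Z' s₀ s₁ : ℝ} {β : ℝ → ℝ} (hA : 0 < A) (hc : c ≤ A / 8)
    (h0 : ∀ s, 0 ≤ β s) (hh : 1 / 2 < h) (hZ : |Z| ≤ 7 / 4 * A) (hZt : |Z - t| ≤ 7 / 4 * A)
    (hU : ∀ a a', 0 < β a → 0 < β a' → |a' - a| ≤ 4 * A → |a' - a| ≤ c)
    (hs₀ : |s₀| ≤ 2 * A) (hs₁ : |s₁| ≤ 2 * A) (hZ₀ : s₀ ≤ Z) (hZ₁ : Z ≤ s₁) (hβ₀ : 0 < β s₀)
    (hβ₁ : 0 < β s₁) (H1 : ∀ s, |s| ≤ 2 * A → β s ≤ h) (H2 : ∃ s, |s| ≤ 2 * A ∧ β s = h)
    (Z1 : ∀ s, |s| ≤ 2 * A → s + 16 * A * β s - 16 * A * h ≤ Z)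
    (Z2 : ∃ s, |s| ≤ 2 * A ∧ s + 16 * A * β s - 16 * A * h = Z)
    (H1' : ∀ s, |s| ≤ 2 * A → β (s + t) ≤ h') (H2' : ∃ s, |s| ≤ 2 * A ∧ β (s + t) = h')
    (Z1' : ∀ s, |s| ≤ 2 * A → s + 16 * A * β (s + t) - 16 * A * h' ≤ Z')
    (Z2' : ∃ s, |s| ≤ 2 * A ∧ s + 16 * A * β (s + t) - 16 * A * h' = Z') :
    h' = h ∧ Z' = Z - t := by
  have F1 : ∀ s, |s| ≤ 2 * A → 0 < β s → |Z - s| ≤ c := by
    intro s hs hβ
    have e0 : |s - s₀| ≤ c := by
      apply hU s₀ s hβ₀ hβ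
      have := abs_sub s s₀
      linarith
    have e1 : |s - s₁| ≤ c := by
      apply hU s₁ s hβ₁ hβ
      have := abs_sub s s₁
      linarith
    rw [abs_le] at e0 e1 ⊢
    constructor <;> linarith [e0.1, e0.2, e1.1, e1.2]
  have F2 : ∀ s, |s| ≤ 2 * A → 0 < β s → |s - t| ≤ 2 * A := by
    intro s hs hβ
    have e := F1 s hs hβ
    rw [abs_le] at e hZt ⊢
    constructor <;> linarith [e.1, e.2, hZt.1, hZt.2]
  have F3 : ∀ s, |s - t| ≤ 2 * A → 0 < β s → |s| ≤ 2 * A := by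
    intro s hs hβ
    have e := F1 s₀ hs₀ hβ₀
    have e2 : |s - s₀| ≤ c := by
      apply hU s₀ s hβ₀ hβ
      rw [abs_le] at e hZt hs ⊢
      constructor <;> linarith [e.1, e.2, hZt.1, hZt.2, hs.1, hs.2]
    rw [abs_le] at e e2 hZ ⊢
    constructor <;> linarith [e.1, e.2, e2.1, e2.2, hZ.1, hZ.2]
  have hhh : h' = h := by
    have a1 : h ≤ h' := by
      obtain ⟨s, hs, hβ⟩ := H2
      have h2 := H1' (s - t) (F2 s hs (by rw [hβ]; linarith))
      rw [sub_add_cancel, hβ] at h2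
      exact h2
    obtain ⟨s, hs, hβ⟩ := H2'
    have h3 : |s + t| ≤ 2 * A := by
      apply F3
      · rw [add_sub_cancel_right]
        exact hs
      · rw [hβ]; linarith
    have h4 := H1 _ h3
    rw [hβ] at h4
    exact le_antisymm h4 a1
  refine ⟨hhh, ?_⟩
  rw [hhh] at Z1' Z2'
  have hAh : 8 * A < 16 * A * h := by nlinarith
  have a1 : Z - t ≤ Z' := by
    obtain ⟨s, hs, hz⟩ := Z2
    have hβ : 0 < β s := by
      rcases (h0 s).lt_or_eq with h5 | h5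
      · exact h5
      · exfalso
        rw [← h5] at hz
        rw [abs_le] at hs hZ
        linarith [hs.1, hs.2, hZ.1, hZ.2]
    have h6 := Z1' (s - t) (F2 s hs hβ)
    rw [sub_add_cancel] at h6
    linarith
  obtain ⟨s, hs, hz⟩ := Z2'
  have hβ : 0 < β (s + t) := by
    rcases (h0 (s + t)).lt_or_eq with h5 | h5
    · exact h5
    · exfalso
      rw [← h5] at hz
      rw [abs_le] at hs hZt
      linarith [hs.1, hs.2, hZt.1, hZt.2]
  have h3 : |s + t| ≤ 2 * A := by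
    apply F3 _ _ hβ
    rw [add_sub_cancel_right]
    exact hs
  have h6 := Z1 _ h3
  linarith

end EqvM

theorem eqvP (hBt : S_Bt.{u}) (hUq : S_Uq.{u}) : S_Eqv.{u} := by
  intro G _ _ _ _ N φ l A c R X _ _ _ b hN hb hb01 hSp x t hh hZ hZt
  have hcen := hN.cen
  have hl : (0 : ℝ) ≤ 7 / 4 * l := by
    have := hN.lpos
    positivity
  obtain ⟨-, -, -, B3, -, -, -, H1, H2, Z1, Z2, L⟩ :=
    hBt G N φ (7 / 4 * l) A X b hcen hl hN.Apos hb hb01
  obtain ⟨s₀, s₁, hs₀, hs₁, hZ₀, hZ₁, hβ₀, hβ₁⟩ := L x hh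
  have hact : ∀ s : ℝ, φ s • φ t • x = φ (s + t) • x := by
    intro s
    rw [hcen.add, mul_smul]
  have hU : ∀ a a' : ℝ, 0 < bet N (7 / 4 * l) b (φ a • x) → 0 < bet N (7 / 4 * l) b (φ a' • x) →
      |a' - a| ≤ 4 * A → |a' - a| ≤ c := by
    intro a a' ha ha' hd
    have h1 : N 1 ≤ R := by
      rw [hcen.len.one]
      exact hN.R0
    have e : ∀ a : ℝ, φ a • (1 : G) • φ 0 • x = φ a • x := by
      intro a
      rw [EqvM.phi_zero hcen, one_smul, one_smul]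
    have h2 := hUq G N φ l A c R X b b True hN hb hb01 hb hb01 hSp x 1 1 0 0 a a' h1 h1
      (by rw [e]; exact ha) (by rw [e]; exact ha')
      (by rw [add_zero, add_zero]; exact hd)
    rw [add_zero, add_zero] at h2
    exact h2.1
  exact EqvM.core (β := fun s => bet N (7 / 4 * l) b (φ s • x)) hN.Apos hN.cA
    (fun s => (B3 _).1) hh hZ hZt hU hs₀ hs₁ hZ₀ hZ₁ hβ₀ hβ₁ (H1 x) (H2 x) (Z1 x) (Z2 x)
    (fun s hs => by
      have h3 := H1 (φ t • x) s hs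
      rw [hact] at h3
      exact h3)
    (by
      obtain ⟨s, hs, h3⟩ := H2 (φ t • x)
      rw [hact] at h3
      exact ⟨s, hs, h3⟩)
    (fun s hs => by
      have h3 := Z1 (φ t • x) s hs
      rw [hact] at h3
      exact h3)
    (by
      obtain ⟨s, hs, h3⟩ := Z2 (φ t • x)
      rw [hact] at h3
      exact ⟨s, hs, h3⟩)

end Pool.Agent.MFG
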