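import Pool.Agent.Lib.MFG.SpecB

/-!
# MP_98850d_an, theorem (C), part B: evaluation of a composition
-/

set_option autoImplicit false

open Set Filter Topology

namespace Pool.Agent.MFG

universe u

namespace EvM

theorem sum_nonneg' {G : Type} {X : Type u} (x : X) (L : List ((ℝ → G) × (X → ℝ)))
    (h : ∀ p ∈ L, 0 ≤ p.2 x) : 0 ≤ (L.map fun p => p.2 x).sum := by
  apply List.sum_nonneg
  intro a ha
  rw [List.mem_map] at ha
  obtain ⟨p, hp, rfl⟩ := ha
  exact h p hp

theorem len_le {G : Type} [Group G] [TopologicalSpace G] {N : G → ℝ} {X : Type u} (hN : Len N)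
    (x : X) (L : List ((ℝ → G) × (X → ℝ))) (h : ∀ p ∈ L, OneP N p.1 ∧ 0 ≤ p.2 x) :
    N (L.map fun p => p.1 (p.2 x)).prod ≤ (L.map fun p => p.2 x).sum := by
  induction L with
  | nil =>
    simp only [List.map_nil, List.prod_nil, List.sum_nil]
    exact hN.one.le
  | cons p L ih =>
    simp only [List.map_cons, List.prod_cons, List.sum_cons]
    have h1 := ih fun q hq => h q (List.mem_cons_of_mem _ hq)
    obtain ⟨h2, h3⟩ := h p List.mem_cons_self
    have h4 := h2.speed (p.2 x)
    rw [abs_of_nonneg h3] at h4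
    exact (hN.mul _ _).trans (add_le_add h4 h1)

end EvM

open EvM

theorem evP : S_Ev.{u} := by
  intro G _ _ N X _ L R x hN hL hR hsum
  induction L with
  | nil =>
    show x = ((([] : List ((ℝ → G) × (X → ℝ))).map fun p => p.1 (p.2 x)).prod) • x
    simp
  | cons p L ih =>
    have hL' : ∀ q ∈ L, OneP N q.1 ∧ 0 ≤ q.2 x := fun q hq => hL q (List.mem_cons_of_mem _ hq)
    obtain ⟨-, h3⟩ := hL p List.mem_cons_self
    simp only [List.map_cons, List.sum_cons] at hsum
    have hsum' : (L.map fun p => p.2 x).sum ≤ R := by linarith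
    have h5 := ih hL' (fun q hq => hR q (List.mem_cons_of_mem _ hq)) hsum'
    have h6 := len_le hN x L hL'
    have h7 : p.2 (cmp L x) = p.2 x := by
      rw [h5]
      exact hR p List.mem_cons_self _ (h6.trans hsum')
    show p.1 (p.2 (cmp L x)) • cmp L x = _
    rw [h7, h5, List.map_cons, List.prod_cons, mul_smul]

end Pool.Agent.MFG
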