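import Pool.Agent.Lib.MFG.SpecC

/-! # MP_98850d_an, theorem (C): one step -/

set_option autoImplicit false

namespace Pool.Agent.MFG

open Set Filter Topology

universe u

namespace FldGM

theorem rho {G : Type} [Group G] [TopologicalSpace G] (N : G → ℝ) (φ : ℝ → G) (hcen : Cen N φ)
    (c l : ℝ) : ∃ ρ : ℝ, ∀ s, |s| ≤ c → N (φ s) + 13 / 8 * l ≤ ρ := by
  have hc : Continuous fun s => N (φ s) + 13 / 8 * l :=
    (hcen.len.cont.comp hcen.cont).add continuous_const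
  obtain ⟨ρ, hρ⟩ := (isCompact_Icc (a := -c) (b := c)).bddAbove_image hc.continuousOn
  exact ⟨ρ, fun s hs => hρ ⟨s, abs_le.1 hs, rfl⟩⟩

theorem net {G : Type} [Group G] [TopologicalSpace G] [IsTopologicalGroup G] (N : G → ℝ)
    (hN : Len N) (ρ r₀ : ℝ) (hr : 0 < r₀) :
    ∃ (p : ℕ) (wn : Fin p → G), ∀ v : G, N v ≤ ρ → ∃ i, N (v * (wn i)⁻¹) ≤ r₀ := by
  obtain ⟨F, -, hF⟩ := (hN.cpt ρ).elim_nhds_subcover (fun g => {v | N (v * g⁻¹) < r₀}) (by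
    intro g _
    have hc : Continuous fun v => N (v * g⁻¹) := hN.cont.comp (continuous_id.mul continuous_const)
    refine hc.continuousAt.eventually_lt continuousAt_const ?_
    show N (g * g⁻¹) < r₀
    rw [mul_inv_cancel, hN.one]
    exact hr)
  refine ⟨F.card, fun i => (F.equivFin.symm i : G), fun v hv => ?_⟩
  obtain ⟨g, hg, h⟩ := mem_iUnion₂.1 (hF hv)
  have h' : N (v * g⁻¹) < r₀ := h
  refine ⟨F.equivFin ⟨g, hg⟩, ?_⟩
  show N (v * ((F.equivFin.symm (F.equivFin ⟨g, hg⟩) : F) : G)⁻¹) ≤ r₀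
  rw [Equiv.symm_apply_apply]
  exact h'.le

theorem lst_len {G : Type} {X : Type u} {K r : ℕ} (ψ : Fin r → ℝ → G) (σ : Fin K → Fin r → X → ℝ) :
    (lst ψ σ).length = K * r := by
  unfold lst
  rw [List.length_flatMap]
  simp

theorem lst_mem {G : Type} {X : Type u} {K r : ℕ} (ψ : Fin r → ℝ → G) (σ : Fin K → Fin r → X → ℝ)
    (p : (ℝ → G) × (X → ℝ)) (hp : p ∈ lst ψ σ) : ∃ k a, p = (ψ a, σ k a) := by
  unfold lst at hp
  rw [List.mem_flatMap] at hp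
  obtain ⟨k, -, hk⟩ := hp
  rw [List.mem_ofFn] at hk
  obtain ⟨a, ha⟩ := hk
  exact ⟨k, a, ha.symm⟩

end FldGM

open FldGM

theorem fldGP (hBxG : S_BxG.{u}) (hDA : S_DA) (hPka : S_Pka) (hSlo : S_Slo.{u}) (hHm : S_Hm.{u})
    (hCmp : S_Cmp.{u}) (hGfn : S_Gfn) (hSid : S_Sid) (hCol : S_Col.{u}) (hHit : S_Hit.{u})
    (hWrd : S_Wrd.{u}) (hNb2 : S_Nb2.{u}) : S_FldG.{u} := by
  intro G _ _ _ _ N φ n m X _ _ _ _ ι hcen hpol hgen hfree hlsec hmin hι hinj U T ε hU hUne hε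
  obtain ⟨r, ψ, S, r₀, hψ, hS, hr₀, hwrd⟩ := hWrd G N X U hcen.len hgen hmin hU hUne
  obtain ⟨R, hR⟩ : ∃ R : ℝ, R = (r + 2) * S := ⟨_, rfl⟩
  have hR0 : 0 ≤ R := by rw [hR]; positivity
  obtain ⟨l, hl⟩ : ∃ l : ℝ, l = 8 * (R + 1) := ⟨_, rfl⟩
  have hl0 : 0 < l := by rw [hl]; linarith
  obtain ⟨c, hc0, hc⟩ : ∃ c : ℝ, 0 ≤ c ∧ ∀ t, N (φ t) ≤ 2 * (7 / 4 * l) + 1 + 2 * R → |t| ≤ c := by
    obtain ⟨c', hc'⟩ := hcen.cls (2 * (7 / 4 * l) + 1 + 2 * R)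
    exact ⟨max c' 0, le_max_right _ _, fun t ht => (hc' t ht).trans (le_max_left _ _)⟩
  obtain ⟨P, hP⟩ := hPka G N φ l hcen hl0
  obtain ⟨K, hK⟩ : ∃ K : ℕ, K = (n + m + 1) * (P + 1) := ⟨_, rfl⟩
  obtain ⟨δ, hδ, hcmp⟩ := hCmp G N φ hcen S T ε (K * r) hε
  obtain ⟨w, hw⟩ : ∃ w : ℝ, w = c + S / δ + 1 := ⟨_, rfl⟩
  have hSδ : 0 ≤ S / δ := by positivity
  have hcw : c < w := by rw [hw]; linarith
  have hw0 : 0 < w := by linarith
  have hSw : S / (w - c) ≤ δ := by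
    rw [div_le_iff₀ (by linarith)]
    have h1 : w - c = S / δ + 1 := by rw [hw]; ring
    rw [h1, mul_add, mul_div_cancel₀ _ hδ.ne']
    linarith
  obtain ⟨ρ, hρ⟩ := rho N φ hcen c l
  obtain ⟨p, wn, hwn⟩ := net N hcen.len ρ r₀ hr₀
  obtain ⟨t, A₀, hA₀, ht1, ht2, ht3⟩ := hSid K p w c hc0 hw0
  obtain ⟨A, hA⟩ : ∃ A : ℝ, A = 8 * (A₀ + c + 1) := ⟨_, rfl⟩
  have hA0 : 0 < A := by rw [hA]; linarith
  have num : Num N φ l A c R :=
    ⟨hcen, hl0, hA0, hc0, by rw [hA]; linarith, hR0, by rw [hl]; linarith, hc⟩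
  obtain ⟨hDL, -, -, -⟩ := hDA G N φ l A hcen hl0 hA0
  have hnb := hNb2 G N (DA N φ l A) φ X U K p r ψ S r₀ wn t hcen hDL hfree hU hr₀ hwrd
  choose O hO vl hvl hOsep hvt using hnb
  have hbx := hBxG G N n m P hcen.len hpol (DA N φ l A) hDL (hP A hA0) X ι O hfree hlsec hι hinj hO
  rw [← hK] at hbx
  obtain ⟨q, z, b, hclu⟩ := hbx
  obtain ⟨val, hval⟩ : ∃ val : Fin K → Fin q → Fin K → Fin p → Fin r → ℝ,
      val = fun k j i' i => vl (z j) k i' i := ⟨_, rfl⟩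
  have hg := fun (k : Fin K) (j : Fin q) (a : Fin r) =>
    hGfn (Fin K × Fin p) S c w δ (fun i => t k i.1 i.2) (fun i => val k j i.1 i.2 a) hc0 hcw hS hSw
      (fun i => by rw [hval]; exact hvl (z j) k i.1 i.2 a) (fun i i2 hne => ht2 k i.1 i.2 i2.1 i2.2 hne)
  choose g hg1 hg2 hg3 hg4 using hg
  have cfg : Cfg N φ l A c R S w δ t b val g := by
    refine ⟨num, hS, hR.ge, hcw, hδ.le, hclu.cont, fun k j x => ⟨hclu.nonneg k j x, hclu.le_one k j x⟩,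
      ?_, ?_, ht3, hg1, hg2, ?_, ?_⟩
    · intro k j j' x u h1 h2 h3
      obtain ⟨h4, -⟩ := hclu.sep k j j' x u h1 h2 h3
      subst h4
      exact ⟨hOsep (z j) x (hclu.small k j x h1) u (hclu.small k j _ h2) h3, rfl⟩
    · intro k i' i
      obtain ⟨h1, h2⟩ := ht1 k i' i
      exact ⟨h1, by rw [hA]; linarith⟩
    · intro k j a i' i τ h
      exact hg3 k j a (i', i) τ h
    · intro k j a τ h
      obtain ⟨i, hi⟩ := hg4 k j a τ h
      exact ⟨i.1, i.2, hi⟩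
  have hcol := hCol G N φ l A c R S w δ X K q p r t b val g cfg
  have hslo := fun k a => hSlo G N φ X S (sig N φ (7 / 4 * l) A b g k a) hcen (hcol k a).1
    (hcol k a).2.1
  obtain ⟨L, hL⟩ : ∃ L, L = lst ψ fun k a => slow N S (sig N φ (7 / 4 * l) A b g k a) := ⟨_, rfl⟩
  have hmem : ∀ p ∈ L, ∃ k a, p = (ψ a, slow N S (sig N φ (7 / 4 * l) A b g k a)) := by
    intro p hp
    rw [hL] at hp
    exact lst_mem ψ _ p hp
  obtain ⟨H, hH⟩ := hHm G N X L (by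
    intro p hp
    obtain ⟨k, a, rfl⟩ := hmem p hp
    exact ⟨hψ a, (hslo k a).1, (hslo k a).2.2.1⟩)
  have hcm := hcmp X L (by rw [hL, lst_len]) (by
    intro p hp
    obtain ⟨k, a, rfl⟩ := hmem p hp
    exact ⟨hψ a, (hslo k a).2.1, (hslo k a).2.2.1, (hslo k a).2.2.2.1 δ (hcol k a).2.2.1⟩)
  refine ⟨H, fun x t ht => ?_, fun x => ?_⟩
  · obtain ⟨e, he, h⟩ := hcm x t ht
    exact ⟨e, he, by rw [hH, hH, h]⟩
  · obtain ⟨s, hs⟩ := hHit G N φ l A c R S w δ X K q p r t b val g cfg ψ U ρ r₀ wn hψ hclu.cover hρ hwn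
      (by
        intro k j i' i y hy e he
        rw [hval]
        exact hvt (z j) k i' i y (hclu.small k j y hy) e he) x
    refine ⟨s, ?_⟩
    rw [hH, hL]
    exact hs

end Pool.Agent.MFG
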