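import Pool.Agent.Lib.MFG.SpecC
import Pool.Agent.Lib.MP_98850d_an.Lim

/-! # MP_98850d_an, theorem (C): the limit argument -/

set_option autoImplicit false

namespace Pool.Agent.MFG

open Set Filter Topology

universe u

namespace FreGM

variable {G : Type} [Group G] [TopologicalSpace G] {N : G → ℝ} {φ : ℝ → G}

theorem phi_zero (hC : Cen N φ) : φ 0 = 1 := by
  have h := hC.add 0 0
  rw [add_zero] at h
  exact (mul_eq_left.1 h.symm)

/-- the flow of the central line -/
def fl (hC : Cen N φ) (X : Type u) [TopologicalSpace X] [MulAction G X] [ContinuousSMul G X] :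
    Flow ℝ X where
  toFun := fun t x => φ t • x
  cont' := (hC.cont.comp continuous_fst).smul continuous_snd
  map_add' := fun s t x => by rw [hC.add, mul_smul]
  map_zero' := fun x => by rw [phi_zero hC, one_smul]

theorem small (hBal : S_Bal) (hC : Cen N φ) (X : Type u) [MetricSpace X] [CompactSpace X]
    [MulAction G X] [ContinuousSMul G X] {ε : ℝ} (hε : 0 < ε) :
    ∃ ρ : ℝ, 0 < ρ ∧ ∀ e : G, N e ≤ ρ → ∀ x : X, dist (e • x) x < ε := by
  have hev : ∀ᶠ e : G in 𝓝 1, ∀ x ∈ (univ : Set X), dist (e • x) x < ε := by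
    apply isCompact_univ.eventually_forall_of_forall_eventually
    intro x _
    have hop : IsOpen {p : G × X | dist (p.1 • p.2) p.2 < ε} :=
      isOpen_lt (continuous_smul.dist continuous_snd) continuous_const
    apply hop.mem_nhds
    change dist ((1 : G) • x) x < ε
    rw [one_smul, dist_self]
    exact hε
  obtain ⟨ρ, hρ, h⟩ := hBal G N {e : G | ∀ x ∈ (univ : Set X), dist (e • x) x < ε} hC.len hev
  exact ⟨ρ, hρ, fun e he x => h e he x (mem_univ x)⟩

end FreGM

open FreGM

theorem freGP (hFldG : S_FldG.{u}) (hBal : S_Bal) : S_FreG.{u} := by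
  intro G _ _ _ _ N φ n m X _ _ _ _ ι hC hP hgen hfree hsec hmin hι hιinj
  have hφ : ∀ t x, fl hC X t x = φ t • x := fun _ _ => rfl
  apply Pool.Agent.MP98850d.tLim X
    {ψ | ∃ H : X ≃ₜ X, ∀ t x, ψ t x = H (fl hC X t (H.symm x))}
    ⟨fl hC X, Homeomorph.refl X, fun _ _ => rfl⟩
  rintro ψ ⟨H, hH⟩ U hU hUne ε T hε
  obtain ⟨ε1, hε1, hunif⟩ := Metric.uniformContinuous_iff.1
    (CompactSpace.uniformContinuous_of_continuous H.continuous) ε hε
  obtain ⟨ρ, hρ, hsmall⟩ := small hBal hC X hε1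
  have hU' : IsOpen (H ⁻¹' U) := hU.preimage H.continuous
  have hU'ne : (H ⁻¹' U).Nonempty := by
    obtain ⟨y, hy⟩ := hUne
    exact ⟨H.symm y, by simpa using hy⟩
  obtain ⟨h, hh, hhit⟩ := hFldG G N φ n m X ι hC hP hgen hfree hsec hmin hι hιinj (H ⁻¹' U) T ρ
    hU' hU'ne hρ
  let ψ' : Flow ℝ X :=
    { toFun := fun t x => H (h (fl hC X t (h.symm (H.symm x))))
      cont' := H.continuous.comp (h.continuous.comp ((fl hC X).continuous continuous_fst
        (h.symm.continuous.comp (H.symm.continuous.comp continuous_snd))))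
      map_add' := fun s t x => by
        rw [(fl hC X).map_add]
        simp
      map_zero' := fun x => by
        rw [(fl hC X).map_zero_apply]
        simp }
  have hψ' : ∀ t x, ψ' t x = H (h (fl hC X t (h.symm (H.symm x)))) := fun _ _ => rfl
  refine ⟨ψ', ⟨h.trans H, fun t x => rfl⟩, ?_, ?_⟩
  · intro t x ht
    rw [hψ', hH]
    apply (hunif _).le
    obtain ⟨e, he, h1⟩ := hh (h.symm (H.symm x)) t ht
    rw [hφ, hφ, h1, Homeomorph.apply_symm_apply]
    exact hsmall e he _
  · intro x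
    obtain ⟨t, ht⟩ := hhit (h.symm (H.symm x))
    refine ⟨t, ?_⟩
    rw [hψ', hφ]
    exact ht

end Pool.Agent.MFG
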