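import Pool.Agent.Lib.MFG.SpecB

/-!
# MP_98850d_an, theorem (C), module Gfn: functions with given values at separated nodes
-/

set_option autoImplicit false

open Set Filter Topology

namespace Pool.Agent.MFG

universe u

namespace GfnM

/-- a bump of height one, equal to one for `|x| ≤ c`, zero for `w ≤ |x|` -/
noncomputable def tent (c w x : ℝ) : ℝ := max 0 (min 1 ((w - |x|) / (w - c)))

theorem tent_nonneg (c w x : ℝ) : 0 ≤ tent c w x := le_max_left _ _

theorem tent_le_one (c w x : ℝ) : tent c w x ≤ 1 := max_le zero_le_one (min_le_left _ _)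

theorem tent_one {c w x : ℝ} (hcw : c < w) (hx : |x| ≤ c) : tent c w x = 1 := by
  unfold tent
  have h1 : 1 ≤ (w - |x|) / (w - c) := by
    rw [one_le_div (sub_pos.mpr hcw)]
    linarith
  rw [min_eq_left h1]
  exact max_eq_right zero_le_one

theorem tent_zero {c w x : ℝ} (hcw : c < w) (hx : w ≤ |x|) : tent c w x = 0 := by
  unfold tent
  have h1 : (w - |x|) / (w - c) ≤ 0 :=
    div_nonpos_of_nonpos_of_nonneg (by linarith) (sub_pos.mpr hcw).le
  exact max_eq_left ((min_le_right _ _).trans h1)

theorem tent_lip {c w : ℝ} (hcw : c < w) (x y : ℝ) :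
    tent c w x ≤ tent c w y + |x - y| / (w - c) := by
  have h0 : 0 < w - c := sub_pos.mpr hcw
  have he : 0 ≤ |x - y| / (w - c) := div_nonneg (abs_nonneg _) h0.le
  have h1 : (w - |x|) / (w - c) ≤ (w - |y|) / (w - c) + |x - y| / (w - c) := by
    rw [← add_div]
    apply div_le_div_of_nonneg_right _ h0.le
    have h2 : |y| - |x| ≤ |y - x| := abs_sub_abs_le_abs_sub y x
    rw [abs_sub_comm y x] at h2
    linarith
  unfold tent
  refine max_le (add_nonneg (le_max_left _ _) he) ?_
  rcases le_total 1 ((w - |y|) / (w - c)) with h3 | h3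
  · rw [min_eq_left h3, max_eq_right zero_le_one]
    exact (min_le_left _ _).trans (by linarith)
  · rw [min_eq_right h3]
    exact (min_le_right _ _).trans (h1.trans (add_le_add_left (le_max_right _ _) _))

/-- the functions whose maximum is taken -/
noncomputable def ff {ι : Type} (c w : ℝ) (t s : ι → ℝ) (o : Option ι) (τ : ℝ) : ℝ :=
  o.elim 0 (fun i => s i * tent c w (τ - t i))

theorem ff_lip {ι : Type} {S c w δ : ℝ} {t s : ι → ℝ} (hcw : c < w) (hδ : 0 ≤ δ)
    (hS : S / (w - c) ≤ δ)
    (hs : ∀ i, 0 ≤ s i ∧ s i ≤ S) (o : Option ι) (τ τ' : ℝ) :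
    ff c w t s o τ ≤ ff c w t s o τ' + δ * |τ - τ'| := by
  have h0 : 0 < w - c := sub_pos.mpr hcw
  cases o with
  | none =>
    change (0 : ℝ) ≤ 0 + δ * |τ - τ'|
    linarith [mul_nonneg hδ (abs_nonneg (τ - τ'))]
  | some i =>
    change s i * tent c w (τ - t i) ≤ s i * tent c w (τ' - t i) + δ * |τ - τ'|
    have h1 := tent_lip hcw (τ - t i) (τ' - t i)
    have e1 : τ - t i - (τ' - t i) = τ - τ' := by ring
    rw [e1] at h1
    have h2 := mul_le_mul_of_nonneg_left h1 (hs i).1
    have h3 : s i * (|τ - τ'| / (w - c)) ≤ δ * |τ - τ'| := by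
      have h4 : s i * (|τ - τ'| / (w - c)) = s i / (w - c) * |τ - τ'| := by ring
      rw [h4]
      refine mul_le_mul_of_nonneg_right (le_trans ?_ hS) (abs_nonneg _)
      exact div_le_div_of_nonneg_right (hs i).2 h0.le
    linarith [mul_add (s i) (tent c w (τ' - t i)) (|τ - τ'| / (w - c))]

end GfnM

open GfnM in
theorem gfnP : S_Gfn := by
  intro ι _ S c w δ t s hc hcw hS0 hS hs ht
  classical
  have h0 : 0 < w - c := sub_pos.mpr hcw
  have hδ : 0 ≤ δ := le_trans (div_nonneg hS0 h0.le) hS
  have hne : (Finset.univ : Finset (Option ι)).Nonempty := ⟨none, Finset.mem_univ _⟩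
  have hz : ∀ τ i, w ≤ |τ - t i| → ff c w t s (some i) τ = 0 := by
    intro τ i h
    change s i * tent c w (τ - t i) = 0
    rw [tent_zero hcw h, mul_zero]
  have hle : ∀ τ o, ff c w t s o τ ≤
      (Finset.univ : Finset (Option ι)).sup' hne (fun o => ff c w t s o τ) := fun τ o =>
    Finset.le_sup' (fun o => ff c w t s o τ) (Finset.mem_univ o)
  refine ⟨fun τ => (Finset.univ : Finset (Option ι)).sup' hne (fun o => ff c w t s o τ),
    fun τ => ⟨hle τ none, ?_⟩, ?_, ?_, ?_⟩
  · refine Finset.sup'_le hne _ fun o _ => ?_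
    cases o with
    | none => exact hS0
    | some i =>
      change s i * tent c w (τ - t i) ≤ S
      have h1 := mul_le_mul_of_nonneg_left (tent_le_one c w (τ - t i)) (hs i).1
      linarith [(hs i).2]
  · have hone : ∀ τ τ', (Finset.univ : Finset (Option ι)).sup' hne (fun o => ff c w t s o τ) ≤
        (Finset.univ : Finset (Option ι)).sup' hne (fun o => ff c w t s o τ') +
          δ * |τ - τ'| := by
      intro τ τ'
      refine Finset.sup'_le hne _ fun o _ => ?_
      have h1 := ff_lip (t := t) hcw hδ hS hs o τ τ'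
      have h2 := hle τ' o
      linarith
    intro τ τ'
    rw [abs_le]
    have h1 := hone τ τ'
    have h2 := hone τ' τ
    rw [abs_sub_comm τ' τ] at h2
    constructor
    · simp only
      linarith
    · simp only
      linarith
  · intro i τ hi
    apply le_antisymm
    · refine Finset.sup'_le hne _ fun o _ => ?_
      cases o with
      | none => exact (hs i).1
      | some j =>
        by_cases hj : i = j
        · subst hj
          change s i * tent c w (τ - t i) ≤ s i
          rw [tent_one hcw hi, mul_one]
        · rw [hz τ j ?_]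
          · exact (hs i).1
          · have h1 := ht i j hj
            have h2 : |t i - t j| ≤ |t i - τ| + |τ - t j| := abs_sub_le _ _ _
            rw [abs_sub_comm (t i) τ] at h2
            linarith
    · have h1 := hle τ (some i)
      have h2 : ff c w t s (some i) τ = s i := by
        change s i * tent c w (τ - t i) = s i
        rw [tent_one hcw hi, mul_one]
      rw [h2] at h1
      exact h1
  · intro τ hτ
    by_contra hcon
    push Not at hcon
    apply hτ
    apply le_antisymm
    · refine Finset.sup'_le hne _ fun o _ => ?_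
      cases o with
      | none => exact le_refl 0
      | some i => exact (hz τ i (hcon i)).le
    · exact hle τ none

end Pool.Agent.MFG
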