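import Pool.Agent.Lib.MFG.SpecB

/-!
# MP_98850d_an, theorem (C), part B: module Hit (the target is hit)
-/

set_option autoImplicit false

namespace Pool.Agent.MFG

open Set Filter Topology

universe u

namespace HitM

/-- a product over all `Fin K` with exactly one factor which may be different from one -/
theorem prod_single {M : Type} [Monoid M] {K : ℕ} (f : Fin K → M) (k : Fin K) (h : ∀ k', k' ≠ k → f k' = 1) :
    ((List.finRange K).map f).prod = f k := by
  have h1 := List.prod_map_eq_pow_single (l := List.finRange K) k f (fun k' hk' _ => h k' hk')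
  rw [h1, List.count_eq_one_of_mem (List.nodup_finRange K) (List.mem_finRange k), pow_one]

/-- a sum over all `Fin K` with exactly one summand which may be different from zero -/
theorem sum_single {K : ℕ} (f : Fin K → ℝ) (k : Fin K) (h : ∀ k', k' ≠ k → f k' = 0) :
    ((List.finRange K).map f).sum = f k := by
  have h1 := List.sum_map_eq_nsmul_single (l := List.finRange K) k f (fun k' hk' _ => h k' hk')
  rw [h1, List.count_eq_one_of_mem (List.nodup_finRange K) (List.mem_finRange k), one_smul]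

section

variable {G : Type} [Group G] [TopologicalSpace G] {X : Type u}

omit [Group G] [TopologicalSpace G] in
theorem lst_map {Y : Type} {K r : ℕ} (ψ : Fin r → ℝ → G) (σ : Fin K → Fin r → X → ℝ)
    (F : (ℝ → G) × (X → ℝ) → Y) :
    (lst ψ σ).map F = ((List.finRange K).map fun k => List.ofFn fun a => F (ψ a, σ k a)).flatten := by
  unfold lst
  rw [List.map_flatMap, List.flatMap_def]
  congr 1
  apply List.map_congr_left
  intro k _
  rw [List.map_ofFn]
  rfl

omit [TopologicalSpace G] in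
theorem lst_prod {K r : ℕ} (ψ : Fin r → ℝ → G) (σ : Fin K → Fin r → X → ℝ) (y : X) (k : Fin K)
    (s : Fin r → ℝ) (h1 : ∀ a, σ k a y = s a) (h2 : ∀ k', k' ≠ k → ∀ a, σ k' a y = 0) (h0 : ∀ a, ψ a 0 = 1) :
    ((lst ψ σ).map fun p => p.1 (p.2 y)).prod = wd ψ s := by
  rw [lst_map, List.prod_flatten, List.map_map]
  have h3 := prod_single (fun k' => (List.ofFn fun a => ψ a (σ k' a y)).prod) k (by
    intro k' hk'
    apply List.prod_eq_one
    intro z hz
    rw [List.mem_ofFn] at hz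
    obtain ⟨a, rfl⟩ := hz
    show ψ a (σ k' a y) = 1
    rw [h2 k' hk' a, h0])
  have h4 : (List.prod ∘ fun k' => List.ofFn fun a => ψ a (σ k' a y)) =
      fun k' => (List.ofFn fun a => ψ a (σ k' a y)).prod := rfl
  show ((List.finRange K).map (List.prod ∘ fun k' => List.ofFn fun a => ψ a (σ k' a y))).prod = _
  rw [h4, h3]
  unfold wd
  simp only [h1]

omit [Group G] [TopologicalSpace G] in
theorem lst_sum {K r : ℕ} (ψ : Fin r → ℝ → G) (σ : Fin K → Fin r → X → ℝ) (y : X) (k : Fin K)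
    (s : Fin r → ℝ) (h1 : ∀ a, σ k a y = s a) (h2 : ∀ k', k' ≠ k → ∀ a, σ k' a y = 0) :
    ((lst ψ σ).map fun p => p.2 y).sum = ∑ a, s a := by
  rw [lst_map, List.sum_flatten, List.map_map]
  have h3 := sum_single (fun k' => (List.ofFn fun a => σ k' a y).sum) k (by
    intro k' hk'
    apply List.sum_eq_zero
    intro z hz
    rw [List.mem_ofFn] at hz
    obtain ⟨a, rfl⟩ := hz
    exact h2 k' hk' a)
  show ((List.finRange K).map (List.sum ∘ fun k' => List.ofFn fun a => σ k' a y)).sum = _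
  have h4 : (List.sum ∘ fun k' => List.ofFn fun a => σ k' a y) =
      fun k' => (List.ofFn fun a => σ k' a y).sum := rfl
  rw [h4, h3, List.sum_ofFn]
  simp only [h1]

omit [Group G] [TopologicalSpace G] in
theorem lst_mem {K r : ℕ} (ψ : Fin r → ℝ → G) (σ : Fin K → Fin r → X → ℝ) (p : (ℝ → G) × (X → ℝ))
    (hp : p ∈ lst ψ σ) : ∃ k a, p = (ψ a, σ k a) := by
  unfold lst at hp
  rw [List.mem_flatMap] at hp
  obtain ⟨k, _, hk⟩ := hp
  rw [List.mem_ofFn] at hk
  obtain ⟨a, ha⟩ := hk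
  exact ⟨k, a, ha.symm⟩

end

end HitM

/-- **Hit**. Every orbit of the line is mapped into the target `U` at some time. -/
theorem hitP (hEv : S_Ev.{u}) (_hSlo : S_Slo.{u}) (_hCol : S_Col.{u}) (hVal : S_Val.{u}) : S_Hit.{u} := by
  intro G _ _ _ _ N φ l A c R S w δ X _ _ _ K q p r t b val g hC ψ U ρ r₀ wn hψ hcov hρ hwn hU x
  obtain ⟨k, j, u₀, hu0, hb⟩ := hcov x
  obtain ⟨Z, s₀, u₁, i', hu, hN1, hZ, hv⟩ :=
    hVal G N φ l A c R S w δ X K q p r t b val g hC x k j u₀ hu0 hb
  have hCen := hC.num.cen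
  have hLen := hCen.len
  have hw' : φ Z * u₀⁻¹ = φ (Z - s₀) * u₁⁻¹ := by
    have h1 : φ Z = φ (Z - s₀) * φ s₀ := by rw [← hCen.add, sub_add_cancel]
    rw [hu, h1, mul_inv_rev, mul_assoc, ← mul_assoc (φ s₀), hCen.cen s₀ u₁⁻¹, mul_inv_cancel_right]
  have hNw : N (φ Z * u₀⁻¹) ≤ ρ := by
    rw [hw']
    have h1 := hLen.mul (φ (Z - s₀)) u₁⁻¹
    rw [hLen.inv] at h1
    have h2 := hρ (Z - s₀) hZ
    linarith
  obtain ⟨i, hi⟩ := hwn _ hNw
  have hS0 := hC.S0
  have hrS : (0 : ℝ) ≤ r * S := mul_nonneg (Nat.cast_nonneg r) hS0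
  have hN1' : N (1 : G) ≤ r * S := by rw [hLen.one]; exact hrS
  have hx1 : ∀ a k', k' ≠ k → slow N S (sig N φ (7 / 4 * l) A b g k' a) (φ (t k i' i + Z) • x) = 0 := by
    intro a k' hk'
    have h1 := (hv i 1 a hN1').2 k' hk'
    rwa [one_smul] at h1
  have hx0 : ∀ a, slow N S (sig N φ (7 / 4 * l) A b g k a) (φ (t k i' i + Z) • x) = val k j i' i a := by
    intro a
    have h1 := (hv i 1 a hN1').1
    rwa [one_smul] at h1
  have hval : ∀ a, 0 ≤ val k j i' i a ∧ val k j i' i a ≤ S := by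
    intro a
    have h1 := hC.gval k j a i' i (t k i' i) (by rw [sub_self, abs_zero]; exact hC.num.c0)
    have h2 := hC.g01 k j a (t k i' i)
    rw [h1] at h2
    exact h2
  have h0 : ∀ a, ψ a 0 = 1 := by
    intro a
    have h1 := (hψ a).add 0 0
    rw [add_zero] at h1
    exact (mul_eq_left.1 h1.symm)
  have hcmp := hEv G N X (lst ψ fun k a => slow N S (sig N φ (7 / 4 * l) A b g k a)) (r * S)
    (φ (t k i' i + Z) • x) hLen
    (by
      intro p hp
      obtain ⟨k', a, rfl⟩ := HitM.lst_mem _ _ _ hp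
      refine ⟨hψ a, ?_⟩
      show 0 ≤ slow N S (sig N φ (7 / 4 * l) A b g k' a) (φ (t k i' i + Z) • x)
      by_cases hk : k' = k
      · subst hk
        rw [hx0 a]
        exact (hval a).1
      · rw [hx1 a k' hk])
    (by
      intro p hp u hu
      obtain ⟨k', a, rfl⟩ := HitM.lst_mem _ _ _ hp
      show slow N S (sig N φ (7 / 4 * l) A b g k' a) (u • φ (t k i' i + Z) • x) =
        slow N S (sig N φ (7 / 4 * l) A b g k' a) (φ (t k i' i + Z) • x)
      by_cases hk : k' = k
      · subst hk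
        rw [hx0 a]
        exact (hv i u a hu).1
      · rw [hx1 a k' hk]
        exact (hv i u a hu).2 k' hk)
    (by
      rw [HitM.lst_sum ψ _ _ k (fun a => val k j i' i a) hx0 (fun k' hk' a => hx1 a k' hk')]
      have h1 : ∑ a, val k j i' i a ≤ ∑ _a : Fin r, S := Finset.sum_le_sum fun a _ => (hval a).2
      rw [Finset.sum_const, Finset.card_univ, Fintype.card_fin, nsmul_eq_mul] at h1
      exact h1)
  rw [HitM.lst_prod ψ _ _ k (fun a => val k j i' i a) hx0 (fun k' hk' a => hx1 a k' hk') h0] at hcmp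
  refine ⟨t k i' i + Z, ?_⟩
  rw [hcmp]
  have hbz : 0 < b k j (u₀ • x) := by rw [hb]; exact one_pos
  have h1 := hU k j i' i (u₀ • x) hbz (φ Z * u₀⁻¹ * (wn i)⁻¹) hi
  have h2 : (wd ψ (val k j i' i) * (φ Z * u₀⁻¹ * (wn i)⁻¹) * wn i * φ (t k i' i)) • u₀ • x =
      wd ψ (fun a => val k j i' i a) • φ (t k i' i + Z) • x := by
    rw [smul_smul, smul_smul]
    congr 1
    have h3 : wd ψ (val k j i' i) * (φ Z * u₀⁻¹ * (wn i)⁻¹) * wn i * φ (t k i' i) * u₀ =
        wd ψ (val k j i' i) * (φ Z * u₀⁻¹ * φ (t k i' i) * u₀) := by group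
    rw [h3, mul_assoc (φ Z) u₀⁻¹, ← hCen.cen, hCen.add, hCen.cen (t k i' i) (φ Z)]
    group
  rw [h2] at h1
  exact h1

end Pool.Agent.MFG
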