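import Pool.Agent.Lib.MFG.SpecB

set_option autoImplicit false

/-!
# MP_98850d_an, theorem (C), part B: the compositions are homeomorphisms
-/

open Set Filter Topology

namespace Pool.Agent.MFG

universe u

namespace HmM

variable {G : Type} [Group G] [TopologicalSpace G] {N : G → ℝ} {ψ : ℝ → G}

theorem psi_zero (h : OneP N ψ) : ψ 0 = 1 := by
  have h1 := h.add 0 0
  rw [add_zero] at h1
  exact (mul_eq_left.1 h1.symm)

theorem psi_smul {X : Type u} [MulAction G X] (h : OneP N ψ) (s t : ℝ) (x : X) :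
    ψ s • ψ t • x = ψ (s + t) • x := by
  rw [smul_smul, h.add]

/-- One factor. -/
theorem one {X : Type u} [TopologicalSpace X] [CompactSpace X] [T2Space X] [MulAction G X]
    [ContinuousSMul G X] (h : OneP N ψ) {σ : X → ℝ} (hσ : Continuous σ)
    (hl : ∀ x (u : G), |σ (u • x) - σ x| ≤ N u / 2) : ∃ H : X ≃ₜ X, ∀ x, H x = ψ (σ x) • x := by
  have h0 := psi_zero h
  have hcont : Continuous fun x : X => ψ (σ x) • x := (h.cont.comp hσ).smul continuous_id
  have hinj : Function.Injective fun x : X => ψ (σ x) • x := by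
    intro x x' hxx
    have h1 : ψ (σ x) • x = ψ (σ x') • x' := hxx
    have h2 : x' = ψ (-σ x' + σ x) • x := by
      rw [← psi_smul h, h1, psi_smul h, neg_add_cancel, h0, one_smul]
    have h3 := hl x (ψ (-σ x' + σ x))
    rw [← h2] at h3
    have h4 := h.speed (-σ x' + σ x)
    have h5 : |-σ x' + σ x| = |σ x' - σ x| := by
      rw [← abs_neg]
      congr 1
      ring
    rw [h5] at h4
    have h6 : |σ x' - σ x| ≤ 0 := by linarith
    have h7 : σ x' - σ x = 0 := abs_nonpos_iff.1 h6
    have h8 : -σ x' + σ x = 0 := by linarith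
    rw [h8, h0, one_smul] at h2
    exact h2.symm
  have hsurj : Function.Surjective fun x : X => ψ (σ x) • x := by
    intro y
    have hlip : LipschitzWith (1 / 2) fun s : ℝ => σ (ψ (-s) • y) := by
      refine LipschitzWith.of_dist_le_mul fun s s' => ?_
      rw [Real.dist_eq, Real.dist_eq]
      have h1 : ψ (-s) • y = ψ (s' - s) • ψ (-s') • y := by
        rw [psi_smul h]
        congr 2
        ring
      have h2 := hl (ψ (-s') • y) (ψ (s' - s))
      rw [← h1] at h2
      have h3 := h.speed (s' - s)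
      rw [abs_sub_comm s' s] at h3
      refine h2.trans ?_
      push_cast
      linarith
    have hc : ContractingWith (1 / 2) fun s : ℝ => σ (ψ (-s) • y) := by
      refine ⟨?_, hlip⟩
      rw [← NNReal.coe_lt_coe]
      push_cast
      norm_num
    have hfix := hc.fixedPoint_isFixedPt
    set s := ContractingWith.fixedPoint (fun s : ℝ => σ (ψ (-s) • y)) hc with hs
    have hfix' : σ (ψ (-s) • y) = s := hfix
    refine ⟨ψ (-s) • y, ?_⟩
    show ψ (σ (ψ (-s) • y)) • ψ (-s) • y = y
    rw [hfix', psi_smul h, add_neg_cancel, h0, one_smul]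
  let e : X ≃ X := Equiv.ofBijective _ ⟨hinj, hsurj⟩
  have he : Continuous e := hcont
  exact ⟨he.homeoOfEquivCompactToT2, fun x => rfl⟩

end HmM

theorem hmP : S_Hm.{u} := by
  intro G _ _ _ N X _ _ _ _ _ L hL
  induction L with
  | nil => exact ⟨Homeomorph.refl X, fun x => rfl⟩
  | cons p L ih =>
    obtain ⟨H, hH⟩ := ih fun p' hp' => hL p' (List.mem_cons_of_mem _ hp')
    obtain ⟨h1, h2, h3⟩ := hL p List.mem_cons_self
    obtain ⟨H', hH'⟩ := HmM.one h1 h2 h3
    refine ⟨H.trans H', fun x => ?_⟩
    rw [Homeomorph.trans_apply, hH', hH]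
    rfl

end Pool.Agent.MFG
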