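import Pool.Agent.Lib.MFG.SpecC

/-!
# MP_98850d_an, theorem (C), part C: the length function of a closed linear group
-/

set_option autoImplicit false

namespace Pool.Agent.MFG

open Set Filter Topology

universe u

namespace LinM

variable {d : ℕ}

theorem nm_nonneg (A : Matrix (Fin d) (Fin d) ℝ) : 0 ≤ nm A :=
  Finset.sum_nonneg fun _ _ => Finset.sum_nonneg fun _ _ => abs_nonneg _

theorem abs_le_nm (A : Matrix (Fin d) (Fin d) ℝ) (i j : Fin d) : |A i j| ≤ nm A := by
  have h1 : |A i j| ≤ ∑ j, |A i j| :=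
    Finset.single_le_sum (f := fun j => |A i j|) (fun _ _ => abs_nonneg _) (Finset.mem_univ j)
  have h2 : ∑ j, |A i j| ≤ nm A :=
    Finset.single_le_sum (f := fun i => ∑ j, |A i j|)
      (fun _ _ => Finset.sum_nonneg fun _ _ => abs_nonneg _) (Finset.mem_univ i)
  exact h1.trans h2

theorem nm_zero : nm (0 : Matrix (Fin d) (Fin d) ℝ) = 0 := by
  simp [nm]

theorem nm_eq_zero {A : Matrix (Fin d) (Fin d) ℝ} (h : nm A = 0) : A = 0 := by
  ext i j
  have h1 := abs_le_nm A i j
  rw [h] at h1
  have h2 : A i j = 0 := abs_nonpos_iff.1 h1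
  rw [h2]
  rfl

theorem nm_add (A B : Matrix (Fin d) (Fin d) ℝ) : nm (A + B) ≤ nm A + nm B := by
  unfold nm
  rw [← Finset.sum_add_distrib]
  refine Finset.sum_le_sum fun i _ => ?_
  rw [← Finset.sum_add_distrib]
  exact Finset.sum_le_sum fun j _ => abs_add_le _ _

theorem nm_mul (A B : Matrix (Fin d) (Fin d) ℝ) : nm (A * B) ≤ nm A * nm B := by
  have h1 : ∀ i : Fin d, ∑ j, |(A * B) i j| ≤ (∑ k, |A i k|) * nm B := by
    intro i
    calc ∑ j, |(A * B) i j| ≤ ∑ j, ∑ k, |A i k| * |B k j| := by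
          refine Finset.sum_le_sum fun j _ => ?_
          rw [Matrix.mul_apply]
          refine (Finset.abs_sum_le_sum_abs _ _).trans (le_of_eq ?_)
          exact Finset.sum_congr rfl fun k _ => abs_mul _ _
      _ = ∑ k, |A i k| * ∑ j, |B k j| := by
          rw [Finset.sum_comm]
          exact Finset.sum_congr rfl fun k _ => (Finset.mul_sum _ _ _).symm
      _ ≤ ∑ k, |A i k| * nm B := by
          refine Finset.sum_le_sum fun k _ => mul_le_mul_of_nonneg_left ?_ (abs_nonneg _)
          exact Finset.single_le_sum (f := fun k => ∑ j, |B k j|)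
            (fun _ _ => Finset.sum_nonneg fun _ _ => abs_nonneg _) (Finset.mem_univ k)
      _ = (∑ k, |A i k|) * nm B := (Finset.sum_mul _ _ _).symm
  calc nm (A * B) = ∑ i, ∑ j, |(A * B) i j| := rfl
    _ ≤ ∑ i, (∑ k, |A i k|) * nm B := Finset.sum_le_sum fun i _ => h1 i
    _ = nm A * nm B := (Finset.sum_mul _ _ _).symm

theorem nm_cont : Continuous (nm : Matrix (Fin d) (Fin d) ℝ → ℝ) := by
  unfold nm
  exact continuous_finsetSum _ fun i _ => continuous_finsetSum _ fun j _ =>
    (continuous_id.matrix_elem i j).abs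

theorem entry_le (A : Matrix (Fin d) (Fin d) ℝ) (r : ℝ) (h : nm (A - 1) ≤ r) (i j : Fin d) :
    |A i j| ≤ r + 1 := by
  have h3 : |(A - 1) i j| ≤ r := (abs_le_nm (A - 1) i j).trans h
  have h4 : |(1 : Matrix (Fin d) (Fin d) ℝ) i j| ≤ 1 := by
    rw [Matrix.one_apply]
    split_ifs <;> simp
  have h6 : A i j = (A - 1) i j + (1 : Matrix (Fin d) (Fin d) ℝ) i j := by
    rw [Matrix.sub_apply]
    ring
  rw [h6]
  exact (abs_add_le _ _).trans (add_le_add h3 h4)

/-- the ball around the identity -/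
theorem isCompact_ball (r : ℝ) : IsCompact {A : Matrix (Fin d) (Fin d) ℝ | nm (A - 1) ≤ r} := by
  have h1 : IsCompact (Set.univ.pi fun _ : Fin d => Set.univ.pi fun _ : Fin d =>
      Icc (-(r + 1)) (r + 1) : Set (Fin d → Fin d → ℝ)) :=
    isCompact_univ_pi fun _ => isCompact_univ_pi fun _ => isCompact_Icc
  have h2 : IsClosed {A : Matrix (Fin d) (Fin d) ℝ | nm (A - 1) ≤ r} :=
    isClosed_le (nm_cont.comp (continuous_id.sub continuous_const)) continuous_const
  have h3 : {A : Matrix (Fin d) (Fin d) ℝ | nm (A - 1) ≤ r} ⊆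
      (Set.univ.pi fun _ : Fin d => Set.univ.pi fun _ : Fin d =>
      Icc (-(r + 1)) (r + 1) : Set (Fin d → Fin d → ℝ)) := by
    intro A hA i _ j _
    exact abs_le.1 (entry_le A r hA i j)
  exact IsCompact.of_isClosed_subset h1 h2 h3

variable (G : Subgroup (Matrix.GeneralLinearGroup (Fin d) ℝ))

theorem mt_mul (u v : G) : mt (u * v) = mt u * mt v := rfl

theorem mt_one : mt (1 : G) = 1 := rfl

theorem mt_inj {u v : G} (h : mt u = mt v) : u = v := Subtype.ext (Units.ext h)

theorem mt_cont : Continuous (mt : G → Matrix (Fin d) (Fin d) ℝ) :=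
  Units.continuous_val.comp continuous_subtype_val

/-- the maximum in the definition of the length -/
noncomputable def mm (u : G) : ℝ := max (nm (mt u - 1)) (nm (mt u⁻¹ - 1))

theorem NG_eq (u : G) : NG G u = Real.log (1 + mm G u) := rfl

theorem mm_nonneg (u : G) : 0 ≤ mm G u := (nm_nonneg _).trans (le_max_left _ _)

theorem mm_inv (u : G) : mm G u⁻¹ = mm G u := by
  unfold mm
  rw [inv_inv, max_comm]

theorem half (u v : G) : 1 + nm (mt (u * v) - 1) ≤ (1 + nm (mt u - 1)) * (1 + nm (mt v - 1)) := by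
  have h1 : mt (u * v) - 1 = (mt u - 1) * (mt v - 1) + ((mt u - 1) + (mt v - 1)) := by
    rw [mt_mul]
    noncomm_ring
  have h2 := nm_add ((mt u - 1) * (mt v - 1)) ((mt u - 1) + (mt v - 1))
  have h3 := nm_mul (mt u - 1) (mt v - 1)
  have h4 := nm_add (mt u - 1) (mt v - 1)
  rw [h1]
  linarith

theorem mm_mul (u v : G) : 1 + mm G (u * v) ≤ (1 + mm G u) * (1 + mm G v) := by
  have key : ∀ a b a' b' : ℝ, 0 ≤ a → 0 ≤ b → a ≤ a' → b ≤ b' → (1 + a) * (1 + b) ≤ (1 + a') * (1 + b') := by
    intro a b a' b' ha hb h1 h2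
    exact mul_le_mul (by linarith) (by linarith) (by linarith) (by linarith)
  have h1 : 1 + nm (mt (u * v) - 1) ≤ (1 + mm G u) * (1 + mm G v) :=
    (half G u v).trans (key _ _ _ _ (nm_nonneg _) (nm_nonneg _) (le_max_left _ _) (le_max_left _ _))
  have h2 : 1 + nm (mt (u * v)⁻¹ - 1) ≤ (1 + mm G u) * (1 + mm G v) := by
    rw [mul_inv_rev, mul_comm]
    exact (half G v⁻¹ u⁻¹).trans
      (key _ _ _ _ (nm_nonneg _) (nm_nonneg _) (le_max_right _ _) (le_max_right _ _))
  rcases max_choice (nm (mt (u * v) - 1)) (nm (mt (u * v)⁻¹ - 1)) with h | h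
  · have h3 : mm G (u * v) = nm (mt (u * v) - 1) := h
    rw [h3]
    exact h1
  · have h3 : mm G (u * v) = nm (mt (u * v)⁻¹ - 1) := h
    rw [h3]
    exact h2

theorem mm_cont : Continuous (mm G) :=
  (nm_cont.comp ((mt_cont G).sub continuous_const)).max
    (nm_cont.comp (((mt_cont G).comp continuous_inv).sub continuous_const))

end LinM

open LinM

theorem linP : S_Lin := by
  intro d G hG
  have hpos : ∀ u : G, 0 < 1 + mm G u := fun u => by
    have := mm_nonneg G u
    linarith
  refine ⟨?_, ?_, ?_, ?_, ?_⟩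
  · exact (continuous_const.add (mm_cont G)).log fun u => (hpos u).ne'
  · intro u
    constructor
    · intro h
      rw [NG_eq, Real.log_eq_zero] at h
      have h0 := mm_nonneg G u
      have h1 : mm G u = 0 := by
        rcases h with h | h | h <;> linarith
      have h2 : nm (mt u - 1) = 0 :=
        le_antisymm ((le_max_left _ _).trans_eq h1) (nm_nonneg _)
      have h3 := nm_eq_zero h2
      rw [sub_eq_zero] at h3
      exact mt_inj G (h3.trans (mt_one G).symm)
    · rintro rfl
      have h1 : mm G 1 = 0 := by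
        unfold mm
        rw [inv_one, mt_one, sub_self, nm_zero, max_self]
      rw [NG_eq, h1, add_zero, Real.log_one]
  · intro u
    rw [NG_eq, NG_eq, mm_inv]
  · intro u v
    rw [NG_eq, NG_eq, NG_eq, ← Real.log_mul (hpos u).ne' (hpos v).ne']
    exact Real.log_le_log (hpos _) (mm_mul G u v)
  · intro c
    have hf : IsClosedEmbedding (Units.embedProduct (Matrix (Fin d) (Fin d) ℝ)) :=
      Units.isClosedEmbedding_embedProduct
    have hg : IsClosedEmbedding (fun u : G => Units.embedProduct (Matrix (Fin d) (Fin d) ℝ)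
        (u : Matrix.GeneralLinearGroup (Fin d) ℝ)) := hf.comp hG.isClosedEmbedding_subtypeVal
    have hK : IsCompact ({A : Matrix (Fin d) (Fin d) ℝ | nm (A - 1) ≤ Real.exp c - 1} ×ˢ
        (MulOpposite.op '' {A : Matrix (Fin d) (Fin d) ℝ | nm (A - 1) ≤ Real.exp c - 1})) :=
      (isCompact_ball _).prod ((isCompact_ball _).image MulOpposite.continuous_op)
    have h1 := hg.isCompact_preimage hK
    have h2 : {u : G | NG G u ≤ c} = (fun u : G => Units.embedProduct (Matrix (Fin d) (Fin d) ℝ)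
        (u : Matrix.GeneralLinearGroup (Fin d) ℝ)) ⁻¹'
        ({A : Matrix (Fin d) (Fin d) ℝ | nm (A - 1) ≤ Real.exp c - 1} ×ˢ
        (MulOpposite.op '' {A : Matrix (Fin d) (Fin d) ℝ | nm (A - 1) ≤ Real.exp c - 1})) := by
      ext u
      rw [Set.mem_preimage, Set.mem_prod]
      change NG G u ≤ c ↔ _
      rw [NG_eq, Real.log_le_iff_le_exp (hpos u)]
      constructor
      · intro h
        have h3 : mm G u ≤ Real.exp c - 1 := by linarith
        exact ⟨(le_max_left _ _).trans h3, ⟨mt u⁻¹, (le_max_right _ _).trans h3, rfl⟩⟩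
      · rintro ⟨h3, A, hA, hAu⟩
        have h4 : A = mt u⁻¹ := MulOpposite.op_injective hAu
        rw [h4] at hA
        have h5 : mm G u ≤ Real.exp c - 1 := max_le h3 hA
        linarith
    rw [h2]
    exact h1

end Pool.Agent.MFG
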