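import Pool.Agent.Lib.MFG.SpecC

/-!
# MP_98850d_an, theorem (C), module LinO: one-parameter subgroups of a linear group are Lipschitz

Discrete form of the integral argument: if `X ^ j` is close to `1` for all `j ≤ n` then `X - 1` is at most `1 / n`.
-/

set_option autoImplicit false

open Set Filter Topology

namespace Pool.Agent.MFG

universe u

namespace LinOM

variable {d : ℕ}

private theorem nm_nonneg (A : Matrix (Fin d) (Fin d) ℝ) : 0 ≤ nm A :=
  Finset.sum_nonneg fun _ _ => Finset.sum_nonneg fun _ _ => abs_nonneg _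

private theorem nm_zero : nm (0 : Matrix (Fin d) (Fin d) ℝ) = 0 := by
  unfold nm
  simp

private theorem nm_add (A B : Matrix (Fin d) (Fin d) ℝ) : nm (A + B) ≤ nm A + nm B := by
  unfold nm
  rw [← Finset.sum_add_distrib]
  refine Finset.sum_le_sum fun i _ => ?_
  rw [← Finset.sum_add_distrib]
  refine Finset.sum_le_sum fun j _ => ?_
  rw [Matrix.add_apply]
  exact abs_add_le _ _

private theorem nm_smul (c : ℝ) (A : Matrix (Fin d) (Fin d) ℝ) : nm (c • A) = |c| * nm A := by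
  unfold nm
  rw [Finset.mul_sum]
  refine Finset.sum_congr rfl fun i _ => ?_
  rw [Finset.mul_sum]
  refine Finset.sum_congr rfl fun j _ => ?_
  rw [Matrix.smul_apply, smul_eq_mul, abs_mul]

private theorem nm_sub (A B : Matrix (Fin d) (Fin d) ℝ) : nm (A - B) ≤ nm A + nm B := by
  have h1 := nm_add A ((-1 : ℝ) • B)
  have h2 := nm_smul (-1 : ℝ) B
  have h3 : |(-1 : ℝ)| = 1 := by norm_num
  have h4 : A + (-1 : ℝ) • B = A - B := by
    rw [neg_smul, one_smul, sub_eq_add_neg]
  rw [h2, h3, one_mul, h4] at h1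
  exact h1

private theorem nm_sum (s : Finset ℕ) (f : ℕ → Matrix (Fin d) (Fin d) ℝ) :
    nm (∑ i ∈ s, f i) ≤ ∑ i ∈ s, nm (f i) := by
  induction s using Finset.induction_on with
  | empty => rw [Finset.sum_empty, Finset.sum_empty, nm_zero]
  | insert a s ha ih =>
    rw [Finset.sum_insert ha, Finset.sum_insert ha]
    exact (nm_add _ _).trans (by linarith)

private theorem nm_mul (A B : Matrix (Fin d) (Fin d) ℝ) : nm (A * B) ≤ nm A * nm B := by
  unfold nm
  rw [Finset.sum_mul]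
  refine Finset.sum_le_sum fun i _ => ?_
  calc ∑ j, |(A * B) i j| ≤ ∑ j, ∑ k, |A i k| * |B k j| := by
        refine Finset.sum_le_sum fun j _ => ?_
        rw [Matrix.mul_apply]
        refine (Finset.abs_sum_le_sum_abs _ _).trans (le_of_eq ?_)
        exact Finset.sum_congr rfl fun k _ => abs_mul _ _
    _ = ∑ k, |A i k| * ∑ j, |B k j| := by
        rw [Finset.sum_comm]
        exact Finset.sum_congr rfl fun k _ => (Finset.mul_sum _ _ _).symm
    _ ≤ ∑ k, |A i k| * ∑ k', ∑ j, |B k' j| := by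
        refine Finset.sum_le_sum fun k _ => mul_le_mul_of_nonneg_left ?_ (abs_nonneg _)
        exact Finset.single_le_sum (f := fun k' => ∑ j, |B k' j|)
          (fun k' _ => Finset.sum_nonneg fun j _ => abs_nonneg _) (Finset.mem_univ k)
    _ = (∑ k, |A i k|) * ∑ k', ∑ j, |B k' j| := by rw [Finset.sum_mul]

private theorem nm_cont : Continuous (nm : Matrix (Fin d) (Fin d) ℝ → ℝ) := by
  unfold nm
  exact continuous_finsetSum _ fun i _ => continuous_finsetSum _ fun j _ =>
    (continuous_id.matrix_elem i j).abs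

/-- the main point: powers close to `1` -/
private theorem pw (X : Matrix (Fin d) (Fin d) ℝ) (n : ℕ) (hn : 1 ≤ n)
    (h : ∀ j ≤ n, nm (X ^ j - 1) ≤ 1 / 2) : nm (X - 1) ≤ 1 / (n : ℝ) := by
  have hn0 : (0 : ℝ) < (n : ℝ) := by exact_mod_cast hn
  have e : (n : ℝ) • (X - 1) = (X ^ n - 1) - (X - 1) * ∑ j ∈ Finset.range n, (X ^ j - 1) := by
    rw [Finset.sum_sub_distrib, mul_sub, mul_geom_sum, Finset.sum_const, Finset.card_range,
      sub_sub_cancel, mul_smul_comm, mul_one, Nat.cast_smul_eq_nsmul]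
  have h1 : nm ((n : ℝ) • (X - 1)) = (n : ℝ) * nm (X - 1) := by
    rw [nm_smul, abs_of_pos hn0]
  have h2 : nm (∑ j ∈ Finset.range n, (X ^ j - 1)) ≤ (n : ℝ) * (1 / 2) := by
    refine (nm_sum _ _).trans ?_
    have h3 := Finset.sum_le_card_nsmul (Finset.range n) (fun j => nm (X ^ j - 1)) (1 / 2)
      (fun j hj => h j (Finset.mem_range.1 hj).le)
    rwa [Finset.card_range, nsmul_eq_mul] at h3
  have h4 : nm ((X - 1) * ∑ j ∈ Finset.range n, (X ^ j - 1)) ≤ nm (X - 1) * ((n : ℝ) * (1 / 2)) :=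
    (nm_mul _ _).trans (mul_le_mul_of_nonneg_left h2 (nm_nonneg _))
  have h5 := nm_sub (X ^ n - 1) ((X - 1) * ∑ j ∈ Finset.range n, (X ^ j - 1))
  rw [← e, h1] at h5
  have h6 := h n le_rfl
  rw [le_div_iff₀ hn0]
  linarith

variable {G : Subgroup (Matrix.GeneralLinearGroup (Fin d) ℝ)}

private theorem mt_mul (u v : G) : mt (u * v) = mt u * mt v := rfl

private theorem mt_one : mt (1 : G) = 1 := rfl

private theorem mt_pow (u : G) (n : ℕ) : mt (u ^ n) = mt u ^ n := by
  induction n with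
  | zero => rw [pow_zero, pow_zero, mt_one]
  | succ n ih => rw [pow_succ, pow_succ, mt_mul, ih]

private theorem mul_aux (A B : Matrix (Fin d) (Fin d) ℝ) :
    1 + nm (A * B - 1) ≤ (1 + nm (A - 1)) * (1 + nm (B - 1)) := by
  have e : A * B - 1 = (A - 1) * (B - 1) + ((A - 1) + (B - 1)) := by
    rw [sub_mul, mul_sub, one_mul, mul_one]
    abel
  have h1 := nm_add ((A - 1) * (B - 1)) ((A - 1) + (B - 1))
  have h2 := nm_add (A - 1) (B - 1)
  have h3 := nm_mul (A - 1) (B - 1)
  rw [← e] at h1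
  linarith

private theorem NG_mul (u v : G) : NG G (u * v) ≤ NG G u + NG G v := by
  have h0 : ∀ w : G, 0 ≤ max (nm (mt w - 1)) (nm (mt w⁻¹ - 1)) := fun w =>
    le_max_of_le_left (nm_nonneg _)
  have hu := h0 u
  have hv := h0 v
  unfold NG
  rw [← Real.log_mul (by linarith) (by linarith)]
  refine Real.log_le_log (by linarith [h0 (u * v)]) ?_
  have hu1 := le_max_left (nm (mt u - 1)) (nm (mt u⁻¹ - 1))
  have hu2 := le_max_right (nm (mt u - 1)) (nm (mt u⁻¹ - 1))
  have hv1 := le_max_left (nm (mt v - 1)) (nm (mt v⁻¹ - 1))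
  have hv2 := le_max_right (nm (mt v - 1)) (nm (mt v⁻¹ - 1))
  have h1 : 1 + nm (mt (u * v) - 1) ≤
      (1 + max (nm (mt u - 1)) (nm (mt u⁻¹ - 1))) * (1 + max (nm (mt v - 1)) (nm (mt v⁻¹ - 1))) := by
    rw [mt_mul]
    refine (mul_aux _ _).trans ?_
    exact mul_le_mul (by linarith) (by linarith) (by linarith [nm_nonneg (mt v - 1)])
      (by linarith)
  have h2 : 1 + nm (mt (u * v)⁻¹ - 1) ≤
      (1 + max (nm (mt u - 1)) (nm (mt u⁻¹ - 1))) * (1 + max (nm (mt v - 1)) (nm (mt v⁻¹ - 1))) := by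
    rw [mul_inv_rev, mt_mul]
    refine (mul_aux _ _).trans ?_
    rw [mul_comm]
    exact mul_le_mul (by linarith) (by linarith) (by linarith [nm_nonneg (mt v⁻¹ - 1)])
      (by linarith)
  rcases max_choice (nm (mt (u * v) - 1)) (nm (mt (u * v)⁻¹ - 1)) with h | h
  · rw [h]; exact h1
  · rw [h]; exact h2

private theorem NG_one : NG G 1 = 0 := by
  unfold NG
  rw [inv_one, mt_one, sub_self, nm_zero, max_self, add_zero, Real.log_one]

private theorem NG_pow (u : G) (n : ℕ) : NG G (u ^ n) ≤ (n : ℝ) * NG G u := by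
  induction n with
  | zero => rw [pow_zero, NG_one]; simp
  | succ n ih =>
    rw [pow_succ]
    refine (NG_mul _ _).trans ?_
    push_cast
    linarith

end LinOM

open LinOM in
theorem linOP : S_LinO := by
  intro d G γ hγ hadd
  have hz : γ 0 = 1 := by
    have h1 : γ 0 * 1 = γ 0 * γ 0 := by
      rw [mul_one, ← hadd 0 0, add_zero]
    exact (mul_left_cancel h1).symm
  have hneg : ∀ t, (γ t)⁻¹ = γ (-t) := by
    intro t
    refine (eq_inv_of_mul_eq_one_left ?_).symm
    rw [← hadd, neg_add_cancel, hz]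
  have hpow : ∀ (n : ℕ) t, γ ((n : ℝ) * t) = γ t ^ n := by
    intro n t
    induction n with
    | zero => rw [Nat.cast_zero, zero_mul, pow_zero, hz]
    | succ n ih =>
      rw [Nat.cast_succ, add_mul, one_mul, hadd, ih, pow_succ]
  have hcont : Continuous fun t => nm (mt (γ t) - 1) := by
    refine nm_cont.comp (Continuous.sub ?_ continuous_const)
    exact Units.continuous_val.comp (continuous_subtype_val.comp hγ)
  obtain ⟨δ, hδ, hδ'⟩ := Metric.continuousAt_iff.1 (hcont.continuousAt (x := 0)) (1 / 2)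
    (by norm_num)
  have hsm : ∀ t, |t| < δ → nm (mt (γ t) - 1) ≤ 1 / 2 := by
    intro t ht
    have h1 : dist t 0 < δ := by rwa [Real.dist_eq, sub_zero]
    have h2 := hδ' h1
    rw [Real.dist_eq, hz, mt_one, sub_self, nm_zero, sub_zero] at h2
    exact (le_abs_self _).trans h2.le
  set ρ : ℝ := δ / 2 with hρ
  have hρ0 : 0 < ρ := by positivity
  have hρδ : ρ < δ := by rw [hρ]; linarith
  -- the Lipschitz bound near 0
  have hloc : ∀ t, |t| ≤ ρ → nm (mt (γ t) - 1) ≤ 2 / ρ * |t| := by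
    intro t ht
    rcases (abs_nonneg t).eq_or_lt with h0 | h0
    · have ht0 : t = 0 := abs_eq_zero.1 h0.symm
      rw [ht0, hz, mt_one, sub_self, nm_zero, abs_zero, mul_zero]
    · have hq : 1 ≤ ρ / |t| := by rw [le_div_iff₀ h0, one_mul]; exact ht
      have hq0 : 0 ≤ ρ / |t| := by linarith
      set n : ℕ := ⌊ρ / |t|⌋₊ with hn
      have hn1 : 1 ≤ n := Nat.le_floor (by exact_mod_cast hq)
      have hn2 : (n : ℝ) ≤ ρ / |t| := Nat.floor_le hq0
      have hn3 : ρ / |t| < (n : ℝ) + 1 := Nat.lt_floor_add_one _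
      have hn1' : (1 : ℝ) ≤ (n : ℝ) := by exact_mod_cast hn1
      have hp : nm (mt (γ t) - 1) ≤ 1 / (n : ℝ) := by
        refine pw _ n hn1 fun j hj => ?_
        rw [← mt_pow, ← hpow]
        refine hsm _ ?_
        rw [abs_mul, Nat.abs_cast]
        have hj' : (j : ℝ) ≤ (n : ℝ) := by exact_mod_cast hj
        have h3 : (n : ℝ) * |t| ≤ ρ := by
          rwa [le_div_iff₀ h0] at hn2
        have h4 : (j : ℝ) * |t| ≤ (n : ℝ) * |t| := mul_le_mul_of_nonneg_right hj' h0.le
        linarith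
      refine hp.trans ?_
      rw [div_le_iff₀ (by linarith)]
      have h5 : ρ / |t| ≤ 2 * (n : ℝ) := by linarith
      rw [div_le_iff₀ h0] at h5
      have h6 : 2 / ρ * |t| * (n : ℝ) = (2 * (n : ℝ) * |t|) / ρ := by ring
      rw [h6, le_div_iff₀ hρ0, one_mul]
      exact h5
  have hN : ∀ t, |t| ≤ ρ → NG G (γ t) ≤ 2 / ρ * |t| := by
    intro t ht
    unfold NG
    rw [hneg t]
    have h1 := hloc t ht
    have h2 := hloc (-t) (by rwa [abs_neg])
    rw [abs_neg] at h2
    have h3 : max (nm (mt (γ t) - 1)) (nm (mt (γ (-t)) - 1)) ≤ 2 / ρ * |t| := max_le h1 h2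
    have h4 : 0 ≤ max (nm (mt (γ t) - 1)) (nm (mt (γ (-t)) - 1)) :=
      le_max_of_le_left (nm_nonneg _)
    have h5 := Real.log_le_sub_one_of_pos
      (show 0 < 1 + max (nm (mt (γ t) - 1)) (nm (mt (γ (-t)) - 1)) by linarith)
    linarith
  refine ⟨2 / ρ, by positivity, fun t => ?_⟩
  set n : ℕ := ⌈|t| / ρ⌉₊ + 1 with hn
  have hn1 : (1 : ℝ) ≤ (n : ℝ) := by
    rw [hn]; push_cast
    have : (0 : ℝ) ≤ (⌈|t| / ρ⌉₊ : ℝ) := Nat.cast_nonneg _
    linarith
  have hn0 : (0 : ℝ) < (n : ℝ) := by linarith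
  have hn2 : |t| / ρ ≤ (n : ℝ) := by
    rw [hn]; push_cast
    have := Nat.le_ceil (|t| / ρ)
    linarith
  have hs : |t / (n : ℝ)| ≤ ρ := by
    rw [abs_div, abs_of_pos hn0, div_le_iff₀ hn0]
    rw [div_le_iff₀ hρ0] at hn2
    linarith
  have e : γ t = γ (t / (n : ℝ)) ^ n := by
    rw [← hpow, mul_div_cancel₀ _ hn0.ne']
  rw [e]
  refine (NG_pow _ n).trans ?_
  have h7 := mul_le_mul_of_nonneg_left (hN _ hs) hn0.le
  refine h7.trans (le_of_eq ?_)
  rw [abs_div, abs_of_pos hn0]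
  field_simp

end Pool.Agent.MFG
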