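import Pool.Agent.Lib.MFG.SpecC
import Pool.Agent.Lib.MP_98850d_an.Cube

/-! # MFG, piece LinP: covering numbers of a linear group -/

set_option autoImplicit false

open Set Filter Topology

namespace Pool.Agent.MFG

universe u

namespace LinPM

theorem nm_nonneg {d : ℕ} (A : Matrix (Fin d) (Fin d) ℝ) : 0 ≤ nm A :=
  Finset.sum_nonneg fun _ _ => Finset.sum_nonneg fun _ _ => abs_nonneg _

theorem nm_add {d : ℕ} (A B : Matrix (Fin d) (Fin d) ℝ) : nm (A + B) ≤ nm A + nm B := by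
  unfold nm
  rw [← Finset.sum_add_distrib]
  refine Finset.sum_le_sum fun i _ => ?_
  rw [← Finset.sum_add_distrib]
  refine Finset.sum_le_sum fun j _ => ?_
  rw [Matrix.add_apply]
  exact abs_add_le _ _

theorem entry_le {d : ℕ} (A : Matrix (Fin d) (Fin d) ℝ) (i j : Fin d) : |A i j| ≤ nm A := by
  unfold nm
  refine le_trans ?_ (Finset.single_le_sum (f := fun i => ∑ j, |A i j|)
    (fun i _ => Finset.sum_nonneg fun j _ => abs_nonneg _) (Finset.mem_univ i))
  exact Finset.single_le_sum (f := fun j => |A i j|) (fun j _ => abs_nonneg _) (Finset.mem_univ j)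

theorem nm_mul {d : ℕ} (A B : Matrix (Fin d) (Fin d) ℝ) : nm (A * B) ≤ nm A * nm B := by
  have h1 : ∀ i, ∑ j, |(A * B) i j| ≤ (∑ k, |A i k|) * nm B := by
    intro i
    have h2 : ∀ j, |(A * B) i j| ≤ ∑ k, |A i k| * |B k j| := by
      intro j
      rw [Matrix.mul_apply]
      refine (Finset.abs_sum_le_sum_abs _ _).trans (le_of_eq ?_)
      exact Finset.sum_congr rfl fun k _ => abs_mul _ _
    refine (Finset.sum_le_sum fun j _ => h2 j).trans ?_
    rw [Finset.sum_comm, Finset.sum_mul]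
    refine Finset.sum_le_sum fun k _ => ?_
    rw [← Finset.mul_sum]
    refine mul_le_mul_of_nonneg_left ?_ (abs_nonneg _)
    exact Finset.single_le_sum (f := fun k => ∑ j, |B k j|)
      (fun k _ => Finset.sum_nonneg fun j _ => abs_nonneg _) (Finset.mem_univ k)
  unfold nm at h1 ⊢
  rw [Finset.sum_mul]
  exact Finset.sum_le_sum fun i _ => h1 i

theorem nm_one_le {d : ℕ} : nm (1 : Matrix (Fin d) (Fin d) ℝ) ≤ d := by
  unfold nm
  have h1 : ∀ i : Fin d, ∑ j, |(1 : Matrix (Fin d) (Fin d) ℝ) i j| = 1 := by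
    intro i
    rw [Finset.sum_eq_single i]
    · rw [Matrix.one_apply_eq, abs_one]
    · intro j _ hj
      rw [Matrix.one_apply_ne (Ne.symm hj), abs_zero]
    · intro h
      exact absurd (Finset.mem_univ _) h
  rw [Finset.sum_congr rfl fun i _ => h1 i, Finset.sum_const, Finset.card_univ, Fintype.card_fin,
    nsmul_eq_mul, mul_one]

theorem nm_le {d : ℕ} (A : Matrix (Fin d) (Fin d) ℝ) (a : ℝ) (h : ∀ i j, |A i j| ≤ a) :
    nm A ≤ d * d * a := by
  unfold nm
  refine (Finset.sum_le_sum fun i _ => Finset.sum_le_sum fun j _ => h i j).trans (le_of_eq ?_)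
  rw [Finset.sum_const, Finset.sum_const, Finset.card_univ, Fintype.card_fin, nsmul_eq_mul,
    nsmul_eq_mul, mul_assoc]

variable {d : ℕ} {G : Subgroup (Matrix.GeneralLinearGroup (Fin d) ℝ)}

theorem mt_mul (u v : G) : mt (u * v) = mt u * mt v := by
  unfold mt
  rw [Subgroup.coe_mul, Units.val_mul]

theorem mt_one : mt (1 : G) = 1 := by
  unfold mt
  rw [Subgroup.coe_one, Units.val_one]

theorem mt_mul_inv (u : G) : mt u * mt u⁻¹ = 1 := by
  rw [← mt_mul, mul_inv_cancel, mt_one]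

theorem bound (u : G) (M : ℝ) (h : NG G u ≤ M) :
    nm (mt u - 1) ≤ Real.exp M - 1 ∧ nm (mt u⁻¹ - 1) ≤ Real.exp M - 1 := by
  unfold NG at h
  have h0 : 0 ≤ max (nm (mt u - 1)) (nm (mt u⁻¹ - 1)) := (nm_nonneg _).trans (le_max_left _ _)
  have h1 : 1 + max (nm (mt u - 1)) (nm (mt u⁻¹ - 1)) ≤ Real.exp M := by
    rw [← Real.log_le_iff_le_exp (by linarith)]
    exact h
  constructor
  · have := le_max_left (nm (mt u - 1)) (nm (mt u⁻¹ - 1))
    linarith
  · have := le_max_right (nm (mt u - 1)) (nm (mt u⁻¹ - 1))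
    linarith

theorem diff (u v : G) : mt (u * v⁻¹) - 1 = (mt u - mt v) * mt v⁻¹ := by
  rw [mt_mul, sub_mul, mt_mul_inv]

theorem NG_le (u : G) (ε : ℝ) (hε : 0 ≤ ε) (h1 : nm (mt u - 1) ≤ ε) (h2 : nm (mt u⁻¹ - 1) ≤ ε) :
    NG G u ≤ ε := by
  unfold NG
  have h0 : 0 ≤ max (nm (mt u - 1)) (nm (mt u⁻¹ - 1)) := (nm_nonneg _).trans (le_max_left _ _)
  have h3 : max (nm (mt u - 1)) (nm (mt u⁻¹ - 1)) ≤ ε := max_le h1 h2
  have h4 := Real.log_le_sub_one_of_pos (show 0 < 1 + max (nm (mt u - 1)) (nm (mt u⁻¹ - 1)) by linarith)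
  linarith

end LinPM

open LinPM in
theorem linPP : S_LinP := by
  intro d G M
  obtain ⟨M₀, hM₀⟩ : ∃ x, x = max M 0 := ⟨_, rfl⟩
  have hM : M ≤ M₀ := hM₀ ▸ le_max_left _ _
  have hM0 : 0 ≤ M₀ := hM₀ ▸ le_max_right _ _
  obtain ⟨M', hM'⟩ : ∃ x, x = Real.exp M₀ - 1 := ⟨_, rfl⟩
  have hM'0 : 0 ≤ M' := by
    have := Real.add_one_le_exp M₀
    linarith
  obtain ⟨C₁, hC₁, hcube⟩ := Pool.Agent.MP98850d.tCube (d * d) (M' + 1) (by linarith)
  obtain ⟨D, hD⟩ : ∃ x : ℝ, x = d * d * (M' + d) + 1 := ⟨_, rfl⟩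
  have hdd : (0 : ℝ) ≤ d * d := by positivity
  have hdd' : (0 : ℝ) ≤ d * d * (M' + d) := by positivity
  have hD1 : 1 ≤ D := by linarith
  have hD0 : 0 < D := by linarith
  refine ⟨C₁ * D, by positivity, fun ε hε hε1 => ?_⟩
  have hεD : 0 < ε / D := by positivity
  have hεD1 : ε / D ≤ 1 := by
    rw [div_le_one hD0]
    linarith
  obtain ⟨κ, hκ, B, hcard, hcov, hdiam⟩ := hcube (ε / D) hεD hεD1
  let vec : G → (Fin (d * d) → ℝ) := fun u k => mt u (finProdFinEquiv.symm k).1 (finProdFinEquiv.symm k).2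
  refine ⟨κ, hκ, fun i => {u | NG G u ≤ M ∧ vec u ∈ B i}, ?_, ?_, ?_⟩
  · refine hcard.trans (le_of_eq ?_)
    congr 1
    field_simp
  · intro u hu
    have hu' : NG G u ≤ M₀ := le_trans hu hM
    obtain ⟨h1, _⟩ := bound u M₀ hu'
    rw [← hM'] at h1
    have h2 : vec u ∈ Metric.closedBall (0 : Fin (d * d) → ℝ) (M' + 1) := by
      rw [mem_closedBall_zero_iff, pi_norm_le_iff_of_nonneg (by linarith)]
      intro k
      rw [Real.norm_eq_abs]
      have h3 : mt u (finProdFinEquiv.symm k).1 (finProdFinEquiv.symm k).2 =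
          (mt u - 1) (finProdFinEquiv.symm k).1 (finProdFinEquiv.symm k).2 +
          (1 : Matrix (Fin d) (Fin d) ℝ) (finProdFinEquiv.symm k).1 (finProdFinEquiv.symm k).2 := by
        rw [Matrix.sub_apply]
        ring
      show |mt u (finProdFinEquiv.symm k).1 (finProdFinEquiv.symm k).2| ≤ M' + 1
      rw [h3]
      refine (abs_add_le _ _).trans (add_le_add ((entry_le _ _ _).trans h1) ?_)
      rw [Matrix.one_apply]
      split_ifs
      · rw [abs_one]
      · rw [abs_zero]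
        exact zero_le_one
    have h4 := hcov h2
    rw [mem_iUnion] at h4 ⊢
    obtain ⟨i, hi⟩ := h4
    exact ⟨i, hu, hi⟩
  · rintro i g ⟨hg, hg'⟩ h ⟨hh, hh'⟩
    have hdist := hdiam i _ hg' _ hh'
    have key : ∀ a b, |mt g a b - mt h a b| ≤ ε / D := by
      intro a b
      have h1 := (dist_le_pi_dist (vec g) (vec h) (finProdFinEquiv (a, b))).trans hdist
      rw [Real.dist_eq] at h1
      have h2 : ∀ u : G, vec u (finProdFinEquiv (a, b)) = mt u a b := by
        intro u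
        show mt u (finProdFinEquiv.symm (finProdFinEquiv (a, b))).1
          (finProdFinEquiv.symm (finProdFinEquiv (a, b))).2 = mt u a b
        rw [Equiv.symm_apply_apply]
      rwa [h2, h2] at h1
    have small : ∀ u v : G, NG G v ≤ M → (∀ a b, |mt u a b - mt v a b| ≤ ε / D) →
        nm (mt (u * v⁻¹) - 1) ≤ ε := by
      intro u v hv huv
      rw [diff]
      refine (nm_mul _ _).trans ?_
      have h1 : nm (mt u - mt v) ≤ d * d * (ε / D) := nm_le _ _ fun a b => by
        rw [Matrix.sub_apply]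
        exact huv a b
      have h2 : nm (mt v⁻¹) ≤ M' + d := by
        have h3 : mt v⁻¹ = (mt v⁻¹ - 1) + 1 := by abel
        have h4 := (bound v M₀ (le_trans hv hM)).2
        rw [← hM'] at h4
        rw [h3]
        exact (nm_add _ _).trans (add_le_add h4 nm_one_le)
      calc nm (mt u - mt v) * nm (mt v⁻¹) ≤ (d * d * (ε / D)) * (M' + d) :=
            mul_le_mul h1 h2 (nm_nonneg _) (by positivity)
        _ = (d * d * (M' + d)) * (ε / D) := by ring
        _ ≤ D * (ε / D) := mul_le_mul_of_nonneg_right (by linarith) hεD.le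
        _ = ε := mul_div_cancel₀ _ hD0.ne'
    apply NG_le _ _ hε.le
    · exact small g h hh key
    · rw [mul_inv_rev, inv_inv]
      exact small h g hg fun a b => by
        rw [abs_sub_comm]
        exact key a b

end Pool.Agent.MFG
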