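import Pool.Agent.Lib.MFG.SpecC
import Pool.Agent.Lib.MP_98850d_an.Emb

/-! # MP_98850d_an, theorem (C): from compact metric spaces in `ℝ^m` to compact manifolds -/

set_option autoImplicit false

open Set Filter Topology

namespace Pool.Agent.MFG

universe u

theorem manGP (hFreG : S_FreG.{u}) : S_ManG.{u} := by
  intro G _ _ _ _ N φ n d M _ _ _ _ _ _ hCen hPol hGen hFree hSec hMin
  obtain ⟨m, ι, hι, hιinj⟩ := Pool.Agent.MP98850d.tEmb.{u} d M
  have hemb : IsEmbedding ι := (hι.isClosedEmbedding hιinj).isEmbedding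
  let _ : MetricSpace M := hemb.comapMetricSpace ι
  exact hFreG G N φ n m M ι hCen hPol hGen hFree hSec hMin hι hιinj

end Pool.Agent.MFG
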