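import Pool.Agent.Lib.MFG.SpecC

/-!
# MP_98850d_an, theorem (C): small neighbourhoods (module Nb2)
-/

set_option autoImplicit false

open Set Filter Topology

namespace Pool.Agent.MFG

universe u

/-- Small neighbourhoods: close points of an orbit are close in the group, and the words hit the
target near `z`. -/
theorem nb2P : S_Nb2.{u} := by
  intro G _ _ _ _ N D φ X _ _ _ U K p r ψ S r₀ wn t hC hD hF hU hr hw z
  choose s hs hsU using hw
  have hcpt : IsCompact {u : G | D u ≤ 8 ∧ 1 ≤ N u} :=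
    (hD.cpt 8).inter_right (isClosed_le continuous_const hC.len.cont)
  have h1 : ∀ᶠ xy : X × X in 𝓝 (z, z), ∀ u ∈ {u : G | D u ≤ 8 ∧ 1 ≤ N u}, u • xy.1 ≠ xy.2 := by
    refine hcpt.eventually_forall_of_forall_eventually ?_
    intro u hu
    have hne : u • z ≠ z := by
      intro h
      have h1 := hF u z h
      have h2 := hC.len.one
      have h3 := hu.2
      rw [h1, h2] at h3
      linarith
    have hopen : IsOpen {q : (X × X) × G | q.2 • q.1.1 ≠ q.1.2} :=
      isOpen_ne_fun (by fun_prop) (by fun_prop)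
    exact hopen.mem_nhds hne
  have h2 : ∀ᶠ z' : X in 𝓝 z, ∀ (k i' : Fin K) (i : Fin p), ∀ e ∈ {e : G | N e ≤ r₀},
      (wd ψ (s ((wn i * φ (t k i' i)) • z)) * e * wn i * φ (t k i' i)) • z' ∈ U := by
    rw [eventually_all]; intro k
    rw [eventually_all]; intro i'
    rw [eventually_all]; intro i
    refine (hC.len.cpt r₀).eventually_forall_of_forall_eventually ?_
    intro e he
    have hmem : (wd ψ (s ((wn i * φ (t k i' i)) • z)) * e * wn i * φ (t k i' i)) • z ∈ U := by
      have h := hsU ((wn i * φ (t k i' i)) • z) e (by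
        have : N e ≤ r₀ := he
        linarith)
      rw [← mul_smul] at h
      have e1 : wd ψ (s ((wn i * φ (t k i' i)) • z)) * e * wn i * φ (t k i' i) =
          wd ψ (s ((wn i * φ (t k i' i)) • z)) * e * (wn i * φ (t k i' i)) := by
        rw [mul_assoc (wd ψ (s ((wn i * φ (t k i' i)) • z)) * e)]
      rw [e1]
      exact h
    have hcont : Continuous (fun q : X × G =>
        (wd ψ (s ((wn i * φ (t k i' i)) • z)) * q.2 * wn i * φ (t k i' i)) • q.1) := by
      fun_prop
    exact (hU.preimage hcont).mem_nhds hmem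
  obtain ⟨O1, hO1, O2, hO2, hsub⟩ := mem_nhds_prod_iff.1 h1
  refine ⟨O1 ∩ O2 ∩ {z' | ∀ (k i' : Fin K) (i : Fin p), ∀ e ∈ {e : G | N e ≤ r₀},
      (wd ψ (s ((wn i * φ (t k i' i)) • z)) * e * wn i * φ (t k i' i)) • z' ∈ U},
    inter_mem (inter_mem hO1 hO2) h2, fun k i' i => s ((wn i * φ (t k i' i)) • z), ?_, ?_, ?_⟩
  · intro k i' i a
    exact hs _ a
  · intro x hx u hu hDu
    by_contra hN
    push Not at hN
    exact hsub (mk_mem_prod hx.1.1 hu.1.2) u ⟨hDu, hN.le⟩ rfl
  · intro k i' i z' hz' e he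
    exact hz'.2 k i' i e he

end Pool.Agent.MFG
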