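import Pool.Agent.Lib.MFG.SpecB

/-!
# MP_98850d_an, theorem (C), part B, statement `Nbr`: the times of pulses near each other
-/

set_option autoImplicit false

open Set Filter Topology

namespace Pool.Agent.MFG

universe u

/-- **Nbr**: two pulses seen from near points, whose times differ by at most `3 A`, differ by at most `c`. -/
theorem nbrP (hBt : S_Bt.{u}) (hUq : S_Uq.{u}) : S_Nbr.{u} := by
  intro G _ _ _ _ N φ l A c R X _ _ _ b b' Q hn hb hb1 hb' hb1' hs hs' hq x w₁ w₂ τ₁ τ₂ hw₁ hw₂ h1 h2 h3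
  have hl := hn.lpos
  have hA := hn.Apos
  have hcA := hn.cA
  have hl0 : (0 : ℝ) ≤ 7 / 4 * l := by positivity
  obtain ⟨-, -, -, -, -, -, -, -, -, -, -, B1⟩ := hBt G N φ (7 / 4 * l) A X b hn.cen hl0 hA hb hb1
  obtain ⟨-, -, -, -, -, -, -, -, -, -, -, B2⟩ := hBt G N φ (7 / 4 * l) A X b' hn.cen hl0 hA hb' hb1'
  obtain ⟨s₀, s₁, hs0, hs1, z0, z1, p0, p1⟩ := B1 _ h1
  obtain ⟨r₀, r₁, hr0, hr1, y0, y1, q0, q1⟩ := B2 _ h2
  rw [abs_le] at hs0 hs1 hr0 hr1 h3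
  have e1 := (hUq G N φ l A c R X b b True hn hb hb1 hb hb1 hs x w₁ w₁ τ₁ τ₁ s₀ s₁ hw₁ hw₁ p0 p1
    (by rw [abs_le]; constructor <;> linarith [hs0.1, hs0.2, hs1.1, hs1.2])).1
  have e2 := (hUq G N φ l A c R X b' b' True hn hb' hb1' hb' hb1' hs' x w₂ w₂ τ₂ τ₂ r₀ r₁ hw₂ hw₂ q0 q1
    (by rw [abs_le]; constructor <;> linarith [hr0.1, hr0.2, hr1.1, hr1.2])).1
  rw [abs_le] at e1 e2
  obtain ⟨e11, e12⟩ := e1
  obtain ⟨e21, e22⟩ := e2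
  obtain ⟨h31, h32⟩ := h3
  have f1 := hUq G N φ l A c R X b b' Q hn hb hb1 hb' hb1' hq x w₁ w₂ τ₁ τ₂ s₀ r₁ hw₁ hw₂ p0 q1
    (by rw [abs_le]; constructor <;> linarith)
  have f2 := hUq G N φ l A c R X b b' Q hn hb hb1 hb' hb1' hq x w₁ w₂ τ₁ τ₂ s₁ r₀ hw₁ hw₂ p1 q0
    (by rw [abs_le]; constructor <;> linarith)
  refine ⟨?_, f1.2⟩
  have g1 := f1.1
  have g2 := f2.1
  rw [abs_le] at g1 g2 ⊢
  obtain ⟨g11, g12⟩ := g1
  obtain ⟨g21, g22⟩ := g2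
  constructor <;> linarith

end Pool.Agent.MFG
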