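import Pool.Agent.Lib.MFG.SpecB

/-!
# MP_98850d_an, theorem (C), module Pka: the packing numbers of the boxes do not depend on their size along the line
-/

set_option autoImplicit false

open Set Filter Topology

namespace Pool.Agent.MFG

universe u

namespace PkaM

variable {G : Type} [Group G] [TopologicalSpace G]

theorem phi_neg {N : G → ℝ} {φ : ℝ → G} (h : Cen N φ) (t : ℝ) : φ (-t) = (φ t)⁻¹ := by
  have h0 : φ 0 = 1 := by
    have h1 := h.add 0 0
    rw [add_zero] at h1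
    exact left_eq_mul.1 h1
  have h2 := h.add t (-t)
  rw [add_neg_cancel, h0] at h2
  exact (eq_inv_of_mul_eq_one_right h2.symm)

theorem quot {N : G → ℝ} {φ : ℝ → G} (h : Cen N φ) (t t' : ℝ) (v v' : G) :
    φ t' * v' * (φ t * v)⁻¹ = φ (t' - t) * (v' * v⁻¹) := by
  rw [sub_eq_add_neg, h.add, mul_inv_rev, ← phi_neg h, mul_assoc (φ t'), mul_assoc (φ t'),
    h.cen (-t) (v' * v⁻¹), mul_assoc v']

/-- a finite net with its selection map -/
theorem net [IsTopologicalGroup G] {N : G → ℝ} (hN : Len N) {l : ℝ} (hl : 0 < l) :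
    ∃ (s : Finset G) (κ : G → G), (∀ v, N v ≤ 9 * l → κ v ∈ s) ∧
      ∀ v v', N v ≤ 9 * l → N v' ≤ 9 * l → κ v = κ v' → N (v' * v⁻¹) ≤ l / 2 := by
  classical
  have hU : ∀ g ∈ {u : G | N u ≤ 9 * l}, {u : G | N (u * g⁻¹) < l / 4} ∈ 𝓝 g := by
    intro g _
    have h1 : IsOpen {u : G | N (u * g⁻¹) < l / 4} :=
      isOpen_lt (hN.cont.comp (continuous_mul_const g⁻¹)) continuous_const
    refine h1.mem_nhds ?_
    show N (g * g⁻¹) < l / 4
    rw [mul_inv_cancel, hN.one]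
    positivity
  obtain ⟨s, -, hs⟩ := (hN.cpt (9 * l)).elim_nhds_subcover
    (fun g => {u : G | N (u * g⁻¹) < l / 4}) hU
  have h2 : ∀ v : G, ∃ g, N v ≤ 9 * l → g ∈ s ∧ N (v * g⁻¹) < l / 4 := by
    intro v
    by_cases hv : N v ≤ 9 * l
    · obtain ⟨g, hg, hg'⟩ := mem_iUnion₂.1 (hs hv)
      exact ⟨g, fun _ => ⟨hg, hg'⟩⟩
    · exact ⟨1, fun h3 => absurd h3 hv⟩
  choose κ hκ using h2
  refine ⟨s, κ, fun v hv => (hκ v hv).1, ?_⟩
  intro v v' hv hv' he
  have h4 := (hκ v hv).2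
  have h5 := (hκ v' hv').2
  rw [← he] at h5
  have h6 := hN.tri v' (κ v) v
  rw [hN.symm (κ v) v] at h6
  linarith

end PkaM

open PkaM in
theorem pkaP (hDA : S_DA) : S_Pka := by
  intro G _ _ _ _ N φ l hC hl
  classical
  obtain ⟨s, κ, hκ1, hκ2⟩ := net hC.len hl
  refine ⟨37 * s.card, fun A hA => ?_⟩
  obtain ⟨hLen, hD1, hD2, hD3⟩ := hDA G N φ l A hC hl hA
  choose tf vf h1 h2 using hD3
  intro Z hZ hsep
  have hb : ∀ z ∈ Z, N (vf z) ≤ 9 * l ∧ |tf z| ≤ 9 * A := by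
    intro z hz
    have h3 := h2 z
    have h4 := hZ z hz
    have h5 : 0 ≤ N (vf z) / l := div_nonneg (hC.len.nonneg _) hl.le
    have h6 : 0 ≤ |tf z| / A := div_nonneg (abs_nonneg _) hA.le
    exact ⟨(div_le_iff₀ hl).1 (by linarith), (div_le_iff₀ hA).1 (by linarith)⟩
  have hcard : ((Finset.Icc (-18 : ℤ) 18) ×ˢ s).card = 37 * s.card := by
    rw [Finset.card_product]
    rfl
  rw [← hcard]
  refine Finset.card_le_card_of_injOn (fun z => (⌊2 * tf z / A⌋, κ (vf z))) ?_ ?_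
  · intro z hz
    obtain ⟨h3, h4⟩ := hb z hz
    have h5 := abs_le.1 h4
    simp only [Finset.coe_product, Set.mem_prod, Finset.mem_coe, Finset.mem_Icc]
    refine ⟨⟨?_, ?_⟩, hκ1 _ h3⟩
    · rw [Int.le_floor]
      rw [le_div_iff₀ hA]
      push_cast
      linarith [h5.1]
    · rw [Int.floor_le_iff]
      rw [div_lt_iff₀ hA]
      push_cast
      linarith [h5.2]
  · intro z hz z' hz' he
    simp only [Prod.mk.injEq] at he
    by_contra hne
    have h3 := hsep z hz z' hz' hne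
    have h4 : z' * z⁻¹ = φ (tf z' - tf z) * (vf z' * (vf z)⁻¹) := by
      conv_lhs => rw [h1 z, h1 z']
      exact quot hC _ _ _ _
    have h5 := hLen.mul (φ (tf z' - tf z)) (vf z' * (vf z)⁻¹)
    rw [← h4] at h5
    have h6 := hD2 (tf z' - tf z)
    have h7 := hD1 (vf z' * (vf z)⁻¹)
    have h8 := hκ2 (vf z) (vf z') (hb z hz).1 (hb z' hz').1 he.2
    have h9 : N (vf z' * (vf z)⁻¹) / l ≤ 1 / 2 := by
      rw [div_le_iff₀ hl]
      linarith
    have h10 : |tf z' - tf z| / A ≤ 1 / 2 := by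
      have h11 := Int.abs_sub_lt_one_of_floor_eq_floor he.1
      have h12 : 2 * tf z / A - 2 * tf z' / A = -(2 * ((tf z' - tf z) / A)) := by ring
      rw [h12, abs_neg, abs_mul, abs_of_pos (by norm_num : (0 : ℝ) < 2), abs_div,
        abs_of_pos hA] at h11
      linarith
    linarith

end Pool.Agent.MFG
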