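import Pool.Agent.Lib.MFG.SpecB

/-!
# MP_98850d_an, theorem (C), part B: the programme
-/

set_option autoImplicit false

open Set Filter Topology

namespace Pool.Agent.MFG

universe u

namespace PrgM

theorem phi_zero {G : Type} [Group G] [TopologicalSpace G] {N : G → ℝ} {φ : ℝ → G} (h : Cen N φ) :
    φ 0 = 1 := by
  have h1 := h.add 0 0
  rw [add_zero] at h1
  exact left_eq_mul.1 h1

/-- a slope at distances up to `A` is a slope at all distances -/
theorem step {f : ℝ → ℝ} {A δ : ℝ}
    (h : ∀ s t, |t| ≤ A → |f (s + t) - f s| ≤ δ * |t|) (n : ℕ) :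
    ∀ t, |t| ≤ n * A → |f t - f 0| ≤ δ * |t| := by
  induction n with
  | zero =>
    intro t ht
    have h1 : |t| ≤ 0 := by simpa using ht
    have ht0 : t = 0 := abs_nonpos_iff.mp h1
    subst ht0
    simp
  | succ n ih =>
    intro t ht
    have hn : (0 : ℝ) < n + 1 := by positivity
    push_cast at ht
    have a1 : |t * (n / (n + 1))| = |t| * (n / (n + 1)) := by
      rw [abs_mul, abs_of_nonneg (by positivity : (0 : ℝ) ≤ n / (n + 1))]
    have a2 : |t * (1 / (n + 1))| = |t| * (1 / (n + 1)) := by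
      rw [abs_mul, abs_of_nonneg (by positivity : (0 : ℝ) ≤ 1 / (n + 1))]
    have e : t * (n / (n + 1)) + t * (1 / (n + 1)) = t := by
      field_simp
    have b1 : |t * (n / (n + 1))| ≤ n * A := by
      rw [a1]
      calc |t| * (n / (n + 1)) ≤ ((n + 1) * A) * (n / (n + 1)) :=
            mul_le_mul_of_nonneg_right ht (by positivity)
        _ = n * A := by field_simp
    have b2 : |t * (1 / (n + 1))| ≤ A := by
      rw [a2]
      calc |t| * (1 / (n + 1)) ≤ ((n + 1) * A) * (1 / (n + 1)) :=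
            mul_le_mul_of_nonneg_right ht (by positivity)
        _ = A := by field_simp
    have c1 := ih _ b1
    have c2 := h (t * (n / (n + 1))) _ b2
    rw [e] at c2
    have e3 : |t * (n / (n + 1))| + |t * (1 / (n + 1))| = |t| := by
      rw [a1, a2]
      field_simp
    calc |f t - f 0| ≤ |f t - f (t * (n / (n + 1)))| + |f (t * (n / (n + 1))) - f 0| :=
          abs_sub_le _ _ _
      _ ≤ δ * |t * (1 / (n + 1))| + δ * |t * (n / (n + 1))| := add_le_add c2 c1
      _ = δ * |t| := by rw [← mul_add, add_comm |t * (1 / (n + 1))|, e3]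

theorem cont_of_lip {g : ℝ → ℝ} {δ : ℝ} (h : ∀ τ τ', |g τ - g τ'| ≤ δ * |τ - τ'|) :
    Continuous g := by
  have h1 : LipschitzWith δ.toNNReal g := by
    apply LipschitzWith.of_dist_le_mul
    intro x y
    rw [Real.dist_eq, Real.dist_eq]
    exact (h x y).trans (mul_le_mul_of_nonneg_right (Real.le_coe_toNNReal δ) (abs_nonneg _))
  exact h1.continuous

end PrgM

theorem prgP (hBt : S_Bt.{u}) (hEqv : S_Eqv.{u}) : S_Prg.{u} := by
  intro G _ _ _ _ N φ l A c R X _ _ _ b g S δ hN hb hb01 hSp _ hg hgl hgs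
  have hcen := hN.cen
  have hA := hN.Apos
  have hl : (0 : ℝ) ≤ 7 / 4 * l := by
    have := hN.lpos
    positivity
  obtain ⟨-, B1, B2, -, B4, -⟩ := hBt G N φ (7 / 4 * l) A X b hcen hl hA hb hb01
  have hgc : Continuous g := PrgM.cont_of_lip hgl
  have hm0 : ∀ x, 0 ≤ max 0 (2 * hei N φ (7 / 4 * l) A b x - 1) := fun x => le_max_left _ _
  have hm1 : ∀ x, max 0 (2 * hei N φ (7 / 4 * l) A b x - 1) ≤ 1 := fun x =>
    max_le zero_le_one (by linarith [(B4 x).2])
  have hne : ∀ x, prg N φ (7 / 4 * l) A b g x ≠ 0 →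
      1 / 2 < hei N φ (7 / 4 * l) A b x ∧ g (-(zet N φ (7 / 4 * l) A b x)) ≠ 0 := by
    intro x hx
    unfold prg at hx
    have h1 := left_ne_zero_of_mul hx
    have h2 := right_ne_zero_of_mul hx
    refine ⟨?_, h2⟩
    by_contra h3
    push Not at h3
    exact h1 (max_eq_left (by linarith))
  have hloc : ∀ x t, |t| ≤ A → prg N φ (7 / 4 * l) A b g x ≠ 0 →
      |prg N φ (7 / 4 * l) A b g (φ t • x) - prg N φ (7 / 4 * l) A b g x| ≤ δ * |t| := by
    intro x t ht hx
    obtain ⟨h1, h2⟩ := hne x hx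
    obtain ⟨h3, h4⟩ := hgs _ h2
    obtain ⟨e1, e2⟩ := hEqv G N φ l A c R X b hN hb hb01 hSp x t h1
      (abs_le.2 ⟨by linarith, by linarith⟩) (by
        rw [abs_le] at ht ⊢
        constructor <;> linarith [ht.1, ht.2])
    unfold prg
    rw [e1, e2, ← mul_sub, abs_mul, abs_of_nonneg (hm0 x)]
    have h5 := hgl (-(zet N φ (7 / 4 * l) A b x - t)) (-(zet N φ (7 / 4 * l) A b x))
    have h6 : -(zet N φ (7 / 4 * l) A b x - t) - -(zet N φ (7 / 4 * l) A b x) = t := by ring
    rw [h6] at h5
    have h7 := mul_le_mul_of_nonneg_right (hm1 x) (abs_nonneg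
      (g (-(zet N φ (7 / 4 * l) A b x - t)) - g (-(zet N φ (7 / 4 * l) A b x))))
    rw [one_mul] at h7
    exact h7.trans h5
  have hsm : ∀ x t, |t| ≤ A →
      |prg N φ (7 / 4 * l) A b g (φ t • x) - prg N φ (7 / 4 * l) A b g x| ≤ δ * |t| := by
    intro x t ht
    by_cases hx : prg N φ (7 / 4 * l) A b g x = 0
    · by_cases hy : prg N φ (7 / 4 * l) A b g (φ t • x) = 0
      · have h1 : (0 : ℝ) ≤ δ * |t| := by
          have h2 := hgl t 0
          rw [sub_zero] at h2
          exact (abs_nonneg _).trans h2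
        rw [hx, hy, sub_zero, abs_zero]
        exact h1
      · have h1 := hloc (φ t • x) (-t) (by rw [abs_neg]; exact ht) hy
        have h2 : φ (-t) • φ t • x = x := by
          rw [← mul_smul, ← hcen.add, neg_add_cancel, PrgM.phi_zero hcen, one_smul]
        rw [h2, abs_neg, abs_sub_comm] at h1
        exact h1
    · exact hloc x t ht hx
  refine ⟨?_, ?_, ?_, hne⟩
  · unfold prg
    exact (continuous_const.max ((continuous_const.mul B1).sub continuous_const)).mul
      (hgc.comp B2.neg)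
  · intro x
    unfold prg
    refine ⟨mul_nonneg (hm0 x) (hg _).1, ?_⟩
    have h1 := mul_le_mul_of_nonneg_right (hm1 x) (hg (-(zet N φ (7 / 4 * l) A b x))).1
    rw [one_mul] at h1
    exact h1.trans (hg _).2
  · intro x t
    obtain ⟨n, hn⟩ := exists_nat_ge (|t| / A)
    have hn' : |t| ≤ n * A := by
      rwa [div_le_iff₀ hA] at hn
    have h1 := PrgM.step (f := fun s => prg N φ (7 / 4 * l) A b g (φ s • x)) (A := A) (δ := δ)
      (by
        intro s r hr
        have h2 : φ (s + r) • x = φ r • φ s • x := by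
          rw [← mul_smul, ← hcen.add, add_comm r s]
        show |prg N φ (7 / 4 * l) A b g (φ (s + r) • x) - prg N φ (7 / 4 * l) A b g (φ s • x)| ≤ _
        rw [h2]
        exact hsm (φ s • x) r hr) n t hn'
    rw [PrgM.phi_zero hcen, one_smul] at h1
    exact h1

end Pool.Agent.MFG
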