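import Pool.Agent.Lib.MFG.SpecC

/-!
# MP_98850d_an, theorem (C), part C, module Prod: the theorem for closed linear groups
-/

set_option autoImplicit false

open Set Filter Topology

namespace Pool.Agent.MFG

universe u

theorem prodP (hManG : S_ManG.{u}) (hLin : S_Lin) (hLinP : S_LinP) (hLinO : S_LinO) : S_Prod.{u} := by
  intro d e G hG hgen φ hφ hadd hcen M _ _ _ _ _ _ hfree hsec hmin
  have hlen : Len (NG G) := hLin e G hG
  have hc : Cen (NG G) φ := by
    refine ⟨hlen, hφ.continuous, hadd, hcen, fun B => ?_⟩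
    have h1 : IsCompact (φ ⁻¹' {u | NG G u ≤ B}) := hφ.isCompact_preimage (hlen.cpt B)
    obtain ⟨c, hc⟩ := h1.isBounded.exists_norm_le
    refine ⟨c, fun t ht => ?_⟩
    have h2 := hc t ht
    rwa [Real.norm_eq_abs] at h2
  have hg : GenP (NG G) := by
    intro H hH
    apply hgen H
    intro γ hγ hγa t
    obtain ⟨C, hC, hCt⟩ := hLinO e G γ hγ hγa
    have h3 : OneP (NG G) (fun t => γ (t / C)) := by
      refine ⟨hγ.comp (continuous_id.div_const C), fun s t => ?_, fun t => ?_⟩
      · rw [add_div, hγa]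
      · refine (hCt (t / C)).trans (le_of_eq ?_)
        rw [abs_div, abs_of_pos hC, mul_div_cancel₀ _ hC.ne']
    have h4 := hH _ h3 (C * t)
    have h5 : C * t / C = t := by rw [mul_comm, mul_div_cancel_right₀ _ hC.ne']
    simp only [h5] at h4
    exact h4
  exact hManG G (NG G) φ (e * e) d M hc (hLinP e G) hg hfree hsec (fun x => hmin x)

end Pool.Agent.MFG
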