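import Pool.Agent.Lib.MFG.SpecB

/-!
# MP_98850d_an, theorem (C): the supremum convolution along the orbits
-/

set_option autoImplicit false

namespace Pool.Agent.MFG

open Set Filter Topology

universe u

namespace SloM

section

variable {G : Type} [Group G] [TopologicalSpace G] {N : G → ℝ} {X : Type u} [MulAction G X]
  {S : ℝ} {σ : X → ℝ}

/-- an upper bound for all `u` in the ball is an upper bound for the supremum -/
private theorem le_of (hN : Len N) (hS : 0 ≤ S) (x : X) (c : ℝ)
    (h : ∀ u : G, N u ≤ 2 * S → σ (u • x) - N u / 2 ≤ c) : slow N S σ x ≤ c := by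
  unfold slow
  refine csSup_le ?_ ?_
  · refine Set.Nonempty.image _ ⟨1, ?_⟩
    show N 1 ≤ 2 * S
    rw [hN.one]
    linarith
  · rintro y ⟨u, hu, rfl⟩
    exact h u hu

/-- every value is at most the supremum -/
private theorem ge_of (hN : Len N) (h01 : ∀ x, 0 ≤ σ x ∧ σ x ≤ S) (x : X) (u : G) :
    σ (u • x) - N u / 2 ≤ slow N S σ x := by
  have hS : 0 ≤ S := le_trans (h01 x).1 (h01 x).2
  have hbdd : BddAbove ((fun u : G => σ (u • x) - N u / 2) '' {u | N u ≤ 2 * S}) := by
    refine ⟨S, ?_⟩
    rintro y ⟨v, _, rfl⟩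
    show σ (v • x) - N v / 2 ≤ S
    have h1 := (h01 (v • x)).2
    have h2 := hN.nonneg v
    linarith
  have key : ∀ v : G, N v ≤ 2 * S → σ (v • x) - N v / 2 ≤ slow N S σ x := by
    intro v hv
    exact le_csSup hbdd ⟨v, hv, rfl⟩
  by_cases hu : N u ≤ 2 * S
  · exact key u hu
  · have h1 := key 1 (by rw [hN.one]; linarith)
    rw [one_smul, hN.one] at h1
    have h2 := (h01 (u • x)).2
    have h3 := (h01 x).1
    have h4 := not_le.1 hu
    linarith

end

end SloM

open SloM in
/-- **Slo.** Slow displacements. -/
theorem sloP : S_Slo.{u} := by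
  intro G _ _ _ N φ X _ _ _ S σ hC hσ h01
  have hN : Len N := hC.len
  have hle : ∀ (v : G) (x : X), slow N S σ (v • x) ≤ slow N S σ x + N v / 2 := by
    intro v x
    have hS : 0 ≤ S := le_trans (h01 x).1 (h01 x).2
    refine le_of hN hS (v • x) _ fun u _ => ?_
    have h1 := ge_of hN h01 x (u * v)
    rw [mul_smul] at h1
    have h2 := hN.mul u v
    linarith
  refine ⟨?_, ?_, ?_, ?_, ?_⟩
  · have hNc := hN.cont
    have hf : Continuous ↿(fun (x : X) (u : G) => σ (u • x) - N u / 2) := by
      show Continuous (fun p : X × G => σ (p.2 • p.1) - N p.2 / 2)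
      fun_prop
    exact (hN.cpt (2 * S)).continuous_sSup hf
  · intro x
    have hS : 0 ≤ S := le_trans (h01 x).1 (h01 x).2
    constructor
    · have h1 := ge_of hN h01 x (1 : G)
      rw [one_smul, hN.one] at h1
      have h2 := (h01 x).1
      linarith
    · refine le_of hN hS x _ fun u _ => ?_
      have h1 := (h01 (u • x)).2
      have h2 := hN.nonneg u
      linarith
  · intro x u
    rw [abs_le]
    constructor
    · have h1 := hle u⁻¹ (u • x)
      rw [inv_smul_smul, hN.inv] at h1
      linarith
    · have h1 := hle u x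
      linarith
  · intro δ hδ x t
    have hS : 0 ≤ S := le_trans (h01 x).1 (h01 x).2
    have hcom : ∀ u : G, u • φ t • x = φ t • u • x := by
      intro u
      rw [← mul_smul, ← mul_smul, hC.cen]
    rw [abs_le]
    constructor
    · have h1 : slow N S σ x ≤ slow N S σ (φ t • x) + δ * |t| := by
        refine le_of hN hS x _ fun u _ => ?_
        have h2 := ge_of hN h01 (φ t • x) u
        rw [hcom u] at h2
        have h3 := (abs_le.1 (hδ (u • x) t)).1
        linarith
      linarith
    · have h1 : slow N S σ (φ t • x) ≤ slow N S σ x + δ * |t| := by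
        refine le_of hN hS (φ t • x) _ fun u _ => ?_
        rw [hcom u]
        have h2 := ge_of hN h01 x u
        have h3 := (abs_le.1 (hδ (u • x) t)).2
        linarith
      linarith
  · intro x s hs hu
    have hS : 0 ≤ S := le_trans (h01 x).1 (h01 x).2
    refine le_antisymm ?_ ?_
    · refine le_of hN hS x _ fun u hu' => ?_
      have h1 := hu u hu'
      have h2 := hN.nonneg u
      linarith
    · have h1 := ge_of hN h01 x (1 : G)
      rw [one_smul, hN.one, hs] at h1
      linarith

end Pool.Agent.MFG
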