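import Pool.Agent.Lib.MFG.SpecB

/-!
# MP_98850d_an, theorem (C), part B: pulses near each other coincide
-/

set_option autoImplicit false

open Set Filter Topology

namespace Pool.Agent.MFG

universe u

namespace UqM

/-- the quotient of two products with the central elements collected -/
theorem quot {G : Type} [Group G] (φ : ℝ → G) (hadd : ∀ s t, φ (s + t) = φ s * φ t)
    (hcen : ∀ t u, φ t * u = u * φ t) (u₁ u₂ w₁ w₂ : G) (a₁ a₂ τ₁ τ₂ : ℝ) :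
    (φ ((a₂ + τ₂) - (a₁ + τ₁)) * (u₂ * w₂ * w₁⁻¹ * u₁⁻¹)) * (u₁ * φ a₁ * w₁ * φ τ₁) = u₂ * φ a₂ * w₂ * φ τ₂ := by
  have h1 : u₁ * φ a₁ * w₁ * φ τ₁ = φ (a₁ + τ₁) * (u₁ * w₁) := by
    rw [← hcen a₁ u₁, ← hcen τ₁ (φ a₁ * u₁ * w₁), add_comm, hadd]
    group
  have h2 : u₂ * φ a₂ * w₂ * φ τ₂ = φ (a₂ + τ₂) * (u₂ * w₂) := by
    rw [← hcen a₂ u₂, ← hcen τ₂ (φ a₂ * u₂ * w₂), add_comm, hadd]
    group
  have h3 : φ (a₂ + τ₂) = φ ((a₂ + τ₂) - (a₁ + τ₁)) * φ (a₁ + τ₁) := by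
    rw [← hadd]
    congr 1
    ring
  rw [h1, h2, h3]
  have h4 : u₂ * w₂ * w₁⁻¹ * u₁⁻¹ * (φ (a₁ + τ₁) * (u₁ * w₁)) = φ (a₁ + τ₁) * (u₂ * w₂) := by
    rw [← mul_assoc, ← hcen (a₁ + τ₁) (u₂ * w₂ * w₁⁻¹ * u₁⁻¹)]
    group
  rw [mul_assoc, h4, mul_assoc]

/-- the length of the transversal part -/
theorem rest {G : Type} [Group G] [TopologicalSpace G] {N : G → ℝ} (h : Len N) (u₁ u₂ w₁ w₂ : G) (l R : ℝ)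
    (h1 : N u₁ ≤ l) (h2 : N u₂ ≤ l) (h3 : N w₁ ≤ R) (h4 : N w₂ ≤ R) : N (u₂ * w₂ * w₁⁻¹ * u₁⁻¹) ≤ 2 * l + 2 * R := by
  have e1 := h.mul (u₂ * w₂ * w₁⁻¹) u₁⁻¹
  have e2 := h.mul (u₂ * w₂) w₁⁻¹
  have e3 := h.mul u₂ w₂
  rw [h.inv] at e1 e2
  linarith

end UqM

theorem uqP (hDA : S_DA) (hBt : S_Bt.{u}) : S_Uq.{u} := by
  intro G _ _ _ _ N φ l A c R X _ _ _ b b' Q hnum hb hb1 hb' hb1' hsp x w₁ w₂ τ₁ τ₂ a₁ a₂ hw1 hw2 hp1 hp2 hΔ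
  have hl := hnum.lpos
  have hA := hnum.Apos
  have hlen := hnum.cen.len
  obtain ⟨_, _, _, _, _, _, hex1, _⟩ := hBt G N φ (7 / 4 * l) A X b hnum.cen (by positivity) hA hb hb1
  obtain ⟨_, _, _, _, _, _, hex2, _⟩ := hBt G N φ (7 / 4 * l) A X b' hnum.cen (by positivity) hA hb' hb1'
  obtain ⟨u₁, hu1, hbu1⟩ := hex1 _ hp1
  obtain ⟨u₂, hu2, hbu2⟩ := hex2 _ hp2
  have hq := UqM.quot φ hnum.cen.add hnum.cen.cen u₁ u₂ w₁ w₂ a₁ a₂ τ₁ τ₂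
  have hr := UqM.rest hlen u₁ u₂ w₁ w₂ (7 / 4 * l) R hu1 hu2 hw1 hw2
  set Δ : ℝ := (a₂ + τ₂) - (a₁ + τ₁) with hΔd
  set ρ : G := u₂ * w₂ * w₁⁻¹ * u₁⁻¹ with hρ
  obtain ⟨hlD, hD1, hD2, _⟩ := hDA G N φ l A hnum.cen hl hA
  have hbu1' : 0 < b ((u₁ * φ a₁ * w₁ * φ τ₁) • x) := by
    rw [mul_smul, mul_smul, mul_smul]
    exact hbu1
  have hbu2' : 0 < b' ((φ Δ * ρ) • ((u₁ * φ a₁ * w₁ * φ τ₁) • x)) := by
    rw [← mul_smul, hq, mul_smul, mul_smul, mul_smul]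
    exact hbu2
  have hDv : DA N φ l A (φ Δ * ρ) ≤ 8 := by
    have e1 := hlD.mul (φ Δ) ρ
    have e2 := hD1 ρ
    have e3 := hD2 Δ
    have e4 : |Δ| / A ≤ 4 := by
      rw [div_le_iff₀ hA]
      exact hΔ
    have e5 : N ρ / l ≤ 15 / 4 := by
      rw [div_le_iff₀ hl]
      have := hnum.Rl
      linarith
    linarith
  obtain ⟨hN, hQ⟩ := hsp _ _ hbu1' hbu2' hDv
  refine ⟨hnum.cls _ ?_, hQ⟩
  have e1 := hlen.mul (φ Δ * ρ) ρ⁻¹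
  rw [mul_inv_cancel_right, hlen.inv] at e1
  linarith

end Pool.Agent.MFG
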