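import Pool.Agent.Lib.MFG.SpecB

/-!
# MP_98850d_an, project MFG: module Val (values near the nodes of the clean window)
-/

set_option autoImplicit false

namespace Pool.Agent.MFG

open Set Filter Topology

universe u

namespace ValM

theorem phi_zero {G : Type} [Group G] [TopologicalSpace G] {N : G → ℝ} {φ : ℝ → G} (h : Cen N φ) : φ 0 = 1 := by
  have h1 := h.add 0 0
  rw [add_zero] at h1
  exact (mul_eq_left.mp h1.symm)

/-- `φ s` commutes with `u` on the space -/
theorem comm_smul {G : Type} [Group G] [TopologicalSpace G] {N : G → ℝ} {φ : ℝ → G} (h : Cen N φ) {X : Type u}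
    [MulAction G X] (s : ℝ) (v : G) (x : X) : v • φ s • x = φ s • v • x := by
  rw [← mul_smul, ← mul_smul, h.cen]

end ValM

theorem valP (hSlo : S_Slo.{u}) (hNbr : S_Nbr.{u}) (hEqv : S_Eqv.{u}) (hCor : S_Cor.{u}) (hCol : S_Col.{u})
    (hCln : S_Cln.{u}) : S_Val.{u} := by
  intro G _ _ _ _ N φ l A c R S w δ X _ _ _ K q p r t b val g hc x k j u₀ hu₀ hb
  have hn := hc.num
  have hcen := hn.cen
  have hlen := hcen.len
  have hφ0 := ValM.phi_zero hcen
  have hsp : Sp N φ l A (b k j) (b k j) True := fun y v h1 h2 h3 =>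
    ⟨(hc.sep k j j y v h1 h2 h3).1, trivial⟩
  obtain ⟨s₀, u₁, hu1, hN1, hs0, hw⟩ := hCor G N φ l A c R X (b k j) hn (hc.bcont k j) (hc.b01 k j) hsp x u₀ hu₀ hb
  have hApos := hn.Apos
  have hcA := hn.cA
  have hc0 := hn.c0
  have hR0 := hn.R0
  have hN1R : N (1 : G) ≤ R := by rw [hlen.one]; exact hR0
  have h1 := hw 1 hN1R
  rw [one_smul] at h1
  obtain ⟨hh1, hz1⟩ := h1
  obtain ⟨i', hi'⟩ := hCln G N φ l A c R S w δ X K q p r t b val g hc x k (zet N φ (7 / 4 * l) A (b k j) x)
  -- the own colour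
  have own : ∀ (i : Fin p) (v : G) (a : Fin r), N v ≤ R →
      sig N φ (7 / 4 * l) A b g k a (v • φ (t k i' i + zet N φ (7 / 4 * l) A (b k j) x) • x) = val k j i' i a := by
    intro i v a hv
    obtain ⟨hhv, hzv⟩ := hw v hv
    have ht := hc.trange k i' i
    have hcw := hc.cw
    have e1 : (1 : G) • φ 0 • x = x := by rw [hφ0, one_smul, one_smul]
    have e2 : v • φ 0 • x = v • x := by rw [hφ0, one_smul]
    have hd := hNbr G N φ l A c R X (b k j) (b k j) True hn (hc.bcont k j) (hc.b01 k j) (hc.bcont k j) (hc.b01 k j)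
      hsp hsp hsp x 1 v 0 0 hN1R hv (by rw [e1, hh1]; norm_num) (by rw [e2, hhv]; norm_num)
      (by
        rw [e1, e2, add_zero, add_zero]
        have h3 := abs_le.1 hz1
        have h4 := abs_le.1 hzv
        rw [abs_le]
        constructor <;> linarith [h3.1, h3.2, h4.1, h4.2])
    rw [e1, e2, add_zero, add_zero] at hd
    have hd1 := abs_le.1 hd.1
    have h4 := abs_le.1 hzv
    have h5 := abs_le.1 hs0
    have hE := hEqv G N φ l A c R X (b k j) hn (hc.bcont k j) (hc.b01 k j) hsp (v • x)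
      (t k i' i + zet N φ (7 / 4 * l) A (b k j) x) (by rw [hhv]; norm_num)
      (by rw [abs_le]; constructor <;> linarith [h4.1, h4.2, h5.1, h5.2])
      (by rw [abs_le]; constructor <;> linarith [hd1.1, hd1.2, ht.1, ht.2])
    obtain ⟨hE1, hE2⟩ := hE
    rw [hhv] at hE1
    rw [ValM.comm_smul hcen]
    have hC := (hCol G N φ l A c R S w δ X K q p r t b val g hc k a).2.2.2.2
      (φ (t k i' i + zet N φ (7 / 4 * l) A (b k j) x) • v • x) j (by rw [hE1]; norm_num)
      (by rw [hE2, abs_le]; constructor <;> linarith [hd1.1, hd1.2, ht.1, ht.2])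
    rw [hC]
    unfold prg
    rw [hE1, hE2]
    have hg := hc.gval k j a i' i (-(zet N φ (7 / 4 * l) A (b k j) (v • x) -
      (t k i' i + zet N φ (7 / 4 * l) A (b k j) x)))
      (by rw [abs_le]; constructor <;> linarith [hd1.1, hd1.2])
    rw [hg]
    norm_num
  -- the other colours
  have oth : ∀ (i : Fin p) (v : G) (a : Fin r) (k' : Fin K), k' ≠ k → N v ≤ R →
      sig N φ (7 / 4 * l) A b g k' a (v • φ (t k i' i + zet N φ (7 / 4 * l) A (b k j) x) • x) = 0 := by
    intro i v a k' hk' hv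
    by_contra hne
    obtain ⟨j', i'', i2, hh, hz⟩ := (hCol G N φ l A c R S w δ X K q p r t b val g hc k' a).2.2.2.1 _ hne
    exact absurd hz (not_lt.2 (hi' i k' hk' j' v hv hh i'' i2))
  refine ⟨zet N φ (7 / 4 * l) A (b k j) x, s₀, u₁, i', hu1, hN1, hz1, ?_⟩
  intro i v a hv
  have hSR := hc.SR
  have hS0 := hc.S0
  have hvR : N v ≤ R := by nlinarith
  have hmul : ∀ v' : G, N v' ≤ 2 * S → N (v' * v) ≤ R := by
    intro v' hv'
    have h3 := hlen.mul v' v
    nlinarith
  refine ⟨?_, ?_⟩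
  · obtain ⟨hcol1, hcol2, -⟩ := hCol G N φ l A c R S w δ X K q p r t b val g hc k a
    refine (hSlo G N φ X S _ hcen hcol1 hcol2).2.2.2.2 _ _ (own i v a hvR) ?_
    intro v' hv'
    rw [← mul_smul v' v]
    exact (own i (v' * v) a (hmul v' hv')).le
  · intro k' hk'
    obtain ⟨hcol1, hcol2, -⟩ := hCol G N φ l A c R S w δ X K q p r t b val g hc k' a
    refine (hSlo G N φ X S _ hcen hcol1 hcol2).2.2.2.2 _ _ (oth i v a k' hk' hvR) ?_
    intro v' hv'
    rw [← mul_smul v' v]
    exact (oth i (v' * v) a k' hk' (hmul v' hv')).le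

end Pool.Agent.MFG
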