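import Pool.Agent.Lib.MFG.SpecC

/-!
# MP_98850d_an, theorem (C), module Wrd: words which hit the target
-/

set_option autoImplicit false
set_option linter.unusedSectionVars false

open Set Filter Topology

namespace Pool.Agent.MFG

universe u

namespace WrdM

variable {G : Type} [Group G] [TopologicalSpace G]

theorem oneP_zero {N : G → ℝ} {ψ : ℝ → G} (h : OneP N ψ) : ψ 0 = 1 := by
  have h1 := h.add 0 0
  rw [add_zero] at h1
  have h2 : ψ 0 * ψ 0 = ψ 0 * 1 := by rw [mul_one]; exact h1.symm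
  exact mul_left_cancel h2

theorem oneP_neg {N : G → ℝ} {ψ : ℝ → G} (h : OneP N ψ) : OneP N (fun t => ψ (-t)) where
  cont := h.cont.comp continuous_neg
  add s t := by
    have h1 : -(s + t) = -s + -t := by ring
    show ψ (-(s + t)) = ψ (-s) * ψ (-t)
    rw [h1, h.add]
  speed t := by
    have h1 := h.speed (-t)
    rwa [abs_neg] at h1

theorem oneP_inv {N : G → ℝ} {ψ : ℝ → G} (h : OneP N ψ) (t : ℝ) : ψ (-t) = (ψ t)⁻¹ := by
  have h1 := h.add (-t) t
  rw [neg_add_cancel, oneP_zero h] at h1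
  exact eq_inv_of_mul_eq_one_left h1.symm

theorem wd_append {r₁ r₂ : ℕ} (ψ₁ : Fin r₁ → ℝ → G) (ψ₂ : Fin r₂ → ℝ → G) (s₁ : Fin r₁ → ℝ)
    (s₂ : Fin r₂ → ℝ) : wd (Fin.append ψ₁ ψ₂) (Fin.append s₁ s₂) = wd ψ₁ s₁ * wd ψ₂ s₂ := by
  unfold wd
  have h : (fun a => Fin.append ψ₁ ψ₂ a (Fin.append s₁ s₂ a)) =
      Fin.append (fun a => ψ₁ a (s₁ a)) (fun a => ψ₂ a (s₂ a)) := by
    funext a
    refine Fin.addCases (fun i => ?_) (fun i => ?_) a
    · simp only [Fin.append_left]
    · simp only [Fin.append_right]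
  rw [h, List.ofFn_fin_append, List.prod_append]

theorem wd_zero {N : G → ℝ} {r : ℕ} (ψ : Fin r → ℝ → G) (h : ∀ a, OneP N (ψ a)) :
    wd ψ (fun _ => 0) = 1 := by
  unfold wd
  refine List.prod_eq_one fun x hx => ?_
  rw [List.mem_ofFn] at hx
  obtain ⟨a, rfl⟩ := hx
  exact oneP_zero (h a)

/-- words given by lists -/
def Wl (N : G → ℝ) (g : G) : Prop := ∃ L : List ((ℝ → G) × ℝ),
  (∀ p ∈ L, OneP N p.1 ∧ 0 ≤ p.2) ∧ (L.map fun p => p.1 p.2).prod = g

theorem wl_one (N : G → ℝ) : Wl N (1 : G) := ⟨[], by simp, by simp⟩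

theorem wl_mul {N : G → ℝ} {g g' : G} (h : Wl N g) (h' : Wl N g') : Wl N (g * g') := by
  obtain ⟨L, h1, h2⟩ := h
  obtain ⟨L', h1', h2'⟩ := h'
  refine ⟨L ++ L', ?_, ?_⟩
  · intro p hp
    rcases List.mem_append.1 hp with hp | hp
    · exact h1 p hp
    · exact h1' p hp
  · rw [List.map_append, List.prod_append, h2, h2']

theorem wl_inv {N : G → ℝ} {g : G} (h : Wl N g) : Wl N g⁻¹ := by
  obtain ⟨L, h1, h2⟩ := h
  induction L generalizing g with
  | nil =>
    simp only [List.map_nil, List.prod_nil] at h2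
    rw [← h2, inv_one]
    exact wl_one N
  | cons p L ih =>
    rw [List.map_cons, List.prod_cons] at h2
    rw [← h2, mul_inv_rev]
    refine wl_mul (ih (fun q hq => h1 q (List.mem_cons_of_mem _ hq)) rfl) ?_
    have h3 := h1 p List.mem_cons_self
    refine ⟨[(fun t => p.1 (-t), p.2)], ?_, ?_⟩
    · intro q hq
      rw [List.mem_singleton] at hq
      subst hq
      exact ⟨oneP_neg h3.1, h3.2⟩
    · simp only [List.map_cons, List.map_nil, List.prod_cons, List.prod_nil, mul_one]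
      exact oneP_inv h3.1 p.2

theorem wl_all {N : G → ℝ} (hG : GenP N) (g : G) : Wl N g := by
  let H : Subgroup G :=
    { carrier := {g | Wl N g}
      mul_mem' := fun h h' => wl_mul h h'
      one_mem' := wl_one N
      inv_mem' := fun h => wl_inv h }
  have hH : H = ⊤ := by
    apply hG
    intro ψ hψ t
    show Wl N (ψ t)
    rcases le_total 0 t with ht | ht
    · refine ⟨[(ψ, t)], ?_, by simp⟩
      intro q hq
      rw [List.mem_singleton] at hq
      subst hq
      exact ⟨hψ, ht⟩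
    · refine ⟨[(fun u => ψ (-u), -t)], ?_, by simp⟩
      intro q hq
      rw [List.mem_singleton] at hq
      subst hq
      exact ⟨oneP_neg hψ, by show (0 : ℝ) ≤ -t; linarith⟩
  have h1 : g ∈ H := by rw [hH]; exact Subgroup.mem_top g
  exact h1

theorem wd_all {N : G → ℝ} (hG : GenP N) (g : G) : ∃ (r : ℕ) (ψ : Fin r → ℝ → G)
    (s : Fin r → ℝ), (∀ a, OneP N (ψ a)) ∧ (∀ a, 0 ≤ s a) ∧ wd ψ s = g := by
  obtain ⟨L, h1, h2⟩ := wl_all hG g
  refine ⟨L.length, fun a => (L.get a).1, fun a => (L.get a).2,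
    fun a => (h1 _ (List.get_mem L a)).1, fun a => (h1 _ (List.get_mem L a)).2, ?_⟩
  have h : L.map (fun p => p.1 p.2) = List.ofFn (fun a => (L.get a).1 (L.get a).2) := by
    conv_lhs => rw [← List.ofFn_get L]
    rw [List.map_ofFn]
    rfl
  unfold wd
  rw [← h, h2]

end WrdM

open WrdM in
theorem wrdP (hBal : S_Bal) : S_Wrd.{u} := by
  intro G _ _ _ N X _ _ _ _ U hN hG hM hU hne
  have key : ∃ (r : ℕ) (ψ : Fin r → ℝ → G) (S r₀ : ℝ), (∀ a, OneP N (ψ a)) ∧ 0 ≤ S ∧ 0 < r₀ ∧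
      ∀ x ∈ (univ : Set X), ∃ s : Fin r → ℝ, (∀ a, 0 ≤ s a ∧ s a ≤ S) ∧
        ∀ e : G, N e ≤ 2 * r₀ → (wd ψ s * e) • x ∈ U := by
    refine IsCompact.induction_on (p := fun Y : Set X => ∃ (r : ℕ) (ψ : Fin r → ℝ → G)
      (S r₀ : ℝ), (∀ a, OneP N (ψ a)) ∧ 0 ≤ S ∧ 0 < r₀ ∧
      ∀ x ∈ Y, ∃ s : Fin r → ℝ, (∀ a, 0 ≤ s a ∧ s a ≤ S) ∧
        ∀ e : G, N e ≤ 2 * r₀ → (wd ψ s * e) • x ∈ U) isCompact_univ ?_ ?_ ?_ ?_
    · exact ⟨0, Fin.elim0, 0, 1, fun a => a.elim0, le_rfl, one_pos,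
        fun x hx => absurd hx (Set.notMem_empty x)⟩
    · rintro Y Z hYZ ⟨r, ψ, S, r₀, h1, h2, h3, h4⟩
      exact ⟨r, ψ, S, r₀, h1, h2, h3, fun x hx => h4 x (hYZ hx)⟩
    · rintro Y Z ⟨r, ψ, S, r₀, h1, h2, h3, h4⟩ ⟨r', ψ', S', r₀', h1', h2', h3', h4'⟩
      refine ⟨r + r', Fin.append ψ ψ', max S S', min r₀ r₀', ?_, le_max_of_le_left h2,
        lt_min h3 h3', ?_⟩
      · intro a
        refine Fin.addCases (fun i => ?_) (fun i => ?_) a
        · rw [Fin.append_left]; exact h1 i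
        · rw [Fin.append_right]; exact h1' i
      · rintro x (hx | hx)
        · obtain ⟨s, h5, h6⟩ := h4 x hx
          refine ⟨Fin.append s (fun _ => 0), ?_, ?_⟩
          · intro a
            refine Fin.addCases (fun i => ?_) (fun i => ?_) a
            · rw [Fin.append_left]
              exact ⟨(h5 i).1, le_max_of_le_left (h5 i).2⟩
            · rw [Fin.append_right]
              exact ⟨le_rfl, le_max_of_le_left h2⟩
          · intro e he
            rw [wd_append, wd_zero ψ' h1', mul_one]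
            exact h6 e (le_trans he (by nlinarith [min_le_left r₀ r₀']))
        · obtain ⟨s, h5, h6⟩ := h4' x hx
          refine ⟨Fin.append (fun _ => 0) s, ?_, ?_⟩
          · intro a
            refine Fin.addCases (fun i => ?_) (fun i => ?_) a
            · rw [Fin.append_left]
              exact ⟨le_rfl, le_max_of_le_left h2⟩
            · rw [Fin.append_right]
              exact ⟨(h5 i).1, le_max_of_le_right (h5 i).2⟩
          · intro e he
            rw [wd_append, wd_zero ψ h1, one_mul]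
            exact h6 e (le_trans he (by nlinarith [min_le_right r₀ r₀']))
    · intro x _
      obtain ⟨y, ⟨g, rfl⟩, hy⟩ := (hM x).exists_mem_open hU hne
      obtain ⟨r, ψ, s, h1, h2, h3⟩ := wd_all hG g
      have hc : Continuous fun p : G × X => (g * p.1) • p.2 :=
        (continuous_const.mul continuous_fst).smul continuous_snd
      have hO : (fun p : G × X => (g * p.1) • p.2) ⁻¹' U ∈ 𝓝 ((1 : G), x) := by
        apply hc.continuousAt.preimage_mem_nhds
        apply hU.mem_nhds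
        show (g * 1) • x ∈ U
        rw [mul_one]
        exact hy
      rw [nhds_prod_eq, Filter.mem_prod_iff] at hO
      obtain ⟨O, hO1, W, hW, hOW⟩ := hO
      obtain ⟨ρ, hρ, hρO⟩ := hBal G N O hN hO1
      refine ⟨W, by rw [nhdsWithin_univ]; exact hW, r, ψ, ∑ a, s a, ρ / 2, h1,
        Finset.sum_nonneg fun a _ => h2 a, by positivity, ?_⟩
      intro x' hx'
      refine ⟨s, fun a => ⟨h2 a, Finset.single_le_sum (fun b _ => h2 b) (Finset.mem_univ a)⟩, ?_⟩
      intro e he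
      rw [h3]
      have h4 : e ∈ O := hρO e (by linarith)
      exact hOW (Set.mk_mem_prod h4 hx')
  obtain ⟨r, ψ, S, r₀, h1, h2, h3, h4⟩ := key
  exact ⟨r, ψ, S, r₀, h1, h2, h3, fun x => h4 x (mem_univ x)⟩

end Pool.Agent.MFG
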