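import Pool.Agent.Lib.MFG.BxG
import Pool.Agent.Lib.MFG.DA
import Pool.Agent.Lib.MFG.Pka
import Pool.Agent.Lib.MFG.Slo
import Pool.Agent.Lib.MFG.Hm
import Pool.Agent.Lib.MFG.Ev
import Pool.Agent.Lib.MFG.Cmp
import Pool.Agent.Lib.MFG.Bt
import Pool.Agent.Lib.MFG.Uq
import Pool.Agent.Lib.MFG.Nbr
import Pool.Agent.Lib.MFG.Eqv
import Pool.Agent.Lib.MFG.Cor
import Pool.Agent.Lib.MFG.Prg
import Pool.Agent.Lib.MFG.Col
import Pool.Agent.Lib.MFG.Gfn
import Pool.Agent.Lib.MFG.Sid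
import Pool.Agent.Lib.MFG.Cln
import Pool.Agent.Lib.MFG.Val
import Pool.Agent.Lib.MFG.Hit
import Pool.Agent.Lib.MFG.Bal
import Pool.Agent.Lib.MFG.Wrd
import Pool.Agent.Lib.MFG.Nb2
import Pool.Agent.Lib.MFG.FldG
import Pool.Agent.Lib.MFG.FreG
import Pool.Agent.Lib.MFG.ManG
import Pool.Agent.Lib.MFG.Lin
import Pool.Agent.Lib.MFG.LinP
import Pool.Agent.Lib.MFG.LinO
import Pool.Agent.Lib.MFG.Prod

/-!
# MP_98850d_an, theorem (C): the assembly
-/

set_option autoImplicit false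

namespace Pool.Agent.MFG

universe u

theorem mainP : S_Prod.{u} := by
  have hUq : S_Uq.{u} := uqP dAP btP
  have hNbr : S_Nbr.{u} := nbrP btP hUq
  have hEqv : S_Eqv.{u} := eqvP btP hUq
  have hCor : S_Cor.{u} := corP dAP btP hUq
  have hPrg : S_Prg.{u} := prgP btP hEqv
  have hCol : S_Col.{u} := colP hNbr hPrg
  have hVal : S_Val.{u} := valP sloP hNbr hEqv hCor hCol (clnP hNbr)
  have hHit : S_Hit.{u} := hitP evP sloP hCol hVal
  have hFldG : S_FldG.{u} :=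
    fldGP bxGP dAP (pkaP dAP) sloP hmP cmpP gfnP sidP hCol hHit (wrdP balP) nb2P
  exact prodP (manGP (freGP hFldG balP)) linP linPP linOP

end Pool.Agent.MFG
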