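import Pool.Agent.Lib.MFG.SpecB

set_option autoImplicit false
open Set Filter Topology
namespace Pool.Agent.MFG
universe u

namespace SidM

/-- Smaller exponent, four times smaller power. -/
theorem pw (x y : ℕ) (h : x < y) : 4 * 4 ^ x ≤ 4 ^ y := by
  have h1 : 4 * 4 ^ x = 4 ^ (x + 1) := by ring
  rw [h1]
  exact Nat.pow_le_pow_right (by norm_num) h

/-- Sums of two powers of four determine the exponents. -/
theorem four (a c b d : ℕ) (hab : a ≠ b) (had : a ≠ d) : 4 ^ a + 4 ^ c ≠ 4 ^ b + 4 ^ d := by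
  intro h
  have hA : 0 < 4 ^ a := by positivity
  have hB : 0 < 4 ^ b := by positivity
  have hC : 0 < 4 ^ c := by positivity
  have hD : 0 < 4 ^ d := by positivity
  rcases eq_or_ne c b with hcb | hcb
  · subst hcb
    have h2 : 4 ^ a = 4 ^ d := by omega
    exact had (Nat.pow_right_injective (le_refl 4 |>.trans' (by norm_num)) h2)
  rcases eq_or_ne c d with hcd | hcd
  · subst hcd
    have h2 : 4 ^ a = 4 ^ b := by omega
    exact hab (Nat.pow_right_injective (le_refl 4 |>.trans' (by norm_num)) h2)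
  rcases lt_or_gt_of_ne hab with h1 | h1 <;> rcases lt_or_gt_of_ne had with h2 | h2 <;>
    rcases lt_or_gt_of_ne hcb with h3 | h3 <;> rcases lt_or_gt_of_ne hcd with h4 | h4 <;>
    (have g1 := pw _ _ h1
     have g2 := pw _ _ h2
     have g3 := pw _ _ h3
     have g4 := pw _ _ h4
     generalize 4 ^ a = A at *
     generalize 4 ^ b = B at *
     generalize 4 ^ c = C at *
     generalize 4 ^ d = D at *
     omega)

/-- The real form of `four`: the difference has absolute value at least one. -/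
theorem fourR (a c b d : ℕ) (hab : a ≠ b) (had : a ≠ d) :
    1 ≤ |((4 : ℝ) ^ a + 4 ^ c) - (4 ^ b + 4 ^ d)| := by
  have h1 : (((4 ^ a + 4 ^ c : ℕ) : ℤ) - ((4 ^ b + 4 ^ d : ℕ) : ℤ)) ≠ 0 := by
    intro h
    have h2 : ((4 ^ a + 4 ^ c : ℕ) : ℤ) = ((4 ^ b + 4 ^ d : ℕ) : ℤ) := by linarith
    exact four a c b d hab had (by exact_mod_cast h2)
  have h3 : (1 : ℤ) ≤ |(((4 ^ a + 4 ^ c : ℕ) : ℤ) - ((4 ^ b + 4 ^ d : ℕ) : ℤ))| :=
    Int.one_le_abs h1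
  have h4 : ((1 : ℤ) : ℝ) ≤ ((|(((4 ^ a + 4 ^ c : ℕ) : ℤ) - ((4 ^ b + 4 ^ d : ℕ) : ℤ))| : ℤ) : ℝ) := by
    exact_mod_cast h3
  have h5 : ((|(((4 ^ a + 4 ^ c : ℕ) : ℤ) - ((4 ^ b + 4 ^ d : ℕ) : ℤ))| : ℤ) : ℝ) =
      |((4 : ℝ) ^ a + 4 ^ c) - (4 ^ b + 4 ^ d)| := by
    push_cast
    rfl
  rw [h5] at h4
  simpa using h4

/-- Different exponents, powers of four at distance at least one. -/
theorem twoR (a b : ℕ) (hab : a ≠ b) : 1 ≤ |(4 : ℝ) ^ a - 4 ^ b| := by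
  have h1 : (((4 ^ a : ℕ) : ℤ) - ((4 ^ b : ℕ) : ℤ)) ≠ 0 := by
    intro h
    have h2 : ((4 ^ a : ℕ) : ℤ) = ((4 ^ b : ℕ) : ℤ) := by linarith
    have h3 : 4 ^ a = 4 ^ b := by exact_mod_cast h2
    exact hab (Nat.pow_right_injective (by norm_num) h3)
  have h3 : (1 : ℤ) ≤ |(((4 ^ a : ℕ) : ℤ) - ((4 ^ b : ℕ) : ℤ))| := Int.one_le_abs h1
  have h4 : ((1 : ℤ) : ℝ) ≤ ((|(((4 ^ a : ℕ) : ℤ) - ((4 ^ b : ℕ) : ℤ))| : ℤ) : ℝ) := by
    exact_mod_cast h3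
  have h5 : ((|(((4 ^ a : ℕ) : ℤ) - ((4 ^ b : ℕ) : ℤ))| : ℤ) : ℝ) = |(4 : ℝ) ^ a - 4 ^ b| := by
    push_cast
    rfl
  rw [h5] at h4
  simpa using h4

/-- The exponents determine the pair. -/
theorem einj (K : ℕ) (k i' k' i'' : Fin K)
    (h : K * (k : ℕ) + (i' : ℕ) + 1 = K * (k' : ℕ) + (i'' : ℕ) + 1) : k = k' ∧ i' = i'' := by
  have hK : 0 < K := lt_of_le_of_lt (Nat.zero_le _) k.isLt
  have h1 : K * (k : ℕ) + (i' : ℕ) = K * (k' : ℕ) + (i'' : ℕ) := by omega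
  have h2 : (K * (k : ℕ) + (i' : ℕ)) / K = (K * (k' : ℕ) + (i'' : ℕ)) / K := by rw [h1]
  rw [Nat.mul_add_div hK, Nat.mul_add_div hK, Nat.div_eq_of_lt i'.isLt, Nat.div_eq_of_lt i''.isLt] at h2
  have h3 : (k : ℕ) = (k' : ℕ) := by simpa using h2
  refine ⟨Fin.ext h3, Fin.ext ?_⟩
  rw [h3] at h1
  omega

end SidM

open SidM in
/-- The windows exist. -/
theorem sidP : S_Sid := by
  intro K p w c hc hw
  have hp : (0 : ℝ) ≤ (p : ℝ) := Nat.cast_nonneg p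
  have hwp : 0 ≤ w * p := mul_nonneg hw.le hp
  obtain ⟨L, hL⟩ : ∃ L : ℝ, L = 2 * (2 * (w * p) + w + 2 * c) + 1 + 2 * w := ⟨_, rfl⟩
  have hL0 : 0 < L := by rw [hL]; linarith
  have hiw : ∀ i : Fin p, 0 ≤ w * (i : ℕ) ∧ w * ((i : ℕ) : ℝ) ≤ w * p := by
    intro i
    refine ⟨mul_nonneg hw.le (Nat.cast_nonneg _), mul_le_mul_of_nonneg_left ?_ hw.le⟩
    exact_mod_cast i.isLt.le
  refine ⟨fun k i' i => L * 4 ^ (K * (k : ℕ) + (i' : ℕ) + 1) + 2 * (w * (i : ℕ)),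
    L * 4 ^ (K * K + 1) + 2 * (w * p) + w, ?_, ?_, ?_, ?_⟩
  · have : 0 < L * 4 ^ (K * K + 1) := by positivity
    linarith
  · intro k i' i
    obtain ⟨h1, h2⟩ := hiw i
    have hone : (1 : ℝ) ≤ 4 ^ (K * (k : ℕ) + (i' : ℕ) + 1) := one_le_pow₀ (by norm_num)
    have hlow : L ≤ L * 4 ^ (K * (k : ℕ) + (i' : ℕ) + 1) := by nlinarith
    have hexp : K * (k : ℕ) + (i' : ℕ) + 1 ≤ K * K + 1 := by
      have hk : (k : ℕ) + 1 ≤ K := k.isLt
      have hi : (i' : ℕ) < K := i'.isLt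
      have : K * ((k : ℕ) + 1) ≤ K * K := Nat.mul_le_mul_left K hk
      rw [Nat.mul_add, Nat.mul_one] at this
      omega
    have hhi : (4 : ℝ) ^ (K * (k : ℕ) + (i' : ℕ) + 1) ≤ 4 ^ (K * K + 1) :=
      pow_le_pow_right₀ (by norm_num) hexp
    have hhi2 : L * 4 ^ (K * (k : ℕ) + (i' : ℕ) + 1) ≤ L * 4 ^ (K * K + 1) :=
      mul_le_mul_of_nonneg_left hhi hL0.le
    refine ⟨?_, ?_⟩
    · have : w ≤ L := by rw [hL]; linarith
      show w ≤ L * 4 ^ (K * (k : ℕ) + (i' : ℕ) + 1) + 2 * (w * (i : ℕ))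
      linarith
    · show L * 4 ^ (K * (k : ℕ) + (i' : ℕ) + 1) + 2 * (w * (i : ℕ)) + w ≤ _
      linarith
  · intro k i' i i'' i2 hne
    show 2 * w ≤ |L * 4 ^ (K * (k : ℕ) + (i' : ℕ) + 1) + 2 * (w * (i : ℕ)) -
      (L * 4 ^ (K * (k : ℕ) + (i'' : ℕ) + 1) + 2 * (w * (i2 : ℕ)))|
    obtain ⟨h1, h2⟩ := hiw i
    obtain ⟨h3, h4⟩ := hiw i2
    rcases eq_or_ne i' i'' with hi | hi
    · subst hi
      have hii : i ≠ i2 := fun h => hne (by rw [h])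
      have hii' : ((i : ℕ) : ℤ) - ((i2 : ℕ) : ℤ) ≠ 0 := by
        intro h
        apply hii
        apply Fin.ext
        have : ((i : ℕ) : ℤ) = ((i2 : ℕ) : ℤ) := by linarith
        exact_mod_cast this
      have h5 : (1 : ℤ) ≤ |((i : ℕ) : ℤ) - ((i2 : ℕ) : ℤ)| := Int.one_le_abs hii'
      have h6 : (1 : ℝ) ≤ |((i : ℕ) : ℝ) - ((i2 : ℕ) : ℝ)| := by exact_mod_cast h5
      have h7 : L * 4 ^ (K * (k : ℕ) + (i' : ℕ) + 1) + 2 * (w * (i : ℕ)) -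
          (L * 4 ^ (K * (k : ℕ) + (i' : ℕ) + 1) + 2 * (w * (i2 : ℕ))) =
          (2 * w) * (((i : ℕ) : ℝ) - ((i2 : ℕ) : ℝ)) := by ring
      rw [h7, abs_mul, abs_of_pos (by linarith : (0 : ℝ) < 2 * w)]
      nlinarith
    · have hee : K * (k : ℕ) + (i' : ℕ) + 1 ≠ K * (k : ℕ) + (i'' : ℕ) + 1 :=
        fun h => hi (einj K k i' k i'' h).2
      have h5 := twoR _ _ hee
      have h6 : L ≤ |L * (4 ^ (K * (k : ℕ) + (i' : ℕ) + 1) - 4 ^ (K * (k : ℕ) + (i'' : ℕ) + 1))| := by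
        rw [abs_mul, abs_of_pos hL0]
        nlinarith
      have h7 : |L * (4 ^ (K * (k : ℕ) + (i' : ℕ) + 1) - 4 ^ (K * (k : ℕ) + (i'' : ℕ) + 1))| ≤
          |L * 4 ^ (K * (k : ℕ) + (i' : ℕ) + 1) + 2 * (w * (i : ℕ)) -
            (L * 4 ^ (K * (k : ℕ) + (i'' : ℕ) + 1) + 2 * (w * (i2 : ℕ)))| + 2 * (w * p) := by
        have h8 : L * (4 ^ (K * (k : ℕ) + (i' : ℕ) + 1) - 4 ^ (K * (k : ℕ) + (i'' : ℕ) + 1)) =
            (L * 4 ^ (K * (k : ℕ) + (i' : ℕ) + 1) + 2 * (w * (i : ℕ)) -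
            (L * 4 ^ (K * (k : ℕ) + (i'' : ℕ) + 1) + 2 * (w * (i2 : ℕ)))) +
            (2 * (w * (i2 : ℕ)) - 2 * (w * (i : ℕ))) := by ring
        rw [h8]
        refine (abs_add_le _ _).trans ?_
        have h9 : |2 * (w * ((i2 : ℕ) : ℝ)) - 2 * (w * ((i : ℕ) : ℝ))| ≤ 2 * (w * p) := by
          rw [abs_le]
          constructor <;> linarith
        linarith
      rw [hL] at h6
      rw [hL] at h7
      rw [hL]
      linarith
  · intro k d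
    by_contra hcon
    push Not at hcon
    choose f hfk i i'' i2 hf using hcon
    have hinj : Function.Injective f := by
      intro a b hab
      by_contra hne
      have h1 := hf a
      have h2 := hf b
      have hka := hfk a
      have hkb := hfk b
      rw [← hab] at h2 hkb
      have e1 : K * (k : ℕ) + (a : ℕ) + 1 ≠ K * (k : ℕ) + (b : ℕ) + 1 :=
        fun h => hne (einj K k a k b h).2
      have e2 : K * (k : ℕ) + (a : ℕ) + 1 ≠ K * (f a : ℕ) + (i'' a : ℕ) + 1 :=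
        fun h => hka (einj K k a (f a) (i'' a) h).1.symm
      have h3 := fourR (K * (k : ℕ) + (a : ℕ) + 1) (K * (f a : ℕ) + (i'' b : ℕ) + 1)
        (K * (k : ℕ) + (b : ℕ) + 1) (K * (f a : ℕ) + (i'' a : ℕ) + 1) e1 e2
      obtain ⟨ga1, ga2⟩ := hiw (i a)
      obtain ⟨ga3, ga4⟩ := hiw (i2 a)
      obtain ⟨gb1, gb2⟩ := hiw (i b)
      obtain ⟨gb3, gb4⟩ := hiw (i2 b)
      rw [abs_le] at h1 h2
      obtain ⟨h11, h12⟩ := h1
      obtain ⟨h21, h22⟩ := h2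
      generalize (4 : ℝ) ^ (K * (k : ℕ) + (a : ℕ) + 1) = A at *
      generalize (4 : ℝ) ^ (K * (k : ℕ) + (b : ℕ) + 1) = B at *
      generalize (4 : ℝ) ^ (K * (f a : ℕ) + (i'' a : ℕ) + 1) = A' at *
      generalize (4 : ℝ) ^ (K * (f a : ℕ) + (i'' b : ℕ) + 1) = B' at *
      have h4 : L ≤ |L * ((A + B') - (B + A'))| := by
        rw [abs_mul, abs_of_pos hL0]
        nlinarith
      have h5 : |L * ((A + B') - (B + A'))| ≤ 2 * (2 * (w * p) + w + 2 * c) := by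
        rw [abs_le]
        constructor <;> nlinarith
      linarith
    obtain ⟨a, ha⟩ := (Finite.injective_iff_surjective.1 hinj) k
    exact hfk a ha

end Pool.Agent.MFG
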