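import Pool.Agent.Lib.MFG.DefsA

/-!
# MP_98850d_an, theorem (C), part A: boxes of bounded multiplicity for free actions of a group

Target: `S_BxG` (in `MFG/Defs.lean`).  This is the group version of `MP_98850d_an/SpecA.lean`; the old files
`Pool/Agent/Lib/MP_98850d_an/X.lean` (namespace `Pool.Agent.MP98850d`) can be COPIED with the replacements

  `E n` → `G`, `a u x` → `u • x`, `a (u + v) x` → `(u * v) • x`, `‖u‖` → `D u`, `‖v - w‖` → `D (v * w⁻¹)`,
  `a (v - u) (a u x) = a v x` → `(v * u⁻¹) • (u • x) = v • x` (`act_sub`), `0` → `1`, `-u` → `u⁻¹`,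
  `Metric.closedBall c r` → `{u | D (u * c⁻¹) ≤ r}` (compact: `Len.cptc`), `Cls a` → `Cls D`, and so on,
  `norm_add_le`, `norm_sub_le` → `Len.mul`, `Len.tri`, `Len.le_add`, `Len.symm`, `Len.inv`, `Len.one`, `Len.nonneg`.

Lemmas on `hgt`, `om`, `kap`, compact balls (same names as before, first argument `h : Len D`) are in `MFG/DefsA.lean`.
Every `S_...` is proved in its own file `Pool/Agent/Lib/MFG/A/....lean`; the docstring contains the complete proof.
`S_Cube`, `S_Bmp`, `S_UB` are the old statements `Pool.Agent.MP98850d.S_Cube` etc. (already proved).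
-/

set_option autoImplicit false

namespace Pool.Agent.MFG

open Set Filter Topology

universe u

/-! ## Local sections and a finite dimensional family of functions -/

/-- (about 40 lines) **Small neighbourhoods.**

Proof.  The set `{(x, y, u) | u • x ≠ y}` is open in `X × X × G`.  For `u ∈ C` it contains `(x0, x0, u)`, because `u • x0 = x0` would
give `u = 1 ∈ C` (free action).  By compactness of `C` (`IsCompact.eventually_forall_of_forall_eventually`) for all `(x, y)` near `(x0, x0)`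
and all `u ∈ C`: `u • x ≠ y`.  Take an open `V ∋ x0` with `V ×ˢ V` in this neighbourhood (`mem_nhds_prod_iff`, intersect two sets). -/
def S_Nbd : Prop :=
  ∀ (G : Type) [Group G] [TopologicalSpace G] [IsTopologicalGroup G] [T2Space G] (X : Type u) [MetricSpace X]
    [MulAction G X] [ContinuousSMul G X] (C : Set G) (x0 : X), FreeG G X → IsCompact C → (1 : G) ∉ C →
    ∃ V : Set X, IsOpen V ∧ x0 ∈ V ∧ ∀ x ∈ V, ∀ u ∈ C, u • x ∉ V

/-- (about 120 lines; uses `S_Nbd`) **Equivariant coordinates near a point.**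

Proof.  Let `V, O, p` be from `LSec` at `x0`.  `C = {u | D u ≤ 2 Q} \ interior O` is compact and `1 ∉ C` (`O ∈ 𝓝 1`), so `S_Nbd` gives an
open `V' ∋ x0` with `u • x ∉ V'` for `x ∈ V'`, `u ∈ C`.  Let `D0` be a compact (closed) neighbourhood of `x0` contained in `V ∩ V'` (`X` compact
metric: `local_compact_nhds`).  So
(*) `x ∈ D0`, `v • x ∈ D0`, `D v ≤ 2 Q` imply `v ∈ O` and `p (v • x) = p x * v⁻¹`.
`Γ = {u | D u ≤ Q}`, `K0 = (fun z => z.1 • z.2) '' (Γ ×ˢ D0)`, compact.  (**) If `u • x = u' • x'` with `u, u' ∈ Γ`, `x, x' ∈ D0` then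
`x' = (u'⁻¹ * u) • x`, `D (u'⁻¹ * u) ≤ 2 Q`, so by (*) `p x' = p x * (u'⁻¹ * u)⁻¹ = p x * u⁻¹ * u'`, i.e. `p x' * u'⁻¹ = p x * u⁻¹`.  So there is
`P : X → G` with `P (u • x) = p x * u⁻¹` for all `u ∈ Γ`, `x ∈ D0` (define it by choice); `1 ∈ Γ` (`Q ≥ 0`), so `P x = p x` on `D0` and
`P (u • x) = P x * u⁻¹`.  `P` is continuous on `K0`: the map `π : Γ ×ˢ D0 → K0`, `(u, x) ↦ u • x`, is a continuous surjection from a compact
space to a Hausdorff space, so a quotient map (`Continuous.isClosedMap`, `IsClosedMap.isQuotientMap`), and `P ∘ π = (u, x) ↦ p x * u⁻¹` is continuous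
(`p` is continuous on `V ⊇ D0`).  (Work with the subtypes `↥Γ × ↥D0` and `↥K0`; `continuousOn_iff_continuous_restrict`.) -/
def S_LocP : Prop :=
  ∀ (G : Type) [Group G] [TopologicalSpace G] [IsTopologicalGroup G] [T2Space G] (D : G → ℝ), Len D →
    ∀ (X : Type u) [MetricSpace X] [CompactSpace X] [MulAction G X] [ContinuousSMul G X] (Q : ℝ) (x0 : X), FreeG G X → LSec G X →
      0 ≤ Q → ∃ D0 ∈ 𝓝 x0, ∃ K0 : Set X, IsCompact K0 ∧ ∃ P : X → G, ContinuousOn P K0 ∧
        ∀ x ∈ D0, ∀ u : G, D u ≤ Q → u • x ∈ K0 ∧ P (u • x) = P x * u⁻¹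

/-- (about 80 lines) **Approximation by functions which are Lipschitz for a distance function.**

Proof.  `ρ ≥ 0` (`0 = ρ x x ≤ 2 ρ x y`).  We may assume that `Y` is nonempty.  For `L > 0` let `g x = ⨅ y, (f y + L * ρ x y)` (bounded below: `f` is bounded,
`|f| ≤ M`).  `g x ≤ f x`; `|g x - g x'| ≤ L * ρ x x'` by the triangle inequality.  There is `δ > 0` with `ρ x y < δ → |f x - f y| < τ / 2`: the set
`{(x, y) | τ / 2 ≤ |f x - f y|}` is compact and `ρ > 0` on it (`ρ x y = 0` gives `x = y`), so `ρ` has a positive minimum there (or the set is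
empty).  Let `L > 2 M / δ`.  If `f y + L * ρ x y ≤ f x` then `ρ x y ≤ 2 M / L < δ`, so `f y ≥ f x - τ / 2`.  So every `f y + L * ρ x y` is at least
`f x - τ / 2`, and `f x - τ / 2 ≤ g x ≤ f x`.  (Compare `MP_98850d_an/Lip.lean`.) -/
def S_Lip : Prop :=
  ∀ (Y : Type u) [TopologicalSpace Y] [CompactSpace Y] (ρ : Y → Y → ℝ) (f : Y → ℝ) (τ : ℝ),
    Continuous (fun p : Y × Y => ρ p.1 p.2) → (∀ x, ρ x x = 0) → (∀ x y, ρ x y = ρ y x) → (∀ x y z, ρ x z ≤ ρ x y + ρ y z) →
    (∀ x y, ρ x y = 0 → x = y) → Continuous f → 0 < τ →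
    ∃ (g : Y → ℝ) (L : ℝ), 0 < L ∧ Continuous g ∧ (∀ x y, |g x - g y| ≤ L * ρ x y) ∧ ∀ x, |f x - g x| < τ

/-- (about 60 lines) **Extension with a small error** (Tietze).

Proof.  `h = g - b` on the compact, so closed, set `K0` is continuous with values in `[-τ, τ]`; extend it to a continuous `H : X → ℝ` with values in
`[-τ, τ]` (`ContinuousMap.exists_extension_forall_mem` / `exists_restrict_eq_forall_mem_of_closed` for the order connected set `Icc (-τ) τ`, `X` is
normal), `b' = b + H`. -/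
def S_Tie : Prop :=
  ∀ (X : Type u) [MetricSpace X] (K0 : Set X) (b : X → ℝ) (g : K0 → ℝ) (τ : ℝ), IsCompact K0 → Continuous b → Continuous g → 0 ≤ τ →
    (∀ x : K0, |g x - b x| ≤ τ) →
    ∃ b' : X → ℝ, Continuous b' ∧ (∀ x, |b' x - b x| ≤ τ) ∧ ∀ x : K0, b' x = g x

/-- (about 150 lines; uses `S_Cube`, `S_Lip`, `S_Tie`) **The covering property is dense.**

Proof.  On the compact space `Y = ↥K0` let `χ y = (P y, ι (P y • y))` and
`ρ y y' = max (N (P y * (P y')⁻¹)) (dist (ι (P y • y)) (ι (P y' • y')))`: continuous, symmetric (`Len.symm`), triangle inequality (`Len.tri`, `max`), and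
`ρ y y' = 0` implies `P y = P y'` (`N` vanishes only at `1`) and `P y • y = P y' • y'` (`ι` injective), so `y = y'`.  `S_Lip` (with `τ / 2`) gives
`g j`, `L j`, `S_Tie` gives continuous `b' j` with `|b' j - b j| ≤ τ / 2` and `b' j = g j` on `K0`; `L = max (L j)`, or `L = 1 + ∑ L j` (`L > 0` also for `q = 0`).
For `x ∈ D0`, `D u ≤ Q`: `P (u • x) • (u • x) = (P x * u⁻¹) • (u • x) = P x • x`, and
`P (u • x) * (P (u • x'))⁻¹ = P x * u⁻¹ * (P x' * u⁻¹)⁻¹ = P x * (P x')⁻¹`.  So for `x, x' ∈ D0`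
`|b' j (u • x) - b' j (u • x')| ≤ L * max (N (P x * (P x')⁻¹)) (dist (ι (P x • x)) (ι (P x' • x')))`.
Let `M ≥ 0` bound `N (P y)`, `y ∈ K0` (compact), and `‖ι y‖`, `y ∈ X` (compact), `C1` from `Pol N n` for `M`, `C2` from `S_Cube` for `(m, M)`.  For
`0 < ε ≤ 1` the sets `{x ∈ D0 | P x ∈ B i, ι (P x • x) ∈ B' i'}` cover `D0`, there are at most `(C1/ε)^n (C2/ε)^m` of them, and the functions
oscillate by at most `L * ε` on them.  With `ε i = L * ε` the sum is at most `C1^n C2^m L^(n+m+1) ε`, less than `η` for small `ε`.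
(Compare `MP_98850d_an/CovD.lean`.) -/
def S_CovD : Prop :=
  ∀ (G : Type) [Group G] [TopologicalSpace G] [IsTopologicalGroup G] [T2Space G] (N : G → ℝ) (n m q : ℕ), Len N → Pol N n →
    ∀ (D : G → ℝ) (X : Type u) [MetricSpace X] [CompactSpace X] [MulAction G X] [ContinuousSMul G X] (ι : X → E m) (Q : ℝ)
      (D0 K0 : Set X) (P : X → G) (b : Fin q → X → ℝ) (τ η : ℝ), Continuous ι → Function.Injective ι → IsCompact K0 →
      ContinuousOn P K0 → D0 ⊆ K0 → (∀ x ∈ D0, ∀ u : G, D u ≤ Q → u • x ∈ K0 ∧ P (u • x) = P x * u⁻¹) →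
      (∀ j, Continuous (b j)) → 0 < τ → 0 < η →
      ∃ b' : Fin q → X → ℝ, (∀ j, Continuous (b' j)) ∧ (∀ j x, |b' j x - b j x| < τ) ∧ Cov D Q b' D0 (n + m + 1) η

/-- (about 60 lines) **The covering property is open and additive.**

Proof (copy of `MP_98850d_an/CovO.lean`).  (1) Keep `B`, replace `ε i` by `ε i + 2 τ`; the sum `∑ (ε i + 2 τ)^N` is a continuous function of `τ`,
less than `η` at `τ = 0`.  (2) The index type is the sum type. -/
def S_CovO : Prop :=
  ∀ (G : Type) [Group G] (D : G → ℝ) (q : ℕ) (X : Type u) [MulAction G X] (Q : ℝ) (N : ℕ),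
    (∀ (b : Fin q → X → ℝ) (S : Set X) (η : ℝ), Cov D Q b S N η → ∃ τ : ℝ, 0 < τ ∧
      ∀ b' : Fin q → X → ℝ, (∀ j x, |b' j x - b j x| ≤ τ) → Cov D Q b' S N η) ∧
    ∀ (b : Fin q → X → ℝ) (S S' : Set X) (η η' : ℝ), Cov D Q b S N η → Cov D Q b S' N η' → Cov D Q b (S ∪ S') N (η + η')

/-- (about 100 lines; uses `S_LocP`, `S_CovD`, `S_CovO`) **Approximation by functions with the covering property.**

Proof.  By `S_LocP` and compactness `X` is covered by finitely many sets `D_1, ..., D_K` with equivariant coordinates `(K0, P)` (`u = 1`, `Q ≥ 0`: `D_i ⊆ K0`).  Show by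
induction on `k ≤ K`, for all `b, τ, η`: there is `b'` with `|b' - b| < τ` and `Cov` on `D_1 ∪ ... ∪ D_k` with bound `η`.  (For `k = 0`: `b' = b`, no
sets.)  Step: apply the induction hypothesis with `τ/2`, `η/2` to get `b1`, let `τ1` be from `S_CovO` (1) for it, apply `S_CovD` to `b1` with
`min (τ/2) τ1`, `η/2`, and use `S_CovO` (2).  (Compare `MP_98850d_an/NF.lean`.) -/
def S_NF : Prop :=
  ∀ (G : Type) [Group G] [TopologicalSpace G] [IsTopologicalGroup G] [T2Space G] (N : G → ℝ) (n m q : ℕ), Len N → Pol N n →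
    ∀ (D : G → ℝ), Len D → ∀ (X : Type u) [MetricSpace X] [CompactSpace X] [MulAction G X] [ContinuousSMul G X] (ι : X → E m)
      (Q : ℝ) (b : Fin q → X → ℝ) (τ η : ℝ), FreeG G X → LSec G X → Continuous ι → Function.Injective ι → 0 ≤ Q →
      (∀ j, Continuous (b j)) → 0 < τ → 0 < η →
      ∃ b' : Fin q → X → ℝ, (∀ j, Continuous (b' j)) ∧ (∀ j x, |b' j x - b j x| < τ) ∧ Cov D Q b' univ (n + m + 1) η

/-- (about 100 lines; uses `S_Nbd`, `S_NF`, `Pool.Agent.MP98850d.S_Bmp`) **The types.**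

Proof.  For `z : X` let `V_z` be the intersection of `interior (O z)` with the open set of `S_Nbd` for `C = {u | r ≤ D u ∧ D u ≤ 20}` (compact: `Len.cpt_shell`; `1 ∉ C`
as `D 1 = 0 < r`): open, `z ∈ V_z`, `Cls D r 20 V_z`, `V_z ⊆ O z`.  `X` is compact: finitely many `V j = V_(z j)`, `j : Fin q`, cover `X`.  Let `β` be from
`S_Bmp`.  For given `Q, η` let `β'` be from `S_NF` with `τ = 1/16`, and `b j x = max 0 (min 1 (β' j x - 1/16))`.  `b j x > 0` implies `β j x > 0`, so `x ∈ V j`;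
`β j x = 1` implies `b j x ≥ 7/8`.  `Cov` passes from `β'` to `b` as `t ↦ max 0 (min 1 (t - 1/16))` is `1`-Lipschitz.  (Compare `MP_98850d_an/Typ.lean`.) -/
def S_Typ : Prop :=
  ∀ (G : Type) [Group G] [TopologicalSpace G] [IsTopologicalGroup G] [T2Space G] (N : G → ℝ) (n m : ℕ), Len N → Pol N n →
    ∀ (D : G → ℝ), Len D → ∀ (X : Type u) [MetricSpace X] [CompactSpace X] [MulAction G X] [ContinuousSMul G X] (ι : X → E m)
      (O : X → Set X) (r : ℝ), FreeG G X → LSec G X → Continuous ι → Function.Injective ι → (∀ z, O z ∈ 𝓝 z) → 0 < r →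
      ∃ (q : ℕ) (z : Fin q → X), ∀ Q η : ℝ, 0 ≤ Q → 0 < η → ∃ b : Fin q → X → ℝ, Bas D r b ∧ (∀ j x, 0 < b j x → x ∈ O (z j)) ∧
        (∀ x, ∃ j, 3 / 4 < b j x) ∧ Cov D Q b univ (n + m + 1) η

/-! ## Choice of the parameters -/

/-- (about 80 lines) **`val1`, `val2` are `1`-Lipschitz.**

Proof (copy of `MP_98850d_an/ValL.lean`).  Suprema over a nonempty compact set (`Len.cptc`; `c` resp. `(c, c')` belongs to it) of functions of `u` (of `(u, v)`) which differ by at
most `ε` (`min` is `1`-Lipschitz in every argument; `kap` is the same for `x` and `x'`; all `u` which occur satisfy `D u ≤ D (u * c⁻¹) + D c ≤ Q`, `Len.le_add`). -/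
def S_ValL : Prop :=
  ∀ (G : Type) [Group G] [TopologicalSpace G] [IsTopologicalGroup G] [T2Space G] (D : G → ℝ), Len D →
    ∀ (X : Type u) [MetricSpace X] [MulAction G X] [ContinuousSMul G X] (r W Q ε : ℝ) (b b' : X → ℝ) (c c' : G) (x x' : X),
      0 ≤ r → 0 ≤ ε → Continuous b → Continuous b' → D c + 3 * r ≤ Q → D c' + 3 * r ≤ Q →
      (∀ u : G, D u ≤ Q → |b (u • x) - b (u • x')| ≤ ε) → (∀ u : G, D u ≤ Q → |b' (u • x) - b' (u • x')| ≤ ε) →
      |val1 D r b c x - val1 D r b c x'| ≤ ε ∧ |val2 D r W b b' c c' x - val2 D r W b b' c c' x'| ≤ ε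

/-- (about 120 lines) **`hgt` and `om` are values at the points of a net.**

Proof (copy of `MP_98850d_an/NetV.lean`).  (1) `hgt D r b (u1 • x)` is the supremum of `b (u • x)` over `D (u * u1⁻¹) ≤ r` (`u = p * u1`), and these `u` satisfy
`D (u * c⁻¹) ≤ 2 r`.  Conversely let `D (u * c⁻¹) ≤ 3 r`; if `b (u • x) > 0` then `D (u * u1⁻¹) ≤ 4 r ≤ 20`, and `u1 • x`, `u • x = (u * u1⁻¹) • (u1 • x)` are in
`{0 < b}`, so `D (u * u1⁻¹) < r`; if `b (u • x) = 0` it does not exceed the supremum `≥ b (u1 • x) > 0`.  (2) in the same way (`lt_om`): for `t ≥ 0` a pair `(u, v)` with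
`D (u * c⁻¹), D (v * c'⁻¹) ≤ 3 r`, `t < b (u • x)`, `t < b' (v • x)`, `t < kap D W (v * u⁻¹)` satisfies `D (u * u1⁻¹) < r`, `D (v * v1⁻¹) < r`, and conversely (the witness of `lt_om` at
`u1 • x`, `w = v1 * u1⁻¹` is `(u * u1⁻¹, v * u1⁻¹)`: `(u * u1⁻¹) • (u1 • x) = u • x`, `v * u1⁻¹ * (v1 * u1⁻¹)⁻¹ = v * v1⁻¹`, `v * u1⁻¹ * (u * u1⁻¹)⁻¹ = v * u⁻¹`); both sides are
nonnegative (`om_nonneg`, the same for `val2`). -/
def S_NetV : Prop :=
  ∀ (G : Type) [Group G] [TopologicalSpace G] [IsTopologicalGroup G] [T2Space G] (D : G → ℝ), Len D →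
    ∀ (X : Type u) [MetricSpace X] [MulAction G X] [ContinuousSMul G X] (r W : ℝ) (b b' : X → ℝ) (c c' u1 v1 : G) (x : X),
      0 < r → r ≤ 1 / 8 → Continuous b → Continuous b' → (∀ x, 0 ≤ b x) → (∀ x, 0 ≤ b' x) → Cls D r 20 {x | 0 < b x} →
      Cls D r 20 {x | 0 < b' x} → D (u1 * c⁻¹) ≤ r → D (v1 * c'⁻¹) ≤ r → 0 < b (u1 • x) → 0 < b' (v1 • x) →
      hgt D r b (u1 • x) = val1 D r b c x ∧ om D r W b b' (u1 • x) (v1 * u1⁻¹) = val2 D r W b b' c c' x

/-- (about 30 lines) **Finite nets of balls.**  Proof.  The ball `{u | D u ≤ M}` is compact; it is covered by the open sets `{u | D (u * c⁻¹) < r}` with `D c ≤ M` (`c` belongs to its set: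
`D 1 = 0 < r`); take a finite subcover (`IsCompact.elim_nhds_subcover`). -/
def S_Net : Prop :=
  ∀ (G : Type) [Group G] [TopologicalSpace G] [IsTopologicalGroup G] [T2Space G] (D : G → ℝ), Len D → ∀ (M r : ℝ), 0 < r →
    ∃ A : Finset G, (∀ c ∈ A, D c ≤ M) ∧ ∀ u : G, D u ≤ M → ∃ c ∈ A, D (u * c⁻¹) ≤ r

/-- (about 80 lines; uses `S_ValL`, `S_NetV`, `Pool.Agent.MP98850d.S_UB`, `S_Net`) **Choice of the parameters.**

Proof (copy of `MP_98850d_an/Sel.lean`).  Let `A` be from `S_Net` for `(Q, r)`.  The index type `J` is the sum of `Fin q × A` (values `val1 D r (b j) c`, `α = 1/2`) and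
`Fin q × Fin q × A × A × Bool` (values `val2 D r W (b j) (b i) c c'` with `W = 1` or `8`, `α = 1/4`).  Let `η = (8 (card J) + 1)^(-N)`, so `(8 card J)^N * ∑ ε^N < 1` if `∑ ε^N < η`
(`∑ ε^N ≥ 0`; `(8 card J)^N ≤ (8 card J + 1)^N`).  By `S_ValL` (`3 r ≤ 1`) the sets of `Cov` satisfy the hypothesis of `S_UB`.  Let `s` be from `S_UB`, `x` given, `k` from there.
`Good`: let `D u ≤ Q`, `1/4 ≤ b j (u • x)`; take `c ∈ A` with `D (u * c⁻¹) ≤ r`; by `S_NetV` (with `b' = b`, `v1 = u1`, `c' = c`) `hgt D r (b j) (u • x) = val1 ... c x ≠ 1/2 + s k / 4`.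
The same for `om` (`W = 1` or `8`). -/
def S_Sel : Prop :=
  ∀ (G : Type) [Group G] [TopologicalSpace G] [IsTopologicalGroup G] [T2Space G] (D : G → ℝ), Len D →
    ∀ (q N : ℕ) (Q r : ℝ), 0 < r → r ≤ 1 / 8 → ∃ η : ℝ, 0 < η ∧
      ∀ (X : Type u) [MetricSpace X] [MulAction G X] [ContinuousSMul G X] (b : Fin q → X → ℝ), Bas D r b → Cov D (Q + 1) b univ N η →
        ∃ s : Fin N → ℝ, (∀ k, 0 ≤ s k ∧ s k ≤ 1) ∧ ∀ x, ∃ k, Good D r Q (s k) b x

/-! ## The greedy labelling

In this section `0 < r ≤ 1/8`, `0 ≤ s ≤ 1`, `Bas D r b`.  The points with `0 < b j` of one orbit form clusters of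
diameter less than `r`, different clusters of the same type `j` have distance more than `20`. -/

/-- (about 50 lines) **Existence of the labelling.**  Copy of `MP_98850d_an/StE.lean`: well-founded recursion on `j : Fin q`; `Used ... st W j y` depends only on the functions `st i` with `i < j`. -/
def S_StE : Prop :=
  ∀ (G : Type) [Group G] (D : G → ℝ) (q : ℕ) (X : Type u) [MulAction G X] (r s : ℝ) (b : Fin q → X → ℝ),
    ∃ st : Fin q → X → ℕ, IsSt D r s b st

/-- (about 90 lines) **`hgt` and `om` are constant on clusters.**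

Proof (copy of `MP_98850d_an/HI.lean`).  First `D u < r` by `Cls`.  (1) `t < hgt` for `u • y` and `t ≥ 0`: there is `v`, `D v ≤ r`, with `t < b (v • (u • y)) = b ((v * u) • y)`; as `0 < b y`,
`D (v * u) ≤ 2 r ≤ 20`, `Cls` gives `D (v * u) < r`.  The converse in the same way (exchange the roles).  Both values are positive, so they are equal.
(2) by `lt_om`, for `t ≥ 0`: let `D u1 ≤ r`, `D (v1 * w⁻¹) ≤ r`, `t < b (u1 • y)`, `t < b' (v1 • y)`, `t < kap D W (v1 * u1⁻¹)`.  Then `(u1 * u⁻¹, v1 * u⁻¹)` is a witness for `u • y`, `w'`: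
`(u1 * u⁻¹) • (u • y) = u1 • y`; `D (u1 * u⁻¹) ≤ 2 r` and `0 < b` at `u • y` and at `u1 • y`, so `D (u1 * u⁻¹) < r`; `w' • (u • y) = (w' * u) • y` and `w • y`, with `D (w' * u * w⁻¹) ≤ 19`, are in
`{0 < b'}`, so `D (w' * u * w⁻¹) < r`, so `D (v1 * u⁻¹ * w'⁻¹) = D (v1 * (w' * u)⁻¹) ≤ 2 r`, so by `Cls` for `b'` at `(w' * u) • y`, `v1 • y` it is less than `r`;
`v1 * u⁻¹ * (u1 * u⁻¹)⁻¹ = v1 * u1⁻¹`.  The converse in the same way; both values are nonnegative. -/
def S_HI : Prop :=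
  ∀ (G : Type) [Group G] [TopologicalSpace G] [IsTopologicalGroup G] [T2Space G] (D : G → ℝ), Len D →
    ∀ (X : Type u) [MetricSpace X] [MulAction G X] [ContinuousSMul G X] (r W : ℝ) (b b' : X → ℝ) (y : X) (u w w' : G),
      0 < r → r ≤ 1 / 8 → Continuous b → Continuous b' → (∀ x, 0 ≤ b x) → (∀ x, 0 ≤ b' x) → Cls D r 20 {x | 0 < b x} →
      Cls D r 20 {x | 0 < b' x} → 0 < b y → 0 < b (u • y) → D u ≤ 20 →
      hgt D r b (u • y) = hgt D r b y ∧
      (0 < b' (w • y) → 0 < b' (w' • (u • y)) → D (w' * u * w⁻¹) ≤ 19 → om D r W b b' (u • y) w' = om D r W b b' y w)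

/-- (about 45 lines; uses `S_HI`) **The labels are constant on clusters.**

Proof (copy of `MP_98850d_an/CI.lean`).  By `S_HI` the `hgt` is the same at `y` and `u • y`.  `Used ... W j (u • y) = Used ... W j y` for every `W`: let `l` be in the left set with `i, w'`:
`1/4 ≤ b i (w' • (u • y))`; then `w = w' * u` satisfies `w • y = w' • (u • y)`, and by `S_HI` the values of `om` are equal (`w' * u * w⁻¹ = 1`).  The converse with `w' = w * u⁻¹`. -/
def S_CI : Prop :=
  ∀ (G : Type) [Group G] [TopologicalSpace G] [IsTopologicalGroup G] [T2Space G] (D : G → ℝ), Len D →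
    ∀ (q : ℕ) (X : Type u) [MetricSpace X] [MulAction G X] [ContinuousSMul G X] (r s : ℝ) (b : Fin q → X → ℝ)
      (st : Fin q → X → ℕ), 0 < r → r ≤ 1 / 8 → Bas D r b → IsSt D r s b st →
      ∀ (j : Fin q) (y : X) (u : G), 0 < b j y → 0 < b j (u • y) → D u ≤ 20 → st j (u • y) = st j y

/-- (about 130 lines; uses `S_HI`, `S_CI`) **At most `P` labels are used near a point.**

Proof (compare `MP_98850d_an/Pk.lean`).  Let `T = Used ... 8 j y`.  For `l ∈ T` take `i, w` from the definition.  `lt_om` (`t = 1/4 + s/4 > 0`) gives `u, v` with `D u ≤ r`, `D (v * w⁻¹) ≤ r`,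
`kap D 8 (v * u⁻¹) > 0`, so `D (v * u⁻¹) < 8 + 1/4` (`kap_pos`).  As `st i (w • y) = l ≥ 1` is not `0`, `1/2 + s/4 < hgt D r (b i) (w • y)` and `Used ... 1 i (w • y) = ∅`; so there is `v'`,
`D v' ≤ r`, with `1/2 < b i (v' • (w • y))`.  Put `z = v' * w`: `D z ≤ D v' + D (w * v⁻¹) + D (v * u⁻¹) + D u ≤ 8 + 1/4 + 3 r ≤ 9`, `1/2 < b i (z • y)`, and by `S_CI` `st i (z • y) = l`
(`0 < b i (w • y)`, `D v' ≤ 20`), and `Used ... 1 i (z • y) = ∅` (as `st i (z • y) = l ≥ 1`).  So for every `l ∈ T` we have `i_l, z_l`.  Let `l ≠ l'` in `T` and suppose `D (z_l' * z_l⁻¹) ≤ 1`.  If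
`i_l = i_l'` then by `S_CI` (`z_l' • y = (z_l' * z_l⁻¹) • (z_l • y)`) `l = l'`, a contradiction.  If `i_l < i_l'` then `om D r 1 (b i_l') (b i_l) (z_l' • y) (z_l * z_l'⁻¹) > 1/4 + s/4`
(`lt_om` with `u = 1`, `v = z_l * z_l'⁻¹`, `kap ≥ 1` by `one_le_kap`, `Len.symm`; `1/2 ≥ 1/4 + s/4`), so `l ∈ Used ... 1 i_l' (z_l' • y) = ∅`, a contradiction; the same with `l, l'` exchanged.  So
`1 < D (z_l' * z_l⁻¹)`; in particular `l ↦ z_l` is injective, and for every finite subset `T'` of `T` the set of the `z_l`, `l ∈ T'`, has `card T'` elements, at most `P` by `Pck D P`.  So `T` is finite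
with at most `P` elements, the set `{1, ..., P + 1}` is not contained in `T`, and the least `l ≥ 1` outside of `T` is at most `P + 1`. -/
def S_Pk : Prop :=
  ∀ (G : Type) [Group G] [TopologicalSpace G] [IsTopologicalGroup G] [T2Space G] (D : G → ℝ) (P : ℕ), Len D → Pck D P →
    ∀ (q : ℕ) (X : Type u) [MetricSpace X] [MulAction G X] [ContinuousSMul G X] (r s : ℝ) (b : Fin q → X → ℝ)
      (st : Fin q → X → ℕ), 0 < r → r ≤ 1 / 8 → 0 ≤ s → s ≤ 1 → Bas D r b → IsSt D r s b st →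
      ∀ (j : Fin q) (y : X), (Used D r s b st 8 j y).Finite ∧ st j y ≤ P + 1 ∧
        ({l | 1 ≤ l ∧ l ∉ Used D r s b st 8 j y} : Set ℕ).Nonempty

/-- (about 170 lines; uses `S_HI`, `S_CI`, `S_Pk`) **The labels are locally constant where there is no coincidence.**

Proof (copy of `MP_98850d_an/LC.lean`), by strong induction on `j`.  Let `thr = 1/4 + s/4`.  (i) `hgt D r (b j) y ≠ 1/2 + s/4` by `Good` (`u = 1`), so for `y'` near `y`: `1/2 + s/4 < hgt D r (b j) y'` iff
`1/2 + s/4 < hgt D r (b j) y` (`hgt_cont`).  (ii) For `W = 1` and `W = 8`: `Used ... W j y' = Used ... W j y` for `y'` near `y`.  Note that by `lt_om`, `kap_pos` `thr < om D r W (b j) (b i) y' w` implies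
`D w ≤ D (w * v⁻¹) + D (v * u⁻¹) + D u ≤ W + 1/4 + 2 r ≤ 9`.
`⊇`: the set on the right is finite (all labels are at most `P + 1` by `S_Pk`), so it is enough to treat one `l` with `i, w`.  By `lt_om` there is `v`, `D (v * w⁻¹) ≤ r`, with `thr < b i (v • y)`; by
`S_CI` `st i (v • y) = l` and by `S_HI` `om ... y v = om ... y w` (`u = 1`); so we may assume `1/4 < b i (w • y)`.  `D w ≤ 9` and `w • y` is `Good` with radius `9 j ≥ 9 (i + 1)` (`Good` at `y` with
radius `9 (j + 1)`: `u • (w • y) = (u * w) • y`), so by induction `st i` is locally constant at `w • y`; also `1/4 < b i (w • y')` and `thr < om ... y' w` near `y` by continuity.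
`⊆`: the labels are bounded, so fix `i < j` and `l`, `1 ≤ l`.  Show that for every `w` in the compact ball `D w ≤ 9`, for all `(w', y')` near `(w, y)`: `1/4 ≤ b i (w' • y')`, `st i (w' • y') = l`,
`thr < om ... y' w'` imply `l ∈ Used ... W j y` (then use compactness of the ball, `IsCompact.eventually_forall_of_forall_eventually`).  If `b i (w • y) < 1/4` then also `b i (w' • y') < 1/4`.  Otherwise
`st i` is locally constant at `w • y` by induction.  If `om ... y w < thr` the same holds near `(w, y)` (`om_cont`).  `om ... y w = thr` is impossible by `Good` (`u = 1`, `v = w`, `D w ≤ 9`).  If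
`thr < om ... y w` then either `st i (w • y) = l` and `l ∈ Used ... W j y`, or `st i (w' • y') ≠ l` near `(w, y)`.  By (i), (ii) and the recursion `st j y' = st j y` near `y`. -/
def S_LC : Prop :=
  ∀ (G : Type) [Group G] [TopologicalSpace G] [IsTopologicalGroup G] [T2Space G] (D : G → ℝ) (P : ℕ), Len D → Pck D P →
    ∀ (q : ℕ) (X : Type u) [MetricSpace X] [MulAction G X] [ContinuousSMul G X] (r s : ℝ) (b : Fin q → X → ℝ)
      (st : Fin q → X → ℕ), 0 < r → r ≤ 1 / 8 → 0 ≤ s → s ≤ 1 → Bas D r b → IsSt D r s b st →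
      ∀ (j : Fin q) (y : X), 1 / 4 ≤ b j y → Good D r (9 * ((j : ℕ) + 1)) s b y → ∀ᶠ y' in 𝓝 y, st j y' = st j y

/-- (about 100 lines) **`Good` is open.**

Proof (copy of `MP_98850d_an/GO.lean`).  The complement is the union over `j` of the projections to `X` of the closed sets
`{(u, x) : D u ≤ Q, 1/4 ≤ b j (u • x), hgt D r (b j) (u • x) = 1/2 + s/4}` and over `j, i, W` of the projections of
`{(u, v, x) : D u, D v ≤ Q, 1/4 ≤ b j (u • x), 1/4 ≤ b i (v • x), om D r W (b j) (b i) (u • x) (v * u⁻¹) = 1/4 + s/4}`; projections along compact sets are closed (or show directly that the set of the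
good points is a neighbourhood of each of its points, with `IsCompact.eventually_forall_of_forall_eventually`).
(2) `u' • (u • x) = (u' * u) • x`, `D (u' * u) ≤ Q + ρ ≤ Q'`, and `v' * u'⁻¹ = (v' * u) * (u' * u)⁻¹`. -/
def S_GO : Prop :=
  ∀ (G : Type) [Group G] [TopologicalSpace G] [IsTopologicalGroup G] [T2Space G] (D : G → ℝ), Len D →
    ∀ (q : ℕ) (X : Type u) [MetricSpace X] [MulAction G X] [ContinuousSMul G X] (r s Q : ℝ) (b : Fin q → X → ℝ),
      Bas D r b → IsOpen {x | Good D r Q s b x} ∧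
      ∀ (Q' ρ : ℝ) (x : X) (u : G), Good D r Q' s b x → D u ≤ ρ → Q + ρ ≤ Q' → Good D r Q s b (u • x)

/-- (about 140 lines; uses `S_StE`, `S_CI`, `S_Pk`, `S_LC`, `S_GO`) **The open sets for one parameter.**

Proof (compare `MP_98850d_an/Grd.lean`).  Let `st` be from `S_StE`, `thr = 1/4 + s/4 ∈ [1/4, 1/2]` and for `l : Fin (P + 1)`, `j : Fin q`
`O l j = {y | Good D r (9 q) s b y ∧ 1/2 < b j y ∧ st j y = l + 1}`.
Open: by `S_GO` and `S_LC` (`Good` with radius `9 q ≥ 9 (j + 1)` implies `Good` with the smaller radius).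
Separation: let `y ∈ O l j`, `v • y ∈ O l i`, `D v ≤ 8`.  If `i = j` use `Cls D r 20` of `b j`.  If `i < j` then `om D r 8 (b j) (b i) y v > thr` (`lt_om` with `u = 1`, `v = v`, `one_le_kap`), so
`l + 1 ∈ Used ... 8 j y`; but `st j y = l + 1 ≥ 1` is the least element of the complement of `Used ... 8 j y` (`Nat.sInf_mem` with `S_Pk`), a contradiction.  If `j < i` apply this to `v • y` and `v⁻¹`
(`v⁻¹ • (v • y) = y`, `Len.inv`).
Cover: let `x` be `Good` with radius `9 q + 12` and `3/4 < b j x`.  `hgt D r (b j) x ≥ b j x > 3/4 ≥ 1/2 + s/4` (`le_hgt`, `u = 1`).  If `Used ... 1 j x = ∅` then `l' = st j x` satisfies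
`1 ≤ l' ≤ P + 1`, and `x ∈ O (l' - 1) j` (`u = 1`).  Otherwise take `l' ∈ Used ... 1 j x` with `i, w`; `lt_om` gives `u, v`, `D u ≤ r`, `D (v * w⁻¹) ≤ r`, `D (v * u⁻¹) < 1 + 1/4`.  As
`st i (w • x) = l' ≥ 1`, `1/2 < hgt D r (b i) (w • x)`, so there is `v'`, `D v' ≤ r`, with `1/2 < b i (v' • (w • x))`, and by `S_CI` `st i ((v' * w) • x) = l'`.  So `(v' * w) • x ∈ O (l' - 1) i`
(`l' ≤ P + 1` by `S_Pk`; `Good` by `S_GO` (2)), and `D (v' * w) ≤ D v' + D (w * v⁻¹) + D (v * u⁻¹) + D u ≤ 5/4 + 3 r ≤ 13/8`. -/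
def S_Grd : Prop :=
  ∀ (G : Type) [Group G] [TopologicalSpace G] [IsTopologicalGroup G] [T2Space G] (D : G → ℝ) (P : ℕ), Len D → Pck D P →
    ∀ (q : ℕ) (X : Type u) [MetricSpace X] [MulAction G X] [ContinuousSMul G X] (r s : ℝ) (b : Fin q → X → ℝ),
      0 < r → r ≤ 1 / 8 → 0 ≤ s → s ≤ 1 → Bas D r b → (∀ x, ∃ j, 3 / 4 < b j x) →
      ∃ O : Fin (P + 1) → Fin q → Set X, (∀ l j, IsOpen (O l j)) ∧ (∀ l j x, x ∈ O l j → 0 < b j x) ∧
        (∀ (l : Fin (P + 1)) (j j' : Fin q) (x : X) (u : G), x ∈ O l j → u • x ∈ O l j' → D u ≤ 8 → j = j' ∧ D u < r) ∧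
        ∀ x, Good D r (9 * q + 12) s b x → ∃ l j, ∃ u : G, D u ≤ 5 / 4 + 3 * r ∧ u • x ∈ O l j

/-- (about 50 lines; uses `S_Typ`, `S_Sel`, `S_Grd`) **The open sets.**

Proof (compare `MP_98850d_an/Opn.lean`).  `q`, `z` from `S_Typ`, `η` from `S_Sel` with `N = n + m + 1`, `Q = 9 q + 12`; `b` from `S_Typ` for `(Q + 1, η)`; `s` from `S_Sel`; `O k` from `S_Grd` for the
parameter `s k`; `x ∈ O k l j` implies `0 < b j x`, so `x ∈ O' (z j)`. -/
def S_Opn : Prop :=
  ∀ (G : Type) [Group G] [TopologicalSpace G] [IsTopologicalGroup G] [T2Space G] (N : G → ℝ) (n m P : ℕ), Len N → Pol N n →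
    ∀ (D : G → ℝ), Len D → Pck D P → ∀ (X : Type u) [MetricSpace X] [CompactSpace X] [MulAction G X] [ContinuousSMul G X]
      (ι : X → E m) (O' : X → Set X) (r : ℝ), FreeG G X → LSec G X → Continuous ι → Function.Injective ι → (∀ z, O' z ∈ 𝓝 z) →
      0 < r → r ≤ 1 / 8 →
      ∃ (q : ℕ) (z : Fin q → X) (O : Fin (n + m + 1) → Fin (P + 1) → Fin q → Set X), (∀ k l j, IsOpen (O k l j)) ∧
        (∀ k l j x, x ∈ O k l j → x ∈ O' (z j)) ∧
        (∀ (k : Fin (n + m + 1)) (l : Fin (P + 1)) (j j' : Fin q) (x : X) (u : G), x ∈ O k l j → u • x ∈ O k l j' → D u ≤ 8 →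
          j = j' ∧ D u < r) ∧
        ∀ x : X, ∃ k l j, ∃ u : G, D u ≤ 5 / 4 + 3 * r ∧ u • x ∈ O k l j

/-! ## The functions -/

/-- (about 80 lines) **From open sets to functions.**

Proof (copy of `MP_98850d_an/Bk.lean`).  For `k : K` let `f k x = Metric.infDist x (O k)ᶜ` if `(O k)ᶜ` is nonempty and `1` otherwise: continuous, positive exactly on `O k`.
`F x = ∑ k, sSup {f k (u • x) : D u ≤ ρ} = ∑ k, hgt D ρ (f k) x` is continuous (`hgt_cont`) and positive, so `F ≥ c > 0` on the compact `X` (if `X` is empty everything is trivial).  Let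
`b k x = min 1 (f k x * (card K) / c)`.  For every `x` some `k` has `hgt D ρ (f k) x ≥ c / card K`, and the supremum is attained (`hgt_att`). -/
def S_Bk : Prop :=
  ∀ (G : Type) [Group G] [TopologicalSpace G] [IsTopologicalGroup G] [T2Space G] (D : G → ℝ), Len D →
    ∀ (X : Type u) [MetricSpace X] [CompactSpace X] [MulAction G X] [ContinuousSMul G X] (K : Type) [Fintype K]
      (O : K → Set X) (ρ : ℝ), 0 ≤ ρ → (∀ k, IsOpen (O k)) → (∀ x : X, ∃ k, ∃ u : G, D u ≤ ρ ∧ u • x ∈ O k) →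
      ∃ b : K → X → ℝ, (∀ k, Continuous (b k)) ∧ (∀ k x, 0 ≤ b k x ∧ b k x ≤ 1) ∧ (∀ k x, 0 < b k x → x ∈ O k) ∧
        ∀ x : X, ∃ k, ∃ u : G, D u ≤ ρ ∧ b k (u • x) = 1

/-- (about 40 lines; uses `S_Opn`, `S_Bk`) **Assembly of part A.**

Proof.  `S_Opn` with `r = 1/8` (`5/4 + 3 r = 13/8`), `S_Bk` with `K = Fin (n + m + 1) × Fin (P + 1) × Fin q` and `ρ = 13/8`; the colour `c : Fin ((n + m + 1) * (P + 1))` is the pair
`(k, l)` (`finProdFinEquiv.symm c`), `b' c j = b (k, l, j)`. -/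
def S_AsmA : Prop := S_Opn.{u} → S_Bk.{u} → S_BxG.{u}

end Pool.Agent.MFG
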