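import Pool.Agent.Lib.MFG.DefsB

/-!
# MP_98850d_an, theorem (C), part B: the length functions of boxes, slow displacements, the programme

CONVENTION.  Statement `S_X` is proved in the file `MFG/X.lean` as `theorem xP : S_X` (with explicit hypotheses for the
statements after USES, in that order), auxiliary lemmas in the namespace `Pool.Agent.MFG.XM`.  The proofs are complete in
the docstrings.  `u • x` is the action, `(u * v) • x = u • v • x` (`mul_smul`).  `N` is a length function (`Len`: basic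
lemmas `one`, `nonneg`, `symm`, `tri`, `le_add` in Defs), `φ` a central line (`Cen`): `φ 0 = 1` and `φ (-t) = (φ t)⁻¹`
follow from `Cen.add`.
-/

set_option autoImplicit false

namespace Pool.Agent.MFG

open Set Filter Topology

universe u

/-! ## Length functions -/

/-- **DA** (about 130 lines).  PROOF.  `f t = N (φ t * u) / l + |t| / A ≥ 0` is continuous and `f t ≥ |t| / A`, `f 0 = N u / l`, so the
infimum is attained at some `t0` (compact interval `|t| ≤ A N(u) / l + A`; outside `f t > f 0`).  Last claim: `t = -t0`, `v = φ t0 * u`,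
`u = φ (-t0) * v`.  `DA u ≤ f 0 = N u / l`; `DA (φ t) ≤ f (-t) = |t| / A` (`N 1 = 0`).
`Len`: continuity: on the open set `N u < M` the infimum is the infimum over the compact interval `|t| ≤ A M / l` (the minimum point is
there), so it is continuous there (`IsCompact.continuous_sInf` / `IsCompact.continuous_sSup` for the negative).
`DA u = 0`: `N (φ t0 * u) = 0` and `t0 = 0`, so `N u = 0`, `u = 1`; `DA 1 ≤ N 1 / l = 0`.  Inverse: `(φ t * u)⁻¹ = φ (-t) * u⁻¹` (central), so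
`N (φ t * u) = N (φ (-t) * u⁻¹)`.  Product: `φ (t + s) * (u * v) = (φ t * u) * (φ s * v)`, `|t + s| ≤ |t| + |s|`.
Compactness: `{DA ≤ c}` is closed and contained in the image of the compact set `{|t| ≤ c A} × {N ≤ c l}` under `(t, v) ↦ φ t * v`
(for `c < 0` it is empty). -/
def S_DA : Prop := ∀ (G : Type) [Group G] [TopologicalSpace G] [IsTopologicalGroup G] [T2Space G] (N : G → ℝ) (φ : ℝ → G)
  (l A : ℝ), Cen N φ → 0 < l → 0 < A → Len (DA N φ l A) ∧ (∀ u, DA N φ l A u ≤ N u / l) ∧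
    (∀ t, DA N φ l A (φ t) ≤ |t| / A) ∧ ∀ u, ∃ (t : ℝ) (v : G), u = φ t * v ∧ N v / l + |t| / A = DA N φ l A u

/-- **Pka** (about 100 lines).  USES `S_DA`.  PROOF.  `{N ≤ 9 l}` is compact and covered by the open sets `{u | N (u * g⁻¹) < l / 4}`; a finite
subcover gives a map `κ : G → Fin m₁` such that `N u, N u' ≤ 9 l`, `κ u = κ u'` imply `N (u' * u⁻¹) ≤ l / 2` (`Len.tri`, `Len.symm`).
`P = 37 (m₁ + 1)`.  For `A > 0`, `Z` as in `Pck`: write `z = φ t_z * v_z`, `N v_z / l + |t_z| / A = DA z ≤ 9`, and map `z` to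
`(⌊2 t_z / A⌋, κ v_z)` with `⌊2 t_z / A⌋ ∈ [-18, 18]`.  Injective on `Z`: if `z ≠ z'` have the same image, `z' z⁻¹ = φ (t' - t) * (v' v⁻¹)` (central), so
`DA (z' z⁻¹) ≤ DA (φ (t' - t)) + DA (v' v⁻¹) ≤ 1/2 + 1/2 = 1`, a contradiction.  So `card Z ≤ 37 m₁`. -/
def S_Pka : Prop := ∀ (G : Type) [Group G] [TopologicalSpace G] [IsTopologicalGroup G] [T2Space G] (N : G → ℝ) (φ : ℝ → G)
  (l : ℝ), Cen N φ → 0 < l → ∃ P : ℕ, ∀ A : ℝ, 0 < A → Pck (DA N φ l A) P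

/-! ## Slow displacements -/

/-- **Slo** (about 120 lines).  PROOF.  The supremum is over a nonempty (`u = 1`) compact set (`Len.cpt`).  Continuity: `IsCompact.continuous_sSup`.
`0 ≤ σ x` is the value at `u = 1`; values are `≤ S`.  FACT: `slow N S σ x ≥ σ (u • x) - N u / 2` for ALL `u : G` (if `N u > 2 S` the right side is
negative), and some `u`, `N u ≤ 2 S`, attains the supremum.  Let `slow N S σ (v • x) = σ (u • v • x) - N u / 2`; then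
`slow N S σ x ≥ σ ((u * v) • x) - N (u * v) / 2 ≥ slow N S σ (v • x) - N v / 2`; exchange `x` and `v • x` (`N v⁻¹ = N v`).
The line: `slow (φ t • x) = σ (u • φ t • x) - N u / 2 ≤ σ (u • x) + δ |t| - N u / 2` (`u • φ t • x = φ t • u • x`), and conversely.
Last: all values are `≤ s`, the value at `1` is `s`. -/
def S_Slo : Prop := ∀ (G : Type) [Group G] [TopologicalSpace G] [IsTopologicalGroup G] (N : G → ℝ) (φ : ℝ → G) (X : Type u)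
  [TopologicalSpace X] [MulAction G X] [ContinuousSMul G X] (S : ℝ) (σ : X → ℝ), Cen N φ → Continuous σ →
  (∀ x, 0 ≤ σ x ∧ σ x ≤ S) → Continuous (slow N S σ) ∧ (∀ x, 0 ≤ slow N S σ x ∧ slow N S σ x ≤ S) ∧
    (∀ x (u : G), |slow N S σ (u • x) - slow N S σ x| ≤ N u / 2) ∧
    (∀ δ : ℝ, (∀ x t, |σ (φ t • x) - σ x| ≤ δ * |t|) → ∀ x t, |slow N S σ (φ t • x) - slow N S σ x| ≤ δ * |t|) ∧
    ∀ x s, σ x = s → (∀ u : G, N u ≤ 2 * S → σ (u • x) ≤ s) → slow N S σ x = s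

/-- **Hm** (about 120 lines).  PROOF.  Induction on the list (`cmp [] = id`; the homeomorphism for `p :: L` is the one for `L` followed by the one of
`p`).  One factor `h x = ψ (σ x) • x`: continuous.  Injective: if `h x = h x'` then `x' = ψ d • x` with `d = σ x - σ x'` (`ψ (-s) = (ψ s)⁻¹`), so
`|d| = |σ x - σ (ψ d • x)| ≤ N (ψ d) / 2 ≤ |d| / 2`, `d = 0`, `x' = x`.  Surjective: for `y` the map `s ↦ σ (ψ (-s) • y)` is a contraction of `ℝ` with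
factor `1/2` (`ψ (-s') • y = ψ (s - s') • ψ (-s) • y`), so it has a fixed point `s` (`ContractingWith.exists_fixedPoint` or
`ContractingWith.fixedPoint`), and `x = ψ (-s) • y`, `h x = y`.  `Continuous.homeoOfEquivCompactToT2`. -/
def S_Hm : Prop := ∀ (G : Type) [Group G] [TopologicalSpace G] [IsTopologicalGroup G] (N : G → ℝ) (X : Type u)
  [TopologicalSpace X] [CompactSpace X] [T2Space X] [MulAction G X] [ContinuousSMul G X] (L : List ((ℝ → G) × (X → ℝ))),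
  (∀ p ∈ L, OneP N p.1 ∧ Continuous p.2 ∧ ∀ x (u : G), |p.2 (u • x) - p.2 x| ≤ N u / 2) →
  ∃ H : X ≃ₜ X, ∀ x, H x = cmp L x

/-- **Ev** (about 60 lines).  PROOF.  Induction on the list: for `p :: L` let `g = (L.map fun p => p.1 (p.2 x)).prod`, `cmp L x = g • x`, and
`N g ≤ ∑_(p ∈ L) p.2 x ≤ R` (`Len.mul`, `OneP.speed`, the values are `≥ 0`); so `p.2 (cmp L x) = p.2 x`. -/
def S_Ev : Prop := ∀ (G : Type) [Group G] [TopologicalSpace G] (N : G → ℝ) (X : Type u) [MulAction G X]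
  (L : List ((ℝ → G) × (X → ℝ))) (R : ℝ) (x : X), Len N → (∀ p ∈ L, OneP N p.1 ∧ 0 ≤ p.2 x) →
  (∀ p ∈ L, ∀ u : G, N u ≤ R → p.2 (u • x) = p.2 x) → (L.map fun p => p.2 x).sum ≤ R →
  cmp L x = (L.map fun p => p.1 (p.2 x)).prod • x

/-- **Cmp** (about 130 lines).  PROOF.  Induction on `n`, for all `ε > 0`.  `n = 0`: `L = []`, `e = 1`.  Step.  CONJUGATION: there is `ε'`, `0 < ε' ≤ ε/4`, such
that `N g ≤ S`, `N e ≤ ε'` imply `N (g * e * g⁻¹) ≤ ε/4` (otherwise sequences `g_i`, `e_i`, `N e_i → 0`; `{N ≤ S}` and `{N ≤ 1}` are compact, limits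
`g`, `1`, and `N (g * 1 * g⁻¹) = 0`; or the tube lemma `IsCompact.eventually_forall_of_forall_eventually` and: for every neighbourhood `O` of `1`
there is `ε'` with `{N ≤ ε'} ⊆ O`).  Let `δ'` be from the induction hypothesis for `ε'`, `δ = min δ' (ε / (4 (|T| + 1)))`.  For `p :: L`, `y = cmp L x`,
`cmp L (φ t • x) = e' • φ t • y`, `N e' ≤ ε'`, `s₂ = p.2 y`, `s₁ = p.2 (e' • φ t • y)`:
`cmp (p :: L) (φ t • x) = ψ s₁ • e' • φ t • y = e • φ t • ψ s₂ • y` with `e = ψ s₁ * e' * (ψ s₂)⁻¹ = ψ (s₁ - s₂) * (ψ s₂ * e' * (ψ s₂)⁻¹)` (`φ t` central).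
`|s₁ - s₂| ≤ |p.2 (e' • φ t • y) - p.2 (φ t • y)| + |p.2 (φ t • y) - p.2 y| ≤ ε'/2 + δ |t|`, `N (ψ s₂) ≤ s₂ ≤ S`; so
`N e ≤ ε/8 + ε/4 + ε/4 ≤ ε`. -/
def S_Cmp : Prop := ∀ (G : Type) [Group G] [TopologicalSpace G] [IsTopologicalGroup G] [T2Space G] (N : G → ℝ) (φ : ℝ → G),
  Cen N φ → ∀ (S T ε : ℝ) (n : ℕ), 0 < ε → ∃ δ : ℝ, 0 < δ ∧ ∀ (X : Type u) [MulAction G X]
    (L : List ((ℝ → G) × (X → ℝ))), L.length ≤ n → (∀ p ∈ L, OneP N p.1 ∧ (∀ x, 0 ≤ p.2 x ∧ p.2 x ≤ S) ∧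
      (∀ x (u : G), |p.2 (u • x) - p.2 x| ≤ N u / 2) ∧ ∀ x t, |p.2 (φ t • x) - p.2 x| ≤ δ * |t|) →
    ∀ (x : X) (t : ℝ), |t| ≤ T → ∃ e : G, N e ≤ ε ∧ cmp L (φ t • x) = e • φ t • cmp L x

/-! ## The pulse -/

/-- **Bt** (about 150 lines).  `l' = 7/4 l` is not used: any `l ≥ 0`.  PROOF.  `{N ≤ l}` is compact and contains `1`, `Icc (-2A) (2A)` is compact and
nonempty; continuity by `IsCompact.continuous_sSup` (three times), bounds and attainment trivial (`IsCompact.exists_isMaxOn`, `le_csSup`).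
Last claim: let `s⁰` attain `hei x = bet (φ s⁰ • x) > 1/2` and `s¹` attain the supremum `m` in `zet`.  `m = s¹ + 16 A bet (φ s¹ • x) ≥ s⁰ + 16 A hei x`,
so `zet x = m - 16 A hei x ≥ s⁰`, and `zet x = s¹ + 16 A (bet (φ s¹ • x) - hei x) ≤ s¹`; `16 A bet (φ s¹ • x) ≥ s⁰ - s¹ + 8 A ≥ 4 A > 0`. -/
def S_Bt : Prop := ∀ (G : Type) [Group G] [TopologicalSpace G] [IsTopologicalGroup G] (N : G → ℝ) (φ : ℝ → G) (l A : ℝ)
  (X : Type u) [TopologicalSpace X] [MulAction G X] [ContinuousSMul G X] (b : X → ℝ), Cen N φ → 0 ≤ l → 0 < A →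
  Continuous b → (∀ x, 0 ≤ b x ∧ b x ≤ 1) →
  Continuous (bet N l b) ∧ Continuous (hei N φ l A b) ∧ Continuous (zet N φ l A b) ∧
  (∀ x, 0 ≤ bet N l b x ∧ bet N l b x ≤ 1) ∧ (∀ x, 0 ≤ hei N φ l A b x ∧ hei N φ l A b x ≤ 1) ∧
  (∀ x (u : G), N u ≤ l → b (u • x) ≤ bet N l b x) ∧
  (∀ x, 0 < bet N l b x → ∃ u : G, N u ≤ l ∧ 0 < b (u • x)) ∧
  (∀ x s, |s| ≤ 2 * A → bet N l b (φ s • x) ≤ hei N φ l A b x) ∧
  (∀ x, ∃ s, |s| ≤ 2 * A ∧ bet N l b (φ s • x) = hei N φ l A b x) ∧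
  (∀ x s, |s| ≤ 2 * A → s + 16 * A * bet N l b (φ s • x) - 16 * A * hei N φ l A b x ≤ zet N φ l A b x) ∧
  (∀ x, ∃ s, |s| ≤ 2 * A ∧ s + 16 * A * bet N l b (φ s • x) - 16 * A * hei N φ l A b x = zet N φ l A b x) ∧
  ∀ x, 1 / 2 < hei N φ l A b x → ∃ s₀ s₁, |s₀| ≤ 2 * A ∧ |s₁| ≤ 2 * A ∧ s₀ ≤ zet N φ l A b x ∧
    zet N φ l A b x ≤ s₁ ∧ 0 < bet N l b (φ s₀ • x) ∧ 0 < bet N l b (φ s₁ • x)

/-- **Uq** (about 80 lines).  Pulses near each other coincide.  USES `S_DA`, `S_Bt`.  PROOF.  `u_1, u_2` with `N u_i ≤ 7/4 l`,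
`0 < b ((u₁ * φ a₁ * w₁ * φ τ₁) • x)`, `0 < b' ((u₂ * φ a₂ * w₂ * φ τ₂) • x)`.  Let `Δ = (a₂ + τ₂) - (a₁ + τ₁)`,
`v = u₂ φ(a₂) w₂ φ(τ₂) (u₁ φ(a₁) w₁ φ(τ₁))⁻¹ = φ Δ * (u₂ w₂ w₁⁻¹ u₁⁻¹)`.
`DA v ≤ |Δ| / A + (7/4 l + R + R + 7/4 l) / l ≤ 4 + 7/2 + 1/4 ≤ 8`.  So `N v ≤ 1` and `Q`;
`N (φ Δ) ≤ N v + N (u₂ w₂ w₁⁻¹ u₁⁻¹) ≤ 1 + 2 (7/4 l) + 2 R`, so `|Δ| ≤ c`. -/
def S_Uq : Prop := ∀ (G : Type) [Group G] [TopologicalSpace G] [IsTopologicalGroup G] [T2Space G] (N : G → ℝ) (φ : ℝ → G)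
  (l A c R : ℝ) (X : Type u) [TopologicalSpace X] [MulAction G X] [ContinuousSMul G X] (b b' : X → ℝ) (Q : Prop),
  Num N φ l A c R → Continuous b → (∀ x, 0 ≤ b x ∧ b x ≤ 1) → Continuous b' → (∀ x, 0 ≤ b' x ∧ b' x ≤ 1) →
  Sp N φ l A b b' Q → ∀ (x : X) (w₁ w₂ : G) (τ₁ τ₂ a₁ a₂ : ℝ), N w₁ ≤ R → N w₂ ≤ R →
  0 < bet N (7 / 4 * l) b (φ a₁ • w₁ • φ τ₁ • x) → 0 < bet N (7 / 4 * l) b' (φ a₂ • w₂ • φ τ₂ • x) →
  |(a₂ + τ₂) - (a₁ + τ₁)| ≤ 4 * A → |(a₂ + τ₂) - (a₁ + τ₁)| ≤ c ∧ Q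

/-- **Nbr** (about 90 lines).  Times of pulses near each other.  USES `S_Bt`, `S_Uq`.  PROOF.  Write `z_i` for the two values of `zet`.  `S_Bt` gives
`s₀ ≤ z₁ ≤ s₁` (pulses of `y₁ = w₁ • φ τ₁ • x`) and `s₀' ≤ z₂ ≤ s₁'` (pulses of `y₂`).  `S_Uq` for `b, b` at `y₁` (`|s₁ - s₀| ≤ 4 A`):
`|s₁ - s₀| ≤ c ≤ A/8`; the same for `b', b'`.  So all four differences `(s'_j + τ₂) - (s_i + τ₁)` are at most `3 A + 2 c ≤ 4 A`, so by `S_Uq` (`b, b'`) at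
most `c`, and `Q`.  `z₂ + τ₂ ≤ s₁' + τ₂ ≤ s₀ + τ₁ + c ≤ z₁ + τ₁ + c` and `z₂ + τ₂ ≥ s₀' + τ₂ ≥ s₁ + τ₁ - c ≥ z₁ + τ₁ - c`. -/
def S_Nbr : Prop := ∀ (G : Type) [Group G] [TopologicalSpace G] [IsTopologicalGroup G] [T2Space G] (N : G → ℝ) (φ : ℝ → G)
  (l A c R : ℝ) (X : Type u) [TopologicalSpace X] [MulAction G X] [ContinuousSMul G X] (b b' : X → ℝ) (Q : Prop),
  Num N φ l A c R → Continuous b → (∀ x, 0 ≤ b x ∧ b x ≤ 1) → Continuous b' → (∀ x, 0 ≤ b' x ∧ b' x ≤ 1) →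
  Sp N φ l A b b True → Sp N φ l A b' b' True → Sp N φ l A b b' Q →
  ∀ (x : X) (w₁ w₂ : G) (τ₁ τ₂ : ℝ), N w₁ ≤ R → N w₂ ≤ R →
  1 / 2 < hei N φ (7 / 4 * l) A b (w₁ • φ τ₁ • x) → 1 / 2 < hei N φ (7 / 4 * l) A b' (w₂ • φ τ₂ • x) →
  |(zet N φ (7 / 4 * l) A b' (w₂ • φ τ₂ • x) + τ₂) - (zet N φ (7 / 4 * l) A b (w₁ • φ τ₁ • x) + τ₁)| ≤ 3 * A →
  |(zet N φ (7 / 4 * l) A b' (w₂ • φ τ₂ • x) + τ₂) - (zet N φ (7 / 4 * l) A b (w₁ • φ τ₁ • x) + τ₁)| ≤ c ∧ Q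

/-- **Eqv** (about 150 lines).  The time of the pulse is equivariant.  USES `S_Bt`, `S_Uq`.  PROOF.  `β s = bet (φ s • x)`, `Z = zet x`,
`Pu = {s : |s| ≤ 2 A, 0 < β s}`, and `s₀ ≤ Z ≤ s₁` in `Pu` from `S_Bt`.  By `S_Uq` (`w = 1`, `τ = 0`) any two elements of `Pu` differ by at most `c`, so
`|Z - s| ≤ c` for `s ∈ Pu`.  CLAIM: `Pu = {s : |s - t| ≤ 2 A, 0 < β s}`.  `⊆`: `|s - t| ≤ |s - Z| + |Z - t| ≤ A/8 + 7/4 A ≤ 2 A`.  `⊇`: for `s'` in the right set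
`|s' - s₀| ≤ |s' - t| + |t - Z| + |Z - s₀| ≤ 2 A + 7/4 A + A/8 ≤ 4 A`, so `|s' - s₀| ≤ c` (`S_Uq`) and `|s'| ≤ |Z| + 2 c ≤ 7/4 A + A/4 = 2 A`.
`hei (φ t • x)` is the supremum of `β (s + t)`, `|s| ≤ 2 A`, i.e. of `β s'`, `|s' - t| ≤ 2 A`; both suprema are positive (`Pu` is not empty), attained in
the common set: they are equal, `h`.  `zet (φ t • x) + 16 A h` is the maximum of `s' - t + 16 A β s'` over `|s' - t| ≤ 2 A`, and `Z + 16 A h` that of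
`s' + 16 A β s'` over `|s'| ≤ 2 A`; where `β s' = 0` these values are at most `2 A`, and at a point `s*` of the common set with `β s* = h > 1/2` they
are at least `-2 A + 8 A`; so both maxima are attained in the common set and `zet (φ t • x) = Z - t`. -/
def S_Eqv : Prop := ∀ (G : Type) [Group G] [TopologicalSpace G] [IsTopologicalGroup G] [T2Space G] (N : G → ℝ) (φ : ℝ → G)
  (l A c R : ℝ) (X : Type u) [TopologicalSpace X] [MulAction G X] [ContinuousSMul G X] (b : X → ℝ),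
  Num N φ l A c R → Continuous b → (∀ x, 0 ≤ b x ∧ b x ≤ 1) → Sp N φ l A b b True →
  ∀ (x : X) (t : ℝ), 1 / 2 < hei N φ (7 / 4 * l) A b x → |zet N φ (7 / 4 * l) A b x| ≤ 7 / 4 * A →
  |zet N φ (7 / 4 * l) A b x - t| ≤ 7 / 4 * A →
  hei N φ (7 / 4 * l) A b (φ t • x) = hei N φ (7 / 4 * l) A b x ∧
    zet N φ (7 / 4 * l) A b (φ t • x) = zet N φ (7 / 4 * l) A b x - t

/-- **Cor** (about 80 lines).  Near a cluster point of value `1`.  USES `S_DA`, `S_Bt`, `S_Uq`.  PROOF.  `S_DA`: `u₀ = φ s₀ * u₁`,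
`N u₁ / l + |s₀| / A = DA u₀ ≤ 13/8`.  Let `N w ≤ R`, `y = w • x`: `(u₁ * w⁻¹) • φ s₀ • y = u₀ • x` (central), `N (u₁ * w⁻¹) ≤ 13/8 l + l/8 = 7/4 l`, so
`bet (φ s₀ • y) ≥ b (u₀ • x) = 1` and `hei y = 1` (`|s₀| ≤ 2 A`).  Let `s₀' ≤ zet y ≤ s₁'` be from `S_Bt`; by `S_Uq` (`w₁ = w₂ = w`, `τ = 0`; differences at
most `4 A`) `|s₀' - s₀|, |s₁' - s₀| ≤ c`, so `|zet y - s₀| ≤ c`. -/
def S_Cor : Prop := ∀ (G : Type) [Group G] [TopologicalSpace G] [IsTopologicalGroup G] [T2Space G] (N : G → ℝ) (φ : ℝ → G)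
  (l A c R : ℝ) (X : Type u) [TopologicalSpace X] [MulAction G X] [ContinuousSMul G X] (b : X → ℝ),
  Num N φ l A c R → Continuous b → (∀ x, 0 ≤ b x ∧ b x ≤ 1) → Sp N φ l A b b True →
  ∀ (x : X) (u₀ : G), DA N φ l A u₀ ≤ 13 / 8 → b (u₀ • x) = 1 → ∃ (s₀ : ℝ) (u₁ : G), u₀ = φ s₀ * u₁ ∧
    N u₁ ≤ 13 / 8 * l ∧ |s₀| ≤ 13 / 8 * A ∧ ∀ w : G, N w ≤ R → hei N φ (7 / 4 * l) A b (w • x) = 1 ∧
      |zet N φ (7 / 4 * l) A b (w • x) - s₀| ≤ c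

/-! ## The programme -/

/-- **Prg** (about 130 lines).  USES `S_Bt`, `S_Eqv`.  PROOF.  Let `p = prg ..`.  Continuity and bounds: `hei ≤ 1`, so `0 ≤ max 0 (2 hei - 1) ≤ 1`.  If
`p x ≠ 0` then `1/2 < hei x` and `g (- zet x) ≠ 0`, so `- zet x ∈ [0, A/2]`.  Slope for `|t| ≤ A`: if `p x ≠ 0` then `|zet x - t| ≤ 3/2 A`, so by `S_Eqv`
`p (φ t • x) = max 0 (2 hei x - 1) * g (- zet x + t)` and the difference is at most `δ |t|`; if `p x = 0` and `p (φ t • x) ≠ 0` apply this to `φ t • x` and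
`-t`; if both are `0` there is nothing to show.  General `t`: `n ≥ |t| / A`, `n ≥ 1`, sum of the `n` differences at `φ (i t / n) • x`. -/
def S_Prg : Prop := ∀ (G : Type) [Group G] [TopologicalSpace G] [IsTopologicalGroup G] [T2Space G] (N : G → ℝ) (φ : ℝ → G)
  (l A c R : ℝ) (X : Type u) [TopologicalSpace X] [MulAction G X] [ContinuousSMul G X] (b : X → ℝ) (g : ℝ → ℝ) (S δ : ℝ),
  Num N φ l A c R → Continuous b → (∀ x, 0 ≤ b x ∧ b x ≤ 1) → Sp N φ l A b b True → 0 ≤ δ →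
  (∀ τ, 0 ≤ g τ ∧ g τ ≤ S) → (∀ τ τ', |g τ - g τ'| ≤ δ * |τ - τ'|) → (∀ τ, g τ ≠ 0 → 0 ≤ τ ∧ τ ≤ A / 2) →
  Continuous (prg N φ (7 / 4 * l) A b g) ∧
  (∀ x, 0 ≤ prg N φ (7 / 4 * l) A b g x ∧ prg N φ (7 / 4 * l) A b g x ≤ S) ∧
  (∀ x t, |prg N φ (7 / 4 * l) A b g (φ t • x) - prg N φ (7 / 4 * l) A b g x| ≤ δ * |t|) ∧
  ∀ x, prg N φ (7 / 4 * l) A b g x ≠ 0 → 1 / 2 < hei N φ (7 / 4 * l) A b x ∧ g (-(zet N φ (7 / 4 * l) A b x)) ≠ 0

/-- **Col** (about 150 lines).  One colour.  USES `S_Nbr`, `S_Prg`.  PROOF.  `p_j = prg .. (b k j) (g k j a)`; by `Cfg.gsup`, `Cfg.trange` the functions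
`g k j a` vanish outside of `[0, A/8]`, so `S_Prg` applies.  (U) UNIQUENESS: if for `j`: `1/2 < hei x`, `|zet x| ≤ A/2` at `x`, and for `j'` the same at
`φ t • x`, `|t| ≤ A`, then `j = j'`: `S_Nbr` with `w_i = 1`, `τ₁ = 0`, `τ₂ = t` (the difference is at most `A/2 + A + A/2 ≤ 3 A`).  `p_j x ≠ 0` implies
the condition for `j` at `x`.  So at most one `p_j x ≠ 0`, hence `0 ≤ sig ≤ S`, and the last two claims.  Slope for `|t| ≤ A`: if `p_j x ≠ 0` for some `j`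
then `p_j' x = p_j' (φ t • x) = 0` for `j' ≠ j` and the difference is that of `p_j`; if `sig x = 0` and `sig (φ t • x) ≠ 0` exchange the points.
General `t`: sum of small steps. -/
def S_Col : Prop := ∀ (G : Type) [Group G] [TopologicalSpace G] [IsTopologicalGroup G] [T2Space G] (N : G → ℝ) (φ : ℝ → G)
  (l A c R S w δ : ℝ) (X : Type u) [TopologicalSpace X] [MulAction G X] [ContinuousSMul G X] (K q p r : ℕ)
  (t : Fin K → Fin K → Fin p → ℝ) (b : Fin K → Fin q → X → ℝ) (val : Fin K → Fin q → Fin K → Fin p → Fin r → ℝ)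
  (g : Fin K → Fin q → Fin r → ℝ → ℝ), Cfg N φ l A c R S w δ t b val g → ∀ (k : Fin K) (a : Fin r),
  Continuous (sig N φ (7 / 4 * l) A b g k a) ∧
  (∀ x, 0 ≤ sig N φ (7 / 4 * l) A b g k a x ∧ sig N φ (7 / 4 * l) A b g k a x ≤ S) ∧
  (∀ x s, |sig N φ (7 / 4 * l) A b g k a (φ s • x) - sig N φ (7 / 4 * l) A b g k a x| ≤ δ * |s|) ∧
  (∀ x, sig N φ (7 / 4 * l) A b g k a x ≠ 0 → ∃ j i' i, 1 / 2 < hei N φ (7 / 4 * l) A (b k j) x ∧
    |-(zet N φ (7 / 4 * l) A (b k j) x) - t k i' i| < w) ∧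
  ∀ x j, 1 / 2 < hei N φ (7 / 4 * l) A (b k j) x → |zet N φ (7 / 4 * l) A (b k j) x| ≤ A / 2 →
    sig N φ (7 / 4 * l) A b g k a x = prg N φ (7 / 4 * l) A (b k j) (g k j a) x

/-- **Gfn** (about 80 lines).  PROOF.  `tent x = max 0 (min 1 ((w - |x|) / (w - c)))` is `1 / (w - c)`-Lipschitz, `1` for `|x| ≤ c`, `0` for `w ≤ |x|`, between `0` and
`1`.  `g τ = max 0 (max over i of s i * tent (τ - t i))` (if `n = 0`: `g = 0`; for example `Finset.univ.sup'` or `sSup` or induction on `n`): a maximum of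
functions with Lipschitz constant `S / (w - c) ≤ δ`.  If `|τ - t i| ≤ c` then `|τ - t j| ≥ 2 w - c ≥ w` for `j ≠ i`, so `g τ = s i`. -/
def S_Gfn : Prop := ∀ (ι : Type) [Fintype ι] (S c w δ : ℝ) (t s : ι → ℝ), 0 ≤ c → c < w → 0 ≤ S → S / (w - c) ≤ δ →
  (∀ i, 0 ≤ s i ∧ s i ≤ S) → (∀ i j, i ≠ j → 2 * w ≤ |t i - t j|) → ∃ g : ℝ → ℝ, (∀ τ, 0 ≤ g τ ∧ g τ ≤ S) ∧
    (∀ τ τ', |g τ - g τ'| ≤ δ * |τ - τ'|) ∧ (∀ i τ, |τ - t i| ≤ c → g τ = s i) ∧ ∀ τ, g τ ≠ 0 → ∃ i, |τ - t i| < w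

/-- **Sid** (about 150 lines).  The windows.  PROOF.  `Γ = 2 w p + w + 2 c`, `Λ = 2 Γ + 1 + 2 w`, `t k i' i = Λ * 4 ^ (K * k + i' + 1) + 2 w * i`,
`A₀ = Λ * 4 ^ (K * K + 1) + 2 w p + w`.  Range: clear (`w ≤ Λ`).  Separation for fixed `k`: if `i' = i''` then `i ≠ i2` and the distance is at least `2 w`;
if `i' ≠ i''` the two powers of `4` differ by at least `4`, so the distance is at least `4 Λ - 2 w p ≥ 2 w`.
Clean: let `e k i' = K * k + i' + 1` (injective in `(k, i')`, `i' < K`).  Say that `i'` is spoiled by `k' ≠ k` if `|t k i' i - t k' i'' i2 - d k'| ≤ w + 2 c` for some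
`i, i'', i2`; then `|Λ (4^(e k i') - 4^(e k' i'')) - d k'| ≤ Γ`.  If `i'₁ ≠ i'₂` are both spoiled by the same `k'` (with `i''₁, i''₂`) then
`Λ |4^a + 4^b' - 4^b - 4^a'| ≤ 2 Γ` with `a = e k i'₁`, `a' = e k' i''₁`, `b = e k i'₂`, `b' = e k' i''₂`; the integer in the absolute value is not `0`: `a ≠ b`,
`a ≠ a'`, `b ≠ b'`, `a' ≠ b` and `4^a + 4^b' = 4^b + 4^a'` would force `{a, b'} = {b, a'}` (say `a` is the largest of the four (or one of the others, symmetric):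
`4^a` is larger than `4^b + 4^a'` as `b, a' < a`, `2 * 4^(a-1) < 4^a`; if `b'` is the largest the same; if `b` or `a'` is the largest exchange the sides; note that `b' = a` is
impossible too; if `a' = b'` cancel: `4^a = 4^b`, `a = b`).  So the integer has absolute value at least `1` and `Λ ≤ 2 Γ`, a contradiction.  So every `k' ≠ k` spoils at most one `i'`; as there are `K - 1` such `k'` and
`K` values `i'`, some `i'` is not spoiled (`Finset.exists_...`/pigeonhole: choose for every `i'` a `k'` which spoils it: an injective map of `Fin K` into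
`{k' ≠ k}`). -/
def S_Sid : Prop := ∀ (K p : ℕ) (w c : ℝ), 0 ≤ c → 0 < w → ∃ (t : Fin K → Fin K → Fin p → ℝ) (A₀ : ℝ), 0 < A₀ ∧
  (∀ k i' i, w ≤ t k i' i ∧ t k i' i + w ≤ A₀) ∧
  (∀ k i' i i'' i2, (i', i) ≠ (i'', i2) → 2 * w ≤ |t k i' i - t k i'' i2|) ∧
  ∀ (k : Fin K) (d : Fin K → ℝ), ∃ i', ∀ k', k' ≠ k → ∀ i i'' i2, w + 2 * c < |t k i' i - t k' i'' i2 - d k'|

/-- **Cln** (about 130 lines).  The clean window.  USES `S_Nbr`.  PROOF.  Write `y i w' = w' • φ (t k i' i + Z) • x`.  For `k' ≠ k` call `(i', i, w', j')` active if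
`N w' ≤ R`, `1/2 < hei (b k' j') (y)` and `|-(zet (b k' j') (y)) - t k' i'' i2| < w` for some `i'', i2`; then `0 ≤ -(zet ..) ≤ A/8` (`Cfg.trange`).  If there is an active
one for `k'` choose one, `(i'₁, i₁, w₁, j₁)`, and put `s₁ = t k i'₁ i₁ + Z`, `Z₁ = zet (b k' j₁) (w₁ • φ s₁ • x)`, `d k' = Z₁ + s₁ - Z`; otherwise `d k' = 0`.  Take `i'` from
`Cfg.tclean` for `d`.  Suppose that for this `i'` some `(i', i, w₂, j₂)` is active for `k'` with `i'', i2`; `s₂ = t k i' i + Z`, `Z₂`.  `S_Nbr` with `b k' j₁`, `b k' j₂`, `x`: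
`|(Z₂ + s₂) - (Z₁ + s₁)| ≤ A/8 + A/8 + A/8 ≤ 3 A` (`|s₂ - s₁| ≤ A/8`), so it is at most `c`; so `|-Z₂ - (t k i' i - d k')| ≤ c` and
`|t k i' i - t k' i'' i2 - d k'| < w + c`, a contradiction. -/
def S_Cln : Prop := ∀ (G : Type) [Group G] [TopologicalSpace G] [IsTopologicalGroup G] [T2Space G] (N : G → ℝ) (φ : ℝ → G)
  (l A c R S w δ : ℝ) (X : Type u) [TopologicalSpace X] [MulAction G X] [ContinuousSMul G X] (K q p r : ℕ)
  (t : Fin K → Fin K → Fin p → ℝ) (b : Fin K → Fin q → X → ℝ) (val : Fin K → Fin q → Fin K → Fin p → Fin r → ℝ)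
  (g : Fin K → Fin q → Fin r → ℝ → ℝ), Cfg N φ l A c R S w δ t b val g → ∀ (x : X) (k : Fin K) (Z : ℝ),
  ∃ i' : Fin K, ∀ (i : Fin p) (k' : Fin K), k' ≠ k → ∀ (j' : Fin q) (w' : G), N w' ≤ R →
    1 / 2 < hei N φ (7 / 4 * l) A (b k' j') (w' • φ (t k i' i + Z) • x) → ∀ i'' i2,
    w ≤ |-(zet N φ (7 / 4 * l) A (b k' j') (w' • φ (t k i' i + Z) • x)) - t k' i'' i2|

/-- **Val** (about 180 lines).  Values near the nodes of the clean window.  USES `S_Slo`, `S_Nbr`, `S_Eqv`, `S_Cor`, `S_Col`, `S_Cln`.  PROOF.  `s₀, u₁` from `S_Cor` for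
`b k j`; `Z = zet (b k j) x` (`w = 1`: `|Z - s₀| ≤ c`); `i'` from `S_Cln` for `x, k, Z`.  Let `s = t k i' i + Z`, `y = u • φ s • x` with `N u ≤ R` (here first for all such
`u`).  OWN COLOUR: `y = φ s • (u • x)`; by `S_Cor` `hei (u • x) = 1`, `|zet (u • x) - s₀| ≤ c`, so `|zet (u • x)| ≤ 13/8 A + A/8 = 7/4 A` and (`S_Nbr` with
`w₁ = 1`, `w₂ = u`, `τ = 0`; difference at most `2 c ≤ 3 A`) `|zet (u • x) - Z| ≤ c`; so `|zet (u • x) - s| ≤ c + A/8 ≤ 7/4 A`.  `S_Eqv`: `hei y = 1`, `zet y = zet (u • x) - s`,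
so `|-(zet y) - t k i' i| ≤ c` and `|zet y| ≤ A/8 + c ≤ A/2`; by `S_Col` and `Cfg.gval` `sig k a y = (2 - 1) * g k j a (-(zet y)) = val k j i' i a`.
OTHER COLOURS `k' ≠ k`: `sig k' a y = 0`: otherwise `S_Col` gives `j', i'', i2` with `1/2 < hei`, `|-(zet) - t k' i'' i2| < w`, against `S_Cln`.
Now let `N u ≤ r * S`, `y = u • φ s • x`.  For `N u' ≤ 2 S`: `u' • y = (u' * u) • φ s • x`, `N (u' * u) ≤ (r + 2) S ≤ R`, so `sig` has the same value at all these points: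
`S_Slo` (last claim) gives the value of `slow`. -/
def S_Val : Prop := ∀ (G : Type) [Group G] [TopologicalSpace G] [IsTopologicalGroup G] [T2Space G] (N : G → ℝ) (φ : ℝ → G)
  (l A c R S w δ : ℝ) (X : Type u) [TopologicalSpace X] [MulAction G X] [ContinuousSMul G X] (K q p r : ℕ)
  (t : Fin K → Fin K → Fin p → ℝ) (b : Fin K → Fin q → X → ℝ) (val : Fin K → Fin q → Fin K → Fin p → Fin r → ℝ)
  (g : Fin K → Fin q → Fin r → ℝ → ℝ), Cfg N φ l A c R S w δ t b val g → ∀ (x : X) (k : Fin K) (j : Fin q) (u₀ : G),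
  DA N φ l A u₀ ≤ 13 / 8 → b k j (u₀ • x) = 1 →
  ∃ (Z s₀ : ℝ) (u₁ : G) (i' : Fin K), u₀ = φ s₀ * u₁ ∧ N u₁ ≤ 13 / 8 * l ∧ |Z - s₀| ≤ c ∧
    ∀ (i : Fin p) (u : G) (a : Fin r), N u ≤ r * S →
      slow N S (sig N φ (7 / 4 * l) A b g k a) (u • φ (t k i' i + Z) • x) = val k j i' i a ∧
      ∀ k', k' ≠ k → slow N S (sig N φ (7 / 4 * l) A b g k' a) (u • φ (t k i' i + Z) • x) = 0

/-- **Hit** (about 150 lines).  The target is hit.  USES `S_Ev`, `S_Slo`, `S_Col`, `S_Val`.  PROOF.  Let `x` be given, `k, j, u₀` from the cover, `Z, s₀, u₁, i'` from `S_Val`.  Let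
`w' = φ Z * u₀⁻¹ = φ (Z - s₀) * u₁⁻¹` (central): `N w' ≤ N (φ (Z - s₀)) + 13/8 l ≤ ρ`; `i` with `N (w' * (wn i)⁻¹) ≤ r₀`.  `x* = φ (t k i' i + Z) • x`.  With
`z' = u₀ • x`: `x* = (φ (t k i' i) * w') • z' = ((w' * (wn i)⁻¹) * wn i * φ (t k i' i)) • z'` (central).  `cmp (lst ..) x* = wd ψ (val k j i' i) • x*` by `S_Ev` with `R = r * S`:
for a factor `(ψ a, slow (sig k'' a))` of the list: the values at `u • x*`, `N u ≤ r * S`, are `val k j i' i a` (`k'' = k`) or `0` (`k'' ≠ k`) by `S_Val`, nonnegative by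
`S_Slo`, `S_Col`; the sum of all values is `∑ a, val k j i' i a ≤ r * S` (`val ≤ S`: `Cfg.gval` at `τ = t k i' i` and `Cfg.g01`), the product is `wd ψ (val k j i' i)`
(the blocks `k'' ≠ k` consist of factors `ψ a 0 = 1`; `List.prod` of a `flatMap` is the product of the block products, exactly one of them is not `1`).  The target
hypothesis with `e = w' * (wn i)⁻¹` gives the claim with `s = t k i' i + Z`. -/
def S_Hit : Prop := ∀ (G : Type) [Group G] [TopologicalSpace G] [IsTopologicalGroup G] [T2Space G] (N : G → ℝ) (φ : ℝ → G)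
  (l A c R S w δ : ℝ) (X : Type u) [TopologicalSpace X] [MulAction G X] [ContinuousSMul G X] (K q p r : ℕ)
  (t : Fin K → Fin K → Fin p → ℝ) (b : Fin K → Fin q → X → ℝ) (val : Fin K → Fin q → Fin K → Fin p → Fin r → ℝ)
  (g : Fin K → Fin q → Fin r → ℝ → ℝ), Cfg N φ l A c R S w δ t b val g →
  ∀ (ψ : Fin r → ℝ → G) (U : Set X) (ρ r₀ : ℝ) (wn : Fin p → G), (∀ a, OneP N (ψ a)) →
  (∀ x, ∃ k j, ∃ u : G, DA N φ l A u ≤ 13 / 8 ∧ b k j (u • x) = 1) →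
  (∀ s, |s| ≤ c → N (φ s) + 13 / 8 * l ≤ ρ) → (∀ v : G, N v ≤ ρ → ∃ i, N (v * (wn i)⁻¹) ≤ r₀) →
  (∀ k j i' i z, 0 < b k j z → ∀ e : G, N e ≤ r₀ →
    (wd ψ (val k j i' i) * e * wn i * φ (t k i' i)) • z ∈ U) →
  ∀ x, ∃ s, cmp (lst ψ fun k a => slow N S (sig N φ (7 / 4 * l) A b g k a)) (φ s • x) ∈ U

end Pool.Agent.MFG
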