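import Pool.Agent.Lib.MFG.SpecB

/-!
# MP_98850d_an, theorem (C), part C: words, the displacement, the limit argument, closed linear groups

Conventions as in SpecB.
-/

set_option autoImplicit false

namespace Pool.Agent.MFG

open Set Filter Topology

universe u

/-- **Bal** (about 40 lines).  PROOF.  If `1 ∈ O` is a neighbourhood then `{N ≤ 1} \ interior O` is compact and `N > 0` on it (`Len.zero`), so `N ≥ ρ > 0`
there (if it is empty take `ρ = 1`); take `min (ρ / 2) 1`. -/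
def S_Bal : Prop := ∀ (G : Type) [Group G] [TopologicalSpace G] (N : G → ℝ) (O : Set G), Len N → O ∈ 𝓝 (1 : G) →
  ∃ ρ : ℝ, 0 < ρ ∧ ∀ u, N u ≤ ρ → u ∈ O

/-- **Wrd** (about 150 lines).  Words which hit the target.  USES `S_Bal`.  PROOF.  (1) Every `g : G` is `wd ψ s` for some `r`, `ψ : Fin r → ℝ → G` with all
`OneP N (ψ a)` and `s ≥ 0`: the set of these `g` is a subgroup (product: `Fin.append`, `List.ofFn_fin_append`; inverse: reverse the list and
replace `ψ` by `fun t => ψ (-t)`, which is `OneP` too; or use: it is closed under products and contains all `ψ t` and `ψ (-t)`,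
`Subgroup.closure` induction) and contains all `ψ t`, so it is everything by `GenP`.  (2) For a set `Y ⊆ X` let `P Y` be: there are `r, ψ, S, r₀ > 0` as in the
claim which work for all `x ∈ Y`.  `IsCompact.induction_on isCompact_univ`: `P ∅`; monotone; unions: `ψ = Fin.append ψ₁ ψ₂`, `s = Fin.append s₁ 0` or
`Fin.append 0 s₂` (`OneP` gives `ψ 0 = 1`), `S = max S₁ S₂`, `r₀ = min`; locally: for `x` there is `g` with `g • x ∈ U` (minimality), `{(e, x') : (g * e) • x' ∈ U}` is an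
open set which contains `(1, x)`, so it contains `O ×ˢ W`, and `S_Bal` gives `r₀` with `{N ≤ 2 r₀} ⊆ O`. -/
def S_Wrd : Prop := ∀ (G : Type) [Group G] [TopologicalSpace G] [IsTopologicalGroup G] (N : G → ℝ) (X : Type u)
  [TopologicalSpace X] [CompactSpace X] [MulAction G X] [ContinuousSMul G X] (U : Set X), Len N → GenP N → MinG G X →
  IsOpen U → U.Nonempty → ∃ (r : ℕ) (ψ : Fin r → ℝ → G) (S r₀ : ℝ), (∀ a, OneP N (ψ a)) ∧ 0 ≤ S ∧ 0 < r₀ ∧
    ∀ x : X, ∃ s : Fin r → ℝ, (∀ a, 0 ≤ s a ∧ s a ≤ S) ∧ ∀ e : G, N e ≤ 2 * r₀ → (wd ψ s * e) • x ∈ U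

/-- **Nb2** (about 130 lines).  Small neighbourhoods.  PROOF.  (1) `{u | D u ≤ 8, 1 ≤ N u}` is compact and does not contain `1`; if no neighbourhood of `z` has the property
`x, u • x ∈ O, D u ≤ 8 → N u ≤ 1` there are `x_i → z`, `u_i` in this compact set with `u_i • x_i → z` (balls of radius `1/(i+1)`); for the limit `u` of a
subsequence (or by the tube lemma: for every `u` in the compact set `u • z ≠ z`, so `u' • x ∉ W`, `x ∈ W'` near) `u • z = z`, `u = 1`, `N u = 0`, a contradiction.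
(2) For `k, i', i` take `val k i' i` from the hypothesis on words for the point `(wn i * φ (t k i' i)) • z`.  The set
`{(e, z') : (wd ψ (val k i' i) * e * wn i * φ (t k i' i)) • z' ∈ U}` is open and contains `{N e ≤ 2 r₀} × {z}`, and `{N ≤ r₀}` is compact, so there is a neighbourhood
of `z` (tube lemma, `generalized_tube_lemma`).  Intersect the finitely many neighbourhoods. -/
def S_Nb2 : Prop := ∀ (G : Type) [Group G] [TopologicalSpace G] [IsTopologicalGroup G] [T2Space G] (N D : G → ℝ) (φ : ℝ → G)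
  (X : Type u) [MetricSpace X] [MulAction G X] [ContinuousSMul G X] (U : Set X) (K p r : ℕ) (ψ : Fin r → ℝ → G) (S r₀ : ℝ)
  (wn : Fin p → G) (t : Fin K → Fin K → Fin p → ℝ), Cen N φ → Len D → FreeG G X → IsOpen U → 0 < r₀ →
  (∀ x : X, ∃ s : Fin r → ℝ, (∀ a, 0 ≤ s a ∧ s a ≤ S) ∧ ∀ e : G, N e ≤ 2 * r₀ → (wd ψ s * e) • x ∈ U) →
  ∀ z : X, ∃ O ∈ 𝓝 z, ∃ val : Fin K → Fin K → Fin p → Fin r → ℝ, (∀ k i' i a, 0 ≤ val k i' i a ∧ val k i' i a ≤ S) ∧
    (∀ x ∈ O, ∀ u : G, u • x ∈ O → D u ≤ 8 → N u ≤ 1) ∧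
    ∀ k i' i, ∀ z' ∈ O, ∀ e : G, N e ≤ r₀ → (wd ψ (val k i' i) * e * wn i * φ (t k i' i)) • z' ∈ U

/-- **FldG** (about 250 lines).  One step.  USES `S_BxG`, `S_DA`, `S_Pka`, `S_Slo`, `S_Hm`, `S_Cmp`, `S_Gfn`, `S_Sid`, `S_Col`, `S_Hit`, `S_Wrd`, `S_Nb2`.  PROOF.  Choose in this
order: `r, ψ, S, r₀` from `S_Wrd`; `R = (r + 2) S`, `l = 8 (R + 1)`; `c ≥ 0` from `Cen.cls` for `M = 2 (7/4 l) + 1 + 2 R` (replace `c` by `max c 0`); `P` from `S_Pka` for `l`;
`K = (n + m + 1) (P + 1)`; `δ` from `S_Cmp` for `S, T, ε, K * r`; `w = c + S / δ + 1` (so `S / (w - c) ≤ δ`); `ρ` with `N (φ s) + 13/8 l ≤ ρ` for `|s| ≤ c` (compactness);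
`p`, `wn : Fin p → G` such that `N v ≤ ρ` implies `N (v * (wn i)⁻¹) ≤ r₀` for some `i` (the compact `{N ≤ ρ}` is covered by finitely many open sets
`{v | N (v * g⁻¹) < r₀}`); `t, A₀` from `S_Sid` for `K, p, w, c`; `A = 8 (A₀ + c + 1)`.  `Num N φ l A c R` holds, `DA` is a `Len` with `Pck (DA ..) P` (`S_DA`, `S_Pka`).
`O z`, `vl z` from `S_Nb2` for `D = DA N φ l A`; `q, z, b` from `S_BxG` for `DA`, `O`.  `val k j i' i = vl (z j) k i' i`; for `k, j, a` let `g k j a` be from `S_Gfn` for the index type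
`Fin K × Fin p` with times `t k i' i` and values `val k j i' i a`.  `Cfg` holds: `sep`: if `0 < b k j x`, `0 < b k j' (u • x)`, `DA u ≤ 8` then `j = j'` (`Clu.sep`) and both points are in
`O (z j)` (`Clu.small`), so `N u ≤ 1`; `gval`, `gsup`, `glip`, `g01` from `S_Gfn`; `trange`, `tclean` from `S_Sid` (`A₀ ≤ A/8`).  Let `L = lst ψ (fun k a => slow N S (sig ..))`, of length
`K * r`; `S_Col` and `S_Slo` give the hypotheses of `S_Hm` (the homeomorphism `H`, `H x = cmp L x`) and of `S_Cmp`.  The first claim is `S_Cmp`, the second is `S_Hit`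
(target: `0 < b k j z'` gives `z' ∈ O (z j)` and `S_Nb2` applies). -/
def S_FldG : Prop := ∀ (G : Type) [Group G] [TopologicalSpace G] [IsTopologicalGroup G] [T2Space G] (N : G → ℝ) (φ : ℝ → G)
  (n m : ℕ) (X : Type u) [MetricSpace X] [CompactSpace X] [MulAction G X] [ContinuousSMul G X] (ι : X → E m), Cen N φ →
  Pol N n → GenP N → FreeG G X → LSec G X → MinG G X → Continuous ι → Function.Injective ι →
  ∀ (U : Set X) (T ε : ℝ), IsOpen U → U.Nonempty → 0 < ε → ∃ H : X ≃ₜ X,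
    (∀ x t, |t| ≤ T → ∃ e : G, N e ≤ ε ∧ H (φ t • x) = e • φ t • H x) ∧ ∀ x, ∃ s, H (φ s • x) ∈ U

/-- **FreG** (about 130 lines).  USES `S_FldG`, `S_Bal`; import `Pool.Agent.Lib.MP_98850d_an.Lim` (`Pool.Agent.MP98850d.tLim : S_Lim`).  PROOF.  Copy of
`Pool/Agent/Lib/MP_98850d_an/Fre.lean`.  `fl t x = φ t • x` is a flow.  Let `𝓕` be the set of all flows `ψ` with a homeomorphism `H` such that
`ψ t x = H (φ t • H.symm x)`; apply `S_Lim`.  Given `ψ, H, U, ε, T`: `H` is uniformly continuous, `dist x y < ε₁ → dist (H x) (H y) < ε`; there is `ρ > 0` with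
`dist (e • x) x < ε₁` for all `x` and `N e ≤ ρ` (compactness of `X`: the set of the `e` with `dist (e • x) x < ε₁` for all `x` is a neighbourhood of `1`; `S_Bal`).
`S_FldG` for `U' = H ⁻¹' U`, `T`, `ρ` gives `h`; `ψ' t x = H (h (φ t • h.symm (H.symm x)))`.  With `y = h.symm (H.symm x)`: `h (φ t • y) = e • φ t • h y = e • φ t • H.symm x`, so
`dist (ψ' t x) (ψ t x) < ε` for `|t| ≤ T`; and every orbit of `ψ'` meets `U`. -/
def S_FreG : Prop := ∀ (G : Type) [Group G] [TopologicalSpace G] [IsTopologicalGroup G] [T2Space G] (N : G → ℝ) (φ : ℝ → G)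
  (n m : ℕ) (X : Type u) [MetricSpace X] [CompactSpace X] [MulAction G X] [ContinuousSMul G X] (ι : X → E m), Cen N φ →
  Pol N n → GenP N → FreeG G X → LSec G X → MinG G X → Continuous ι → Function.Injective ι →
  ∃ ψ : Flow ℝ X, ∀ x, Dense (range fun t => ψ t x)

/-- **ManG** (about 50 lines).  USES `S_FreG`; import `Pool.Agent.Lib.MP_98850d_an.Emb` (`tEmb : S_Emb`).  PROOF.  `tEmb` gives a continuous injective `ι : M → E m`, a closed
embedding, and `Topology.IsEmbedding.comapMetricSpace` a metric with the given topology (as in `Pool/Agent/Lib/MP_98850d_an/Top.lean`). -/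
def S_ManG : Prop := ∀ (G : Type) [Group G] [TopologicalSpace G] [IsTopologicalGroup G] [T2Space G] (N : G → ℝ) (φ : ℝ → G)
  (n d : ℕ) (M : Type u) [TopologicalSpace M] [T2Space M] [CompactSpace M] [ChartedSpace (EuclideanSpace ℝ (Fin d)) M]
  [MulAction G M] [ContinuousSMul G M], Cen N φ → Pol N n → GenP N → FreeG G M → LSec G M → MinG G M →
  ∃ ψ : Flow ℝ M, ∀ x, Dense (range fun t => ψ t x)

/-! ## Closed linear groups -/

/-- the sum of the absolute values of the entries -/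
noncomputable def nm {d : ℕ} (M : Matrix (Fin d) (Fin d) ℝ) : ℝ := ∑ i, ∑ j, |M i j|

/-- the matrix of an element of a linear group -/
def mt {d : ℕ} {G : Subgroup (Matrix.GeneralLinearGroup (Fin d) ℝ)} (u : G) : Matrix (Fin d) (Fin d) ℝ :=
  Units.val (u : Matrix.GeneralLinearGroup (Fin d) ℝ)

/-- the length function of a linear group -/
noncomputable def NG {d : ℕ} (G : Subgroup (Matrix.GeneralLinearGroup (Fin d) ℝ)) (u : G) : ℝ :=
  Real.log (1 + max (nm (mt u - 1)) (nm (mt u⁻¹ - 1)))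

/-- **Lin** (about 150 lines).  PROOF.  `mt (u * v) = mt u * mt v`, `mt 1 = 1`, `mt u * mt u⁻¹ = 1`.  `nm (A * B) ≤ nm A * nm B`, `nm (A + B) ≤ nm A + nm B`, `nm A = 0 ↔ A = 0`, `nm` is continuous.
Let `m u = max (nm (mt u - 1)) (nm (mt u⁻¹ - 1)) ≥ 0`.  `mt (u * v) - 1 = (mt u - 1) * (mt v - 1) + (mt u - 1) + (mt v - 1)`, so
`1 + nm (mt (u * v) - 1) ≤ (1 + m u) (1 + m v)`, the same for `(u * v)⁻¹ = v⁻¹ * u⁻¹`: `mul`.  `zero`: `log (1 + m) = 0 ↔ m = 0 ↔ mt u = 1 ↔ u = 1` (`Units.ext`).  Continuity: `mt` is continuous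
(`Units.continuous_val`, `continuous_subtype_val`), inverse is continuous.  Compactness of `{NG ≤ c}`: the map `u ↦ (mt u, mt u⁻¹)` of `G` to pairs of matrices is a closed
embedding: on `GL` it is `Units.embedProduct` (`Units.isEmbedding_embedProduct`), with the closed image `{(a, b) : a b = 1, b a = 1}`, and `G` is closed; `{NG ≤ c}` is the
preimage of the closed bounded set of the pairs with `nm (a - 1), nm (b - 1) ≤ exp c - 1` (compact: entries bounded). -/
def S_Lin : Prop := ∀ (d : ℕ) (G : Subgroup (Matrix.GeneralLinearGroup (Fin d) ℝ)),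
  IsClosed (G : Set (Matrix.GeneralLinearGroup (Fin d) ℝ)) → Len (NG G)

/-- **LinP** (about 120 lines).  Covering numbers.  Import `Pool.Agent.Lib.MP_98850d_an.Cube` (`Pool.Agent.MP98850d.tCube : S_Cube`).  PROOF.  Given `M` (we may assume `M ≥ 0`), let `M' = exp M - 1`: `NG u ≤ M` implies
`nm (mt u - 1), nm (mt u⁻¹ - 1) ≤ M'`, so the entries of `mt u` are at most `M' + 1` and `nm (mt u⁻¹) ≤ M' + d`.  Let `C₁` be from `S_Cube` for the dimension `d * d` and the radius `M' + 1`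
(identify matrices with `Fin (d * d) → ℝ` by `finProdFinEquiv`), `D = d * d * (M' + d) + 1`.  For `0 < ε ≤ 1` take the cubes for `ε / D ≤ 1`, intersected with `{NG ≤ M}`: if `u, u'` are in the same
set, `nm (mt u - mt u') ≤ d * d * ε / D`, `mt (u * u'⁻¹) - 1 = (mt u - mt u') * mt u'⁻¹`, so `nm ≤ ε`, and the same for the inverse `u' * u⁻¹`; `NG (u * u'⁻¹) ≤ log (1 + ε) ≤ ε`.  The number
of sets is at most `(C₁ D / ε)^(d * d)`. -/
def S_LinP : Prop := ∀ (d : ℕ) (G : Subgroup (Matrix.GeneralLinearGroup (Fin d) ℝ)), Pol (NG G) (d * d)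

/-- **LinO** (about 150 lines).  One-parameter subgroups are Lipschitz.  USES `S_Lin` (only subadditivity and `inv`; `mul` and `inv` do not need that `G` is closed, reprove them).  PROOF.  Let `Γ t = mt (γ t)`, continuous,
`Γ (s + t) = Γ s * Γ t`, `Γ 0 = 1`.  `J a = ∫ s in 0..a, Γ s` (entrywise; matrices with the product topology, or use functions `ℝ → ℝ` for the entries).  `J a / a → 1` as `a → 0+`, so by continuity of `det` there is
`a > 0` with `J a` invertible.  `Γ t * J a = ∫ s in t..t+a, Γ s`, so `(Γ t - 1) * J a = ∫ s in a..a+t, Γ s - ∫ s in 0..t, Γ s` and for `|t| ≤ 1`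
`nm (Γ t - 1) ≤ 2 B |t| nm ((J a)⁻¹) * (d * d)` with `B` a bound of the entries of `Γ` on `[-1, a + 1]`.  So `NG (γ t) ≤ C |t|` for `|t| ≤ 1` (`log (1 + x) ≤ x`, `γ (-t) = (γ t)⁻¹`).  For all `t`: `n = ⌈|t|⌉ + 1`,
`γ t = (γ (t / n))^n`, `NG (γ t) ≤ n NG (γ (t / n)) ≤ C |t|`. -/
def S_LinO : Prop := ∀ (d : ℕ) (G : Subgroup (Matrix.GeneralLinearGroup (Fin d) ℝ)) (γ : ℝ → G), Continuous γ →
  (∀ s t, γ (s + t) = γ s * γ t) → ∃ C : ℝ, 0 < C ∧ ∀ t, NG G (γ t) ≤ C * |t|

/-- **Prod**, the theorem for closed linear groups (about 60 lines).  USES `S_ManG`, `S_Lin`, `S_LinP`, `S_LinO`.  PROOF.  `S_ManG` with `N = NG G`, `n = e * e`.  `Cen`: `cls`: `{NG ≤ M}` is compact, so its preimage under the closed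
embedding `φ` is compact (`Topology.IsClosedEmbedding.isCompact_preimage`), hence bounded.  `GenP`: if a subgroup `H` contains all `OneP` subgroups, let `γ` be a continuous one-parameter
subgroup, `C` from `S_LinO`; `t ↦ γ (t / C)` is `OneP`, so `γ t = γ ((C t) / C) ∈ H`.  `MinG`: `MulAction.orbit G x = range fun u => u • x`. -/
def S_Prod : Prop := ∀ (d e : ℕ) (G : Subgroup (Matrix.GeneralLinearGroup (Fin e) ℝ)),
  IsClosed (G : Set (Matrix.GeneralLinearGroup (Fin e) ℝ)) →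
  (∀ H : Subgroup G, (∀ γ : ℝ → G, Continuous γ → (∀ s t, γ (s + t) = γ s * γ t) → ∀ t, γ t ∈ H) → H = ⊤) →
  ∀ φ : ℝ → G, Topology.IsClosedEmbedding φ → (∀ s t, φ (s + t) = φ s * φ t) → (∀ t u, φ t * u = u * φ t) →
  ∀ (M : Type u) [TopologicalSpace M] [T2Space M] [CompactSpace M] [ChartedSpace (EuclideanSpace ℝ (Fin d)) M]
    [MulAction G M] [ContinuousSMul G M], (∀ (u : G) (x : M), u • x = x → u = 1) →
    (∀ x₀ : M, ∃ V ∈ 𝓝 x₀, ∃ O ∈ 𝓝 (1 : G), ∃ p : M → G, ContinuousOn p V ∧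
      ∀ x ∈ V, ∀ u ∈ O, u • x ∈ V → p (u • x) = p x * u⁻¹) →
    (∀ x : M, Dense (MulAction.orbit G x)) → ∃ ψ : Flow ℝ M, ∀ x, Dense (range fun t => ψ t x)

end Pool.Agent.MFG
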